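import Mathlib

/-!
# Project CU, module Card: a regular cardinal with `κ ^ ℵ₀ = κ`
-/

set_option autoImplicit false

namespace Pool.Agent.Helper95.CU

open Cardinal Set

theorem h91_bdd {c : Cardinal.{0}} (hc : ℵ₀ ≤ c) (f : ℕ → (Order.succ c).ord.ToType) :
    ∃ w, ∀ n, f n < w := by
  by_contra hcon
  push Not at hcon
  have h1 : (univ : Set (Order.succ c).ord.ToType) ⊆ ⋃ n, Iic (f n) := by
    intro w _
    obtain ⟨n, hn⟩ := hcon w
    exact mem_iUnion.2 ⟨n, hn⟩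
  have h2 : ∀ n, #(Iic (f n)) ≤ c := by
    intro n
    have h3 : #(Iic (f n)) ≤ #(Iio (f n)) + 1 := by
      rw [← Set.Iio_insert]
      exact mk_insert_le
    have h4 : #(Iio (f n)) ≤ c := Order.lt_succ_iff.1 (mk_Iio_toType_ord_lt (f n))
    calc #(Iic (f n)) ≤ #(Iio (f n)) + 1 := h3
      _ ≤ c + 1 := by gcongr
      _ = c := add_one_eq hc
  have h5 : Order.succ c ≤ c := by
    calc Order.succ c = #(univ : Set (Order.succ c).ord.ToType) := by
          rw [mk_univ, mk_ord_toType]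
      _ ≤ #(⋃ n, Iic (f n) : Set _) := mk_le_mk_of_subset h1
      _ ≤ #ℕ * ⨆ n, #(Iic (f n)) := mk_iUnion_le _
      _ ≤ ℵ₀ * c := by
          rw [mk_nat]
          gcongr
          exact ciSup_le' h2
      _ = c := aleph0_mul_eq hc
  exact absurd h5 (not_le.2 (Order.lt_succ c))

theorem exists_kappa : ∃ κ : Cardinal.{0}, κ.IsRegular ∧ ℵ₀ < κ ∧ κ ^ ℵ₀ = κ := by
  have hc : ℵ₀ ≤ (2 : Cardinal.{0}) ^ ℵ₀ := (cantor ℵ₀).le
  refine ⟨Order.succ (2 ^ ℵ₀), isRegular_succ hc, hc.trans_lt (Order.lt_succ _), ?_⟩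
  apply le_antisymm
  · have hs : Function.Surjective (fun p : (Σ w : (Order.succ ((2 : Cardinal.{0}) ^ ℵ₀)).ord.ToType,
        (ℕ → Iio w)) => fun n => (p.2 n).1) := by
      intro f
      obtain ⟨w, hw⟩ := h91_bdd hc f
      exact ⟨⟨w, fun n => ⟨f n, hw n⟩⟩, rfl⟩
    calc (Order.succ ((2 : Cardinal.{0}) ^ ℵ₀)) ^ ℵ₀
        = #(ℕ → (Order.succ ((2 : Cardinal.{0}) ^ ℵ₀)).ord.ToType) := by
          rw [← power_def, mk_ord_toType, mk_nat]
      _ ≤ #(Σ w : (Order.succ ((2 : Cardinal.{0}) ^ ℵ₀)).ord.ToType, (ℕ → Iio w)) :=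
          mk_le_of_surjective hs
      _ = sum fun w : (Order.succ ((2 : Cardinal.{0}) ^ ℵ₀)).ord.ToType => #(ℕ → Iio w) :=
          mk_sigma _
      _ ≤ sum fun _ : (Order.succ ((2 : Cardinal.{0}) ^ ℵ₀)).ord.ToType => 2 ^ ℵ₀ := by
          apply sum_le_sum
          intro w
          have h1 : #(Iio w) ≤ 2 ^ ℵ₀ := Order.lt_succ_iff.1 (mk_Iio_toType_ord_lt w)
          calc #(ℕ → Iio w) = #(Iio w) ^ ℵ₀ := by rw [← power_def, mk_nat]
            _ ≤ (2 ^ ℵ₀) ^ ℵ₀ := power_le_power_right h1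
            _ = 2 ^ ℵ₀ := by rw [← power_mul, aleph0_mul_aleph0]
      _ = Order.succ (2 ^ ℵ₀) * 2 ^ ℵ₀ := by
          rw [sum_const', mk_ord_toType]
      _ = Order.succ (2 ^ ℵ₀) :=
          mul_eq_left (hc.trans (Order.le_succ _)) (Order.le_succ _) (aleph0_pos.trans_le hc).ne'
  · exact self_le_power _ one_le_aleph0

end Pool.Agent.Helper95.CU
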