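import Pool.Agent.Helper95.CU.Defs

/-!
# Project CU: the conditions for adding Cohen reals
-/

set_option autoImplicit false

namespace Pool.Agent.Helper95.CU

open Pool.Agent.Helper33.HM

universe u

/-- Finite partial functions from `Λ × ℕ` to `Bool`. -/
@[ext]
structure Cnd (Λ : Type u) where
  f : Λ → ℕ → Option Bool
  fin : {x : Λ × ℕ | f x.1 x.2 ≠ none}.Finite

namespace Cnd

variable {Λ : Type u}

/-- Stronger conditions are smaller. -/
instance : PartialOrder (Cnd Λ) where
  le q p := ∀ e n b, p.f e n = some b → q.f e n = some b
  le_refl _ _ _ _ h := h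
  le_trans _ _ _ h1 h2 e n b h := h1 e n b (h2 e n b h)
  le_antisymm p q h1 h2 := by
    ext e n b
    exact ⟨fun h => h2 e n b h, fun h => h1 e n b h⟩

theorem le_def {p q : Cnd Λ} : q ≤ p ↔ ∀ e n b, p.f e n = some b → q.f e n = some b := Iff.rfl

open Classical in
/-- The condition which is `q` on `A` and `p` outside `A`. -/
noncomputable def glue (A : Set Λ) (q p : Cnd Λ) : Cnd Λ where
  f e n := if e ∈ A then q.f e n else p.f e n
  fin := (q.fin.union p.fin).subset (by
    rintro ⟨e, n⟩ h
    by_cases he : e ∈ A
    · left; simpa [he] using h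
    · right; simpa [he] using h)

/-- The empty condition. -/
def one : Cnd Λ where
  f _ _ := none
  fin := by simp

/-- The restriction of a condition to `A`. -/
noncomputable def res (A : Set Λ) (p : Cnd Λ) : Cnd Λ := glue A p one

open Classical in
/-- The condition which puts the word `τ` at the coordinate `e`. -/
noncomputable def wd (e : Λ) (τ : List Bool) : Cnd Λ where
  f e' n := if e' = e then τ[n]? else none
  fin := by
    refine ((Set.finite_Iio τ.length).image fun n => (e, n)).subset ?_
    rintro ⟨e', n⟩ h
    by_cases he : e' = e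
    · subst he
      have h' : τ[n]? ≠ none := by simpa using h
      have hn : n < τ.length := by
        by_contra hcon
        exact h' (by simpa using hcon)
      exact ⟨n, hn, rfl⟩
    · simp [he] at h

end Cnd

/-- The regular open sets supported by `A`. -/
def Sp {Λ : Type u} (A : Set Λ) : Set (RO (Cnd Λ)) := {U | ∀ p ∈ U, Cnd.res A p ∈ U}

/-- The name of the Cohen real at the coordinate `e`. -/
def coR {Λ : Type u} (e : Λ) (n : ℕ) : RO (Cnd Λ) :=
  RO.gen {p | p.f e n = some true}

end Pool.Agent.Helper95.CU
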