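import Pool.Agent.Helper33.HM.Val
import Pool.Agent.Helper95.CU.CohDefs

/-!
# Project CU: supports in the algebra of finite partial functions
-/

set_option autoImplicit false

namespace Pool.Agent.Helper95.CU

open Pool.Agent.Helper33.HM Cardinal Set

universe u

section CohA

variable {Λ : Type u} {A D : Set Λ}

theorem h13_res_f (A : Set Λ) (p : Cnd Λ) (e : Λ) (n : ℕ) (b : Bool) :
    (Cnd.res A p).f e n = some b ↔ e ∈ A ∧ p.f e n = some b := by
  unfold Cnd.res Cnd.glue Cnd.one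
  by_cases he : e ∈ A <;> simp [he]

theorem h13_glue_f (A : Set Λ) (q p : Cnd Λ) (e : Λ) (n : ℕ) (b : Bool) :
    (Cnd.glue A q p).f e n = some b ↔ (e ∈ A ∧ q.f e n = some b) ∨ (e ∉ A ∧ p.f e n = some b) := by
  unfold Cnd.glue
  by_cases he : e ∈ A <;> simp [he]

theorem h13_wd_f (e : Λ) (τ : List Bool) (e' : Λ) (n : ℕ) (b : Bool) :
    (Cnd.wd e τ).f e' n = some b ↔ e' = e ∧ τ[n]? = some b := by
  unfold Cnd.wd
  by_cases he : e' = e <;> simp [he]

theorem h13_le_res (A : Set Λ) (p : Cnd Λ) : p ≤ Cnd.res A p := fun e n b h =>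
  ((h13_res_f A p e n b).1 h).2

theorem h13_res_mono {p q : Cnd Λ} (h : q ≤ p) : Cnd.res A q ≤ Cnd.res A p := fun e n b h' => by
  rw [h13_res_f] at h' ⊢
  exact ⟨h'.1, h e n b h'.2⟩

theorem h13_res_anti {A' : Set Λ} (h : A ⊆ A') (p : Cnd Λ) : Cnd.res A' p ≤ Cnd.res A p :=
  fun e n b h' => by
  rw [h13_res_f] at h' ⊢
  exact ⟨h h'.1, h'.2⟩

theorem h13_res_res (A : Set Λ) (p : Cnd Λ) : Cnd.res A (Cnd.res A p) = Cnd.res A p := by
  ext e n b
  rw [h13_res_f, h13_res_f]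
  tauto

theorem h13_res_univ (p : Cnd Λ) : Cnd.res univ p = p := by
  ext e n b
  rw [h13_res_f]
  simp

theorem h13_glue_le {p q : Cnd Λ} (h : q ≤ Cnd.res A p) : Cnd.glue A q p ≤ p := fun e n b h' => by
  rw [h13_glue_f]
  by_cases he : e ∈ A
  · exact Or.inl ⟨he, h e n b ((h13_res_f A p e n b).2 ⟨he, h'⟩)⟩
  · exact Or.inr ⟨he, h'⟩

theorem h13_glue_le_res (A : Set Λ) (q p : Cnd Λ) : Cnd.glue A q p ≤ Cnd.res A q :=
  fun e n b h' => by
  rw [h13_glue_f]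
  exact Or.inl ((h13_res_f A q e n b).1 h')

/-- `p` with the value `b` at `(e, n)`. -/
noncomputable def h13_upd (p : Cnd Λ) (e : Λ) (n : ℕ) (b : Bool) : Cnd Λ where
  f e' n' := open Classical in if e' = e ∧ n' = n then some b else p.f e' n'
  fin := (p.fin.union (finite_singleton (e, n))).subset (by
    rintro ⟨e', n'⟩ h
    by_cases he : e' = e ∧ n' = n
    · right
      exact Prod.ext he.1 he.2
    · left
      simpa [he] using h)

theorem h13_upd_self (p : Cnd Λ) (e : Λ) (n : ℕ) (b : Bool) : (h13_upd p e n b).f e n = some b := by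
  simp [h13_upd]

theorem h13_upd_le {p : Cnd Λ} {e : Λ} {n : ℕ} (b : Bool) (h : p.f e n = none) :
    h13_upd p e n b ≤ p := fun e' n' b' h' => by
  unfold h13_upd
  by_cases he : e' = e ∧ n' = n
  · obtain ⟨rfl, rfl⟩ := he
    rw [h] at h'
    exact absurd h' (by simp)
  · simpa [he] using h'

/-- An extension with a given value which is not excluded. -/
theorem h13_ext (p : Cnd Λ) (e : Λ) (n : ℕ) (b : Bool) (h : p.f e n ≠ some b) :
    ∃ q ≤ p, q.f e n = some (!b) := by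
  rcases hp : p.f e n with _ | c
  · exact ⟨h13_upd p e n (!b), h13_upd_le _ hp, h13_upd_self _ _ _ _⟩
  · refine ⟨p, le_rfl, ?_⟩
    rw [hp] at h ⊢
    cases b <;> cases c <;> simp_all

theorem isSub_Sp (A : Set Λ) : IsSub (Sp A) where
  sSup_mem := by
    intro T hT p hp
    rw [RO.mem_sSup] at hp ⊢
    intro q hq
    obtain ⟨r, hr, U, hU, hrU⟩ := hp (Cnd.glue A q p) (h13_glue_le hq)
    have h1 : r ≤ Cnd.res A q := hr.trans (h13_glue_le_res A q p)
    exact ⟨Cnd.glue A r q, h13_glue_le h1, U, hU, RO.mem_lower (h13_glue_le_res A r q)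
      (hT hU r hrU)⟩
  compl_mem := by
    intro U hU p hp
    rw [RO.mem_compl] at hp ⊢
    intro q hq hqU
    exact hp (Cnd.glue A q p) (h13_glue_le hq) (RO.mem_lower (h13_glue_le_res A q p) (hU q hqU))

theorem Sp_mono {A' : Set Λ} (h : A ⊆ A') : Sp A ⊆ Sp A' := fun _ hU p hp =>
  RO.mem_lower (h13_res_anti h p) (hU p hp)

theorem mem_Sp_univ (U : RO (Cnd Λ)) : U ∈ Sp (univ : Set Λ) := fun p hp => by
  rwa [h13_res_univ]

theorem Sp_empty (U : RO (Cnd Λ)) (h : U ∈ Sp (∅ : Set Λ)) : U = ⊥ ∨ U = ⊤ := by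
  by_cases hU : U = ⊥
  · exact Or.inl hU
  · right
    obtain ⟨p, hp⟩ := RO.ne_bot_iff.1 hU
    apply RO.ext'
    intro q
    refine ⟨fun _ => RO.mem_top q, fun _ => ?_⟩
    refine RO.mem_lower (fun e n b h' => ?_) (h p hp)
    rw [h13_res_f] at h'
    exact h'.1.elim

/-- `gen {p}` consists of the extensions of `p` (the order is separative) -/
theorem mem_gen_singleton {p q : Cnd Λ} : q ∈ RO.gen {p} ↔ q ≤ p := by
  rw [RO.mem_gen]
  constructor
  · intro h e n b hb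
    by_contra hcon
    obtain ⟨q', hq', hb'⟩ := h13_ext q e n b hcon
    obtain ⟨r, hr, a, rfl, hra⟩ := h q' hq'
    have h1 := hr e n _ hb'
    rw [hra e n b hb] at h1
    cases b <;> simp at h1
  · intro h r hr
    exact ⟨r, le_rfl, p, rfl, hr.trans h⟩

theorem h13_gen_mem {p : Cnd Λ} (h : Cnd.res A p = p) : RO.gen {p} ∈ Sp A := by
  intro q hq
  rw [mem_gen_singleton] at hq ⊢
  rw [← h]
  exact h13_res_mono hq

/-- The graph of a condition. -/
def h13_graph (p : Cnd Λ) : Set (Λ × ℕ × Bool) := {x | p.f x.1 x.2.1 = some x.2.2}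

theorem h13_graph_finite (p : Cnd Λ) : (h13_graph p).Finite := by
  refine ((p.fin.prod (finite_univ (α := Bool))).image
    fun x => (x.1.1, x.1.2, x.2)).subset ?_
  rintro ⟨e, n, b⟩ h
  refine ⟨((e, n), b), ⟨?_, mem_univ _⟩, rfl⟩
  change p.f e n = some b at h
  change p.f e n ≠ none
  rw [h]
  simp

theorem h13_graph_inj : Function.Injective (h13_graph (Λ := Λ)) := by
  intro p q h
  ext e n b
  exact Set.ext_iff.1 h (e, n, b)

theorem h13_graph_sub {p : Cnd Λ} (h : Cnd.res A p = p) :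
    h13_graph p ⊆ A ×ˢ (univ : Set (ℕ × Bool)) := by
  rintro ⟨e, n, b⟩ hx
  change p.f e n = some b at hx
  rw [← h, h13_res_f] at hx
  exact ⟨hx.1, mem_univ _⟩

theorem h13_countable (hD : D.Countable) : {p : Cnd Λ | Cnd.res D p = p}.Countable := by
  refine MapsTo.countable_of_injOn (f := h13_graph)
    (t := {t | t.Finite ∧ t ⊆ D ×ˢ (univ : Set (ℕ × Bool))}) ?_
    h13_graph_inj.injOn (countable_ofPred_finite_subset (hD.prod countable_univ))
  intro p hp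
  exact ⟨h13_graph_finite p, h13_graph_sub hp⟩

theorem Sp_dense (hD : D.Countable) : ∃ p : ℕ → RO (Cnd Λ), (∀ m, p m ∈ Sp D) ∧
    ∀ A, ∀ x ∈ Sp (A ∪ D), x ≠ ⊥ → ∃ m, ∃ b ∈ Sp A, b ⊓ p m ≠ ⊥ ∧ b ⊓ p m ≤ x := by
  obtain ⟨u, hu⟩ := (h13_countable (Λ := Λ) hD).exists_eq_range ⟨Cnd.res D Cnd.one,
    h13_res_res D _⟩
  refine ⟨fun m => RO.gen {u m}, fun m => h13_gen_mem (by
    have : u m ∈ {p : Cnd Λ | Cnd.res D p = p} := by
      rw [hu]
      exact ⟨m, rfl⟩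
    exact this), ?_⟩
  intro A x hx hx0
  obtain ⟨q, hq⟩ := RO.ne_bot_iff.1 hx0
  have h1 : Cnd.res D q ∈ range u := by
    rw [← hu]
    exact h13_res_res D q
  obtain ⟨m, hm⟩ := h1
  refine ⟨m, RO.gen {Cnd.res A q}, h13_gen_mem (h13_res_res A q), ?_, ?_⟩
  · rw [RO.ne_bot_iff]
    refine ⟨q, ?_⟩
    rw [RO.mem_inf, mem_gen_singleton, mem_gen_singleton, hm]
    exact ⟨h13_le_res A q, h13_le_res D q⟩
  · rw [RO.le_def]
    intro r hr
    rw [RO.mem_inf, mem_gen_singleton, mem_gen_singleton, hm] at hr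
    refine RO.mem_lower (fun e n b hb => ?_) (hx q hq)
    rw [h13_res_f] at hb
    rcases hb.1 with h | h
    · exact hr.1 e n b ((h13_res_f _ _ _ _ _).2 ⟨h, hb.2⟩)
    · exact hr.2 e n b ((h13_res_f _ _ _ _ _).2 ⟨h, hb.2⟩)

theorem h13_mem_coR {e : Λ} {n : ℕ} {p : Cnd Λ} : p ∈ coR e n ↔ p.f e n = some true := by
  unfold coR
  rw [RO.mem_gen]
  constructor
  · intro h
    by_contra hcon
    obtain ⟨q, hq, hb⟩ := h13_ext p e n true hcon
    obtain ⟨r, hr, a, ha, hra⟩ := h q hq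
    have h1 := hr e n _ hb
    rw [hra e n true ha] at h1
    simp at h1
  · intro h q hq
    exact ⟨q, le_rfl, q, hq e n true h, le_rfl⟩

theorem coR_mem (e : Λ) (n : ℕ) : coR e n ∈ Sp ({e} : Set Λ) := by
  intro p hp
  rw [h13_mem_coR] at hp ⊢
  rw [h13_res_f]
  exact ⟨rfl, hp⟩

theorem h13_mem_compl_coR {e : Λ} {n : ℕ} {p : Cnd Λ} : p ∈ (coR e n)ᶜ ↔ p.f e n = some false := by
  rw [RO.mem_compl]
  constructor
  · intro h
    by_contra hcon
    obtain ⟨q, hq, hb⟩ := h13_ext p e n false hcon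
    exact h q hq (h13_mem_coR.2 hb)
  · intro h q hq hqe
    have h1 := hq e n false h
    rw [h13_mem_coR.1 hqe] at h1
    simp at h1

theorem h13_mem_cyl {e : Λ} {τ : List Bool} {p : Cnd Λ} :
    p ∈ cyl (coR e) τ ↔ p ≤ Cnd.wd e τ := by
  have h0 : p ∈ cyl (coR e) τ ↔ ∀ i, ∀ h : i < τ.length, p.f e i = some τ[i] := by
    unfold cyl
    rw [RO.mem_iInf]
    refine forall_congr' fun i => ?_
    rw [RO.mem_iInf]
    refine forall_congr' fun h => ?_
    rcases hb : τ[i] with _ | _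
    · simp [h13_mem_compl_coR]
    · simp [h13_mem_coR]
  rw [h0, Cnd.le_def]
  constructor
  · intro h e' n b hb
    rw [h13_wd_f] at hb
    obtain ⟨rfl, hb⟩ := hb
    obtain ⟨hn, hb⟩ := List.getElem?_eq_some_iff.1 hb
    rw [h n hn, hb]
  · intro h i hi
    exact h e i _ ((h13_wd_f _ _ _ _ _).2 ⟨rfl, List.getElem?_eq_getElem hi⟩)

theorem coR_ind {e : Λ} (he : e ∉ A) {b : RO (Cnd Λ)} (hb : b ∈ Sp A) (hb0 : b ≠ ⊥)
    (τ : List Bool) : b ⊓ cyl (coR e) τ ≠ ⊥ := by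
  obtain ⟨p, hp⟩ := RO.ne_bot_iff.1 hb0
  rw [RO.ne_bot_iff]
  refine ⟨Cnd.glue A p (Cnd.wd e τ), ?_⟩
  rw [RO.mem_inf, h13_mem_cyl]
  refine ⟨RO.mem_lower (h13_glue_le_res A p _) (hb p hp), ?_⟩
  intro e' n c hc
  have h := ((h13_wd_f e τ e' n c).1 hc).1
  subst h
  exact (h13_glue_f _ _ _ _ _ _).2 (Or.inr ⟨he, hc⟩)

theorem coR_cden (e : Λ) {x : RO (Cnd Λ)} (hx : x ∈ Sp (insert e A)) (hx0 : x ≠ ⊥) :
    ∃ b ∈ Sp A, ∃ τ : List Bool, b ⊓ cyl (coR e) τ ≠ ⊥ ∧ b ⊓ cyl (coR e) τ ≤ x := by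
  obtain ⟨q, hq⟩ := RO.ne_bot_iff.1 hx0
  -- a bound for the domain of `q` at the coordinate `e`
  obtain ⟨N, hN⟩ : ∃ N : ℕ, ∀ n, q.f e n ≠ none → n < N := by
    have hf : {n : ℕ | q.f e n ≠ none}.Finite := by
      refine (q.fin.preimage (f := fun n : ℕ => (e, n)) ?_).subset ?_
      · intro a _ b _ h
        exact (Prod.ext_iff.1 h).2
      · intro n hn
        exact hn
    obtain ⟨N, hN⟩ := hf.bddAbove
    exact ⟨N + 1, fun n hn => Nat.lt_succ_of_le (hN hn)⟩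
  let τ : List Bool := List.ofFn fun i : Fin N => (q.f e i).getD false
  -- the extended condition
  let q' : Cnd Λ := Cnd.glue {e} (Cnd.wd e τ) q
  have hq'q : q' ≤ q := by
    refine h13_glue_le ?_
    intro e' n b hb
    rw [h13_res_f] at hb
    obtain ⟨rfl, hb⟩ := hb
    rw [h13_wd_f]
    refine ⟨rfl, ?_⟩
    have hn : n < N := hN n (by rw [hb]; simp)
    rw [List.getElem?_eq_some_iff]
    refine ⟨by simpa [τ] using hn, ?_⟩
    simp [τ, hb]
  have hq'x : q' ∈ x := RO.mem_lower hq'q hq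
  have hq'w : q' ≤ Cnd.wd e τ := by
    intro e' n b hb
    have h := ((h13_wd_f e τ e' n b).1 hb).1
    exact (h13_glue_f _ _ _ _ _ _).2 (Or.inl ⟨h, hb⟩)
  refine ⟨RO.gen {Cnd.res A q'}, h13_gen_mem (h13_res_res A q'), τ, ?_, ?_⟩
  · rw [RO.ne_bot_iff]
    refine ⟨q', ?_⟩
    rw [RO.mem_inf, mem_gen_singleton, h13_mem_cyl]
    exact ⟨h13_le_res A q', hq'w⟩
  · rw [RO.le_def]
    intro r hr
    rw [RO.mem_inf, mem_gen_singleton, h13_mem_cyl] at hr
    refine RO.mem_lower (fun e' n b hb => ?_) (hx q' hq'x)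
    rw [h13_res_f] at hb
    obtain ⟨he', hb⟩ := hb
    rcases he' with rfl | he'
    · refine hr.2 e' n b ?_
      rcases (h13_glue_f _ _ _ _ _ _).1 hb with h | h
      · exact h.2
      · exact absurd (mem_singleton e') h.1
    · exact hr.1 e' n b ((h13_res_f _ _ _ _ _).2 ⟨he', hb⟩)

end CohA

end Pool.Agent.Helper95.CU
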