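import Pool.Agent.Helper95.CU.CohS

/-!
# The algebra for adding Cohen reals
-/

set_option autoImplicit false

namespace Pool.Agent.Helper95.CU

open Pool.Agent.Helper33.HM Cardinal Set

universe u

theorem exists_coh {κ : Cardinal.{u}} (hκ : κ.IsRegular) (h0 : ℵ₀ < κ) (hω : κ ^ ℵ₀ = κ) :
    ∃ (Λ B : Type u) (_ : CompleteBooleanAlgebra B), Nonempty (Coh κ Λ B) := by
  have _ := hκ
  let Λ := (Order.succ κ).ord.ToType
  refine ⟨Λ, RO (Cnd Λ), inferInstance, ⟨?_⟩⟩
  exact
    { S := Sp
      sub := isSub_Sp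
      mono := fun A A' h => Sp_mono h
      top := mem_Sp_univ
      emp := Sp_empty
      nt := by
        intro h
        have h1 : (Cnd.one : Cnd Λ) ∈ (⊤ : RO (Cnd Λ)) := RO.mem_top _
        rw [← h] at h1
        exact RO.not_mem_bot _ h1
      ccc := ccc_cnd Λ
      csupp := Sp_csupp
      dense := fun D hD => Sp_dense hD
      c := coR
      c_mem := coR_mem
      ind := fun A e he b hb hb0 τ => coR_ind he hb hb0 τ
      cden := fun A e x hx hx0 => coR_cden e hx hx0
      card_le := fun A hA => card_Sp h0.le hω A hA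
      card := by simp [Λ] }

end Pool.Agent.Helper95.CU
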