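import Pool.Agent.Helper95.CU.CohA
import Pool.Agent.Helper28.CU.CohC

/-!
# Project CU: countable supports and cardinality
-/

set_option autoImplicit false

namespace Pool.Agent.Helper95.CU

open Pool.Agent.Helper33.HM Cardinal Set

universe u

/-- Countable maximal antichains. -/
theorem h13_exists_max {Λ : Type u} (hc : CCC (RO (Cnd Λ))) (Q : Set (Cnd Λ)) :
    ∃ X ⊆ Q, X.Countable ∧ ∀ q ∈ Q, ∃ r ∈ X, ∃ t, t ≤ q ∧ t ≤ r := by
  obtain ⟨X, hX⟩ := zorn_subset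
    {X : Set (Cnd Λ) | X ⊆ Q ∧ ∀ r ∈ X, ∀ s ∈ X, r ≠ s → ∀ t, t ≤ r → t ≤ s → False} (by
      intro C hC hch
      refine ⟨⋃₀ C, ⟨?_, ?_⟩, fun s hs => subset_sUnion_of_mem hs⟩
      · exact sUnion_subset fun X hX => (hC hX).1
      · rintro r ⟨X, hX, hr⟩ s ⟨Y, hY, hs⟩ hrs
        rcases hch.total hX hY with h | h
        · exact (hC hY).2 r (h hr) s hs hrs
        · exact (hC hX).2 r hr s (h hs) hrs)
  refine ⟨X, hX.prop.1, ?_, ?_⟩
  · have hinj : InjOn (fun r : Cnd Λ => RO.gen {r}) X := by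
      intro r hr s hs h
      by_contra hrs
      have h1 : r ∈ RO.gen {s} := by
        change (RO.gen {r} = RO.gen {s}) at h
        rw [← h, mem_gen_singleton]
      exact hX.prop.2 r hr s hs hrs r le_rfl (mem_gen_singleton.1 h1)
    refine countable_of_injective_of_countable_image hinj (hc _ ?_ ?_)
    · rintro _ ⟨r, -, rfl⟩
      rw [RO.ne_bot_iff]
      exact ⟨r, mem_gen_singleton.2 le_rfl⟩
    · rintro _ ⟨r, hr, rfl⟩ _ ⟨s, hs, rfl⟩ hne
      have hrs : r ≠ s := fun h => hne (by rw [h])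
      change Disjoint (RO.gen {r}) (RO.gen {s})
      rw [disjoint_iff]
      by_contra h
      obtain ⟨t, ht⟩ := RO.ne_bot_iff.1 h
      rw [RO.mem_inf, mem_gen_singleton, mem_gen_singleton] at ht
      exact hX.prop.2 r hr s hs hrs t ht.1 ht.2
  · intro q hq
    by_contra hcon
    push Not at hcon
    have h1 : insert q X ⊆ Q ∧ ∀ r ∈ insert q X, ∀ s ∈ insert q X, r ≠ s → ∀ t, t ≤ r → t ≤ s →
        False := by
      refine ⟨insert_subset hq hX.prop.1, ?_⟩
      rintro r (rfl | hr) s (rfl | hs) hrs t htr hts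
      · exact hrs rfl
      · exact hcon s hs t htr hts
      · exact hcon r hr t hts htr
      · exact hX.prop.2 r hr s hs hrs t htr hts
    have h2 : q ∈ X := hX.le_of_ge h1 (subset_insert q X) (mem_insert q X)
    exact hcon q h2 q le_rfl le_rfl

theorem h13_csupp {Λ : Type u} (hc : CCC (RO (Cnd Λ))) (A : Set Λ) (b : RO (Cnd Λ))
    (hb : b ∈ Sp A) : ∃ D ⊆ A, D.Countable ∧ b ∈ Sp D := by
  have hbc : bᶜ ∈ Sp A := (isSub_Sp A).compl_mem _ hb
  obtain ⟨X, hXQ, hXc, hX⟩ := h13_exists_max hc {r | Cnd.res A r = r ∧ (r ∈ b ∨ r ∈ bᶜ)}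
  -- the support of `X`
  let D : Set Λ := ⋃ r ∈ X, (fun x : Λ × ℕ × Bool => x.1) '' h13_graph r
  have hDc : D.Countable := hXc.biUnion fun r _ => ((h13_graph_finite r).image _).countable
  have hDA : D ⊆ A := by
    intro e he
    simp only [D, mem_iUnion] at he
    obtain ⟨r, hr, x, hx, rfl⟩ := he
    exact (h13_graph_sub (hXQ hr).1 hx).1
  have hD : ∀ r ∈ X, ∀ e n c, r.f e n = some c → e ∈ D := by
    intro r hr e n c h
    simp only [D, mem_iUnion]
    exact ⟨r, hr, (e, n, c), h, rfl⟩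
  refine ⟨D, hDA, hDc, ?_⟩
  intro p hp
  by_contra hcon
  -- some extension of `res D p` is in the complement of `b`
  obtain ⟨q, hq, hqb⟩ : ∃ q ≤ Cnd.res D p, q ∈ bᶜ := by
    by_contra hno
    push Not at hno
    refine hcon (RO.mem_reg fun q hq => ?_)
    have h1 := hno q hq
    rw [RO.mem_compl] at h1
    push Not at h1
    exact h1
  obtain ⟨r, hr, t, ht, htr⟩ := hX (Cnd.res A q) ⟨h13_res_res A q, Or.inr (hbc q hqb)⟩
  have htb : t ∈ bᶜ := RO.mem_lower ht (hbc q hqb)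
  have hrb : r ∈ bᶜ := by
    rcases (hXQ hr).2 with h | h
    · exact absurd (RO.mem_lower htr h) (RO.mem_compl.1 htb t le_rfl)
    · exact h
  -- `t` is below `res D p` on `D`
  have h1 : Cnd.glue D t p ≤ p := by
    refine h13_glue_le ?_
    intro e n c h
    have h2 := (h13_res_f D p e n c).1 h
    exact ht e n c ((h13_res_f A q e n c).2 ⟨hDA h2.1, hq e n c h⟩)
  have h2 : Cnd.glue D t p ≤ r := by
    intro e n c h
    exact (h13_glue_f _ _ _ _ _ _).2 (Or.inl ⟨hD r hr e n c h, htr e n c h⟩)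
  exact RO.mem_compl.1 hrb _ h2 (RO.mem_lower h1 hp)

theorem Sp_csupp {Λ : Type u} (A : Set Λ) (b : RO (Cnd Λ)) (hb : b ∈ Sp A) :
    ∃ D ⊆ A, D.Countable ∧ b ∈ Sp D := h13_csupp (ccc_cnd Λ) A b hb

theorem h13_card_cnd {κ : Cardinal.{u}} (h0 : ℵ₀ ≤ κ) {Λ : Type u} (A : Set Λ)
    (hA : #A ≤ κ) : #{p : Cnd Λ | Cnd.res A p = p} ≤ κ := by
  have hB : #(A × (ℕ × Bool)) ≤ κ := by
    rw [Cardinal.mk_prod, Cardinal.mk_eq_aleph0 (ℕ × Bool), Cardinal.lift_aleph0,
      Cardinal.lift_uzero]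
    calc #A * ℵ₀ ≤ κ * κ := mul_le_mul' hA h0
      _ = κ := Cardinal.mul_eq_self h0
  -- the graph as a list
  have hfin : ∀ p : Cnd Λ, ((fun x : A × (ℕ × Bool) => ((x.1 : Λ), x.2)) ⁻¹' h13_graph p).Finite :=
    fun p => (h13_graph_finite p).preimage (by
      rintro ⟨a, x⟩ - ⟨a', x'⟩ - h
      rw [Prod.ext_iff] at h
      exact Prod.ext (Subtype.ext h.1) h.2)
  let F : {p : Cnd Λ | Cnd.res A p = p} → List (A × (ℕ × Bool)) :=
    fun p => (hfin p.1).toFinset.toList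
  have hF : Function.Injective F := by
    intro p q h
    have h1 : ∀ x : A × (ℕ × Bool), ((x.1 : Λ), x.2) ∈ h13_graph p.1 ↔
        ((x.1 : Λ), x.2) ∈ h13_graph q.1 := by
      intro x
      have h2 : x ∈ F p ↔ x ∈ F q := by rw [h]
      simpa only [F, Finset.mem_toList, Set.Finite.mem_toFinset, mem_preimage] using h2
    apply Subtype.ext
    apply h13_graph_inj
    ext ⟨e, x⟩
    constructor
    · intro hx
      exact (h1 (⟨e, (h13_graph_sub p.2 hx).1⟩, x)).1 hx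
    · intro hx
      exact (h1 (⟨e, (h13_graph_sub q.2 hx).1⟩, x)).2 hx
  exact (Cardinal.mk_le_of_injective hF).trans ((Cardinal.mk_list_le_max _).trans (max_le h0 hB))

/-- Every element is generated by countably many conditions with domain in its support. -/
theorem h13_gen_countable {Λ : Type u} (hc : CCC (RO (Cnd Λ))) {A : Set Λ} {U : RO (Cnd Λ)}
    (hU : U ∈ Sp A) : ∃ X ⊆ {p : Cnd Λ | Cnd.res A p = p}, X.Countable ∧ U = RO.gen X := by
  obtain ⟨X, hXQ, hXc, hX⟩ := h13_exists_max hc {r | Cnd.res A r = r ∧ r ∈ U}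
  refine ⟨X, fun r hr => (hXQ hr).1, hXc, RO.ext' fun p => ?_⟩
  rw [RO.mem_gen]
  constructor
  · intro hp q hq
    obtain ⟨r, hr, t, ht, htr⟩ := hX (Cnd.res A q) ⟨h13_res_res A q, hU q (RO.mem_lower hq hp)⟩
    refine ⟨Cnd.glue A t q, h13_glue_le ht, r, hr, ?_⟩
    intro e n c h
    have h1 : e ∈ A := by
      have h2 := h
      rw [← (hXQ hr).1, h13_res_f] at h2
      exact h2.1
    exact (h13_glue_f _ _ _ _ _ _).2 (Or.inl ⟨h1, htr e n c h⟩)
  · intro h
    refine RO.mem_reg fun q hq => ?_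
    obtain ⟨r, hr, a, ha, hra⟩ := h q hq
    exact ⟨r, hr, RO.mem_lower hra (hXQ ha).2⟩

theorem h13_card_Sp {κ : Cardinal.{u}} (h0 : ℵ₀ ≤ κ) (hω : κ ^ ℵ₀ = κ) {Λ : Type u}
    (hc : CCC (RO (Cnd Λ))) (A : Set Λ) (hA : #A ≤ κ) : #(Sp A) ≤ κ := by
  let F : (ℕ → Option {p : Cnd Λ | Cnd.res A p = p}) → RO (Cnd Λ) :=
    fun s => RO.gen {r | ∃ n, ∃ x, s n = some x ∧ x.1 = r}
  have hsub : Sp A ⊆ range F := by
    intro U hU
    obtain ⟨X, hXQ, hXc, rfl⟩ := h13_gen_countable hc hU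
    -- enumerate the set `X`
    obtain ⟨s, hs⟩ : ∃ s : ℕ → Option {p : Cnd Λ | Cnd.res A p = p},
        ∀ r, r ∈ X ↔ ∃ n, ∃ x, s n = some x ∧ x.1 = r := by
      rcases X.eq_empty_or_nonempty with rfl | hne
      · exact ⟨fun _ => none, fun r => by simp⟩
      · obtain ⟨f, hf⟩ := hXc.exists_eq_range hne
        have hfX : ∀ n, f n ∈ X := fun n => by
          rw [hf]
          exact ⟨n, rfl⟩
        refine ⟨fun n => some ⟨f n, hXQ (hfX n)⟩, fun r => ?_⟩
        constructor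
        · intro hr
          rw [hf] at hr
          obtain ⟨n, rfl⟩ := hr
          exact ⟨n, _, rfl, rfl⟩
        · rintro ⟨n, x, h, rfl⟩
          rw [Option.some.injEq] at h
          rw [← h]
          exact hfX n
    refine ⟨s, ?_⟩
    change RO.gen {r | ∃ n, ∃ x, s n = some x ∧ x.1 = r} = _
    congr 1
    ext r
    exact (hs r).symm
  have h1 : #(Option {p : Cnd Λ | Cnd.res A p = p}) ≤ κ := by
    rw [Cardinal.mk_option]
    exact Cardinal.add_le_of_le h0 (h13_card_cnd h0 A hA) (Cardinal.one_le_aleph0.trans h0)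
  calc #(Sp A) ≤ #(range F) := Cardinal.mk_le_mk_of_subset hsub
    _ ≤ #(ℕ → Option {p : Cnd Λ | Cnd.res A p = p}) := Cardinal.mk_range_le
    _ = #(Option {p : Cnd Λ | Cnd.res A p = p}) ^ ℵ₀ := by
        rw [Cardinal.mk_pi, Cardinal.prod_const, Cardinal.mk_nat, Cardinal.lift_aleph0,
          Cardinal.lift_uzero]
    _ ≤ κ ^ ℵ₀ := Cardinal.power_le_power_right h1
    _ = κ := hω

theorem card_Sp {κ : Cardinal.{u}} (h0 : ℵ₀ ≤ κ) (hω : κ ^ ℵ₀ = κ) {Λ : Type u} (A : Set Λ)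
    (hA : #A ≤ κ) : #(Sp A) ≤ κ := h13_card_Sp h0 hω (ccc_cnd Λ) A hA

end Pool.Agent.Helper95.CU
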