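import Pool.Agent.Helper95.CU.Fil

/-!
# Completing a cut with a fresh Cohen real
-/

set_option autoImplicit false

namespace Pool.Agent.Helper95.CU

open Pool.Agent.Helper33.HM Cardinal Set

universe u

section Cyl

variable {B : Type u} [CompleteBooleanAlgebra B]

theorem cyl_append_le (x : ℕ → B) (σ ρ : List Bool) : cyl x (σ ++ ρ) ≤ cyl x σ := by
  unfold cyl
  refine le_iInf fun i => le_iInf fun h => ?_
  refine (iInf_le _ i).trans ((iInf_le _ (by simp; omega)).trans ?_)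
  rw [List.getElem_append_left h]

theorem cyl_disj (x : ℕ → B) {σ τ : List Bool} {i : ℕ} (h1 : i < σ.length) (h2 : i < τ.length)
    (h : σ[i] ≠ τ[i]) : cyl x σ ⊓ cyl x τ = ⊥ := by
  have e1 : cyl x σ ≤ if σ[i] then x i else (x i)ᶜ := (iInf_le _ i).trans (iInf_le _ h1)
  have e2 : cyl x τ ≤ if τ[i] then x i else (x i)ᶜ := (iInf_le _ i).trans (iInf_le _ h2)
  refine le_bot_iff.1 ((inf_le_inf e1 e2).trans ?_)
  cases h3 : σ[i] <;> cases h4 : τ[i] <;> simp_all

/-- A word which is not an extension of a shorter word is incompatible with it. -/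
theorem cyl_disj' (x : ℕ → B) {σ τ : List Bool} (hl : σ.length ≤ τ.length) (h : ¬ σ <+: τ) :
    cyl x σ ⊓ cyl x τ = ⊥ := by
  have : ∃ i, ∃ (h1 : i < σ.length) (h2 : i < τ.length), σ[i] ≠ τ[i] := by
    by_contra hcon
    push Not at hcon
    apply h
    rw [List.prefix_iff_eq_take]
    apply List.ext_getElem
    · simp [hl]
    · intro i h1 h2
      rw [List.getElem_take]
      exact hcon i h1 (lt_of_lt_of_le h1 hl)
  obtain ⟨i, h1, h2, h3⟩ := this
  exact cyl_disj x h1 h2 h3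

theorem cyl_mem {S : Set B} (hS : IsSub S) {x : ℕ → B} (hx : ∀ n, x n ∈ S) (σ : List Bool) :
    cyl x σ ∈ S := by
  refine hS.iInf_mem fun i => hS.iInf_mem fun h => ?_
  split
  · exact hx i
  · exact hS.compl_mem _ (hx i)

end Cyl

/-- The path coded by a word: the bits are read in pairs; if the first bit is true then the second
one is put in front of the path. -/
def pth : List Bool → List Bool → List Bool
  | acc, x :: y :: t => pth (if x then y :: acc else acc) t
  | acc, _ => acc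

theorem pth_append (acc τ ρ : List Bool) (m : ℕ) (h : τ.length = 2 * m) :
    pth acc (τ ++ ρ) = pth (pth acc τ) ρ := by
  induction m generalizing acc τ with
  | zero =>
    have : τ = [] := List.length_eq_zero_iff.1 (by simpa using h)
    subst this
    simp [pth]
  | succ m ih =>
    match τ, h with
    | x :: y :: t, h =>
      simp only [List.cons_append, pth]
      exact ih _ _ (by simp at h; omega)
    | [_], h => simp at h; omega
    | [], h => simp at h

theorem pth_false (acc : List Bool) (k : ℕ) : pth acc (List.replicate (2 * k) false) = acc := by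
  induction k generalizing acc with
  | zero => simp [pth]
  | succ k ih =>
    have : List.replicate (2 * (k + 1)) false = false :: false :: List.replicate (2 * k) false := by
      rw [show 2 * (k + 1) = 2 * k + 1 + 1 by ring, List.replicate_succ, List.replicate_succ]
    rw [this]
    simp only [pth]
    exact ih acc

section Mix

variable {B : Type u} [CompleteBooleanAlgebra B]

/-- Countable partitions subordinate to a family of values. -/
theorem exists_mix (hc : CCC B) {S : Set B} (hS : IsSub S) {ι : Type*} [Nonempty ι] (v : ι → B)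
    (hv : ∀ i, v i ∈ S) :
    ∃ (a : ℕ → B) (z : ℕ → ι), (∀ n, a n ∈ S) ∧ (∀ n, a n ≤ v (z n)) ∧
      (∀ m n, m ≠ n → a m ⊓ a n = ⊥) ∧ ⨆ n, a n = ⨆ i, v i := by
  have he : (⨆ i, v i) ∈ S := hS.iSup_mem hv
  obtain ⟨a, h1, h2, h3, h4, h5⟩ := exists_partition hc hS
    (fun c => c ≤ (⨆ i, v i)ᶜ ∨ ∃ i, c ≤ v i) (by
      intro b hb hb0
      by_cases h : b ⊓ (⨆ i, v i) = ⊥
      · exact ⟨b, hb, hb0, le_rfl, Or.inl (le_compl_iff_disjoint_right.2 (disjoint_iff.2 h))⟩
      · rw [inf_iSup_eq] at h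
        have : ∃ i, b ⊓ v i ≠ ⊥ := by
          by_contra hcon
          push Not at hcon
          exact h (by simp [hcon])
        obtain ⟨i, hi⟩ := this
        exact ⟨b ⊓ v i, hS.inf_mem hb (hv i), hi, inf_le_left, Or.inr ⟨i, inf_le_right⟩⟩)
    (Or.inl bot_le) he
  have h6 : ∀ n, ∃ i, a n ≤ v i := by
    intro n
    rcases h2 n with h | h
    · refine ⟨Classical.arbitrary ι, ?_⟩
      have : a n ≤ ⊥ := by
        rw [← inf_compl_eq_bot (a := ⨆ i, v i)]
        exact le_inf (h3 n) h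
      exact this.trans bot_le
    · exact h
  choose z hz using h6
  exact ⟨a, z, h1, hz, h4, h5⟩

end Mix

section Comp

variable {κ : Cardinal.{u}} {Λ B : Type u} [CompleteBooleanAlgebra B] (K : Coh κ Λ B)

/-- The value of: `Z` is positive. -/
def posit (Φ : (ℕ → B) → B) (Z : ℕ → B) : B := (Φ Zᶜ)ᶜ

/-- The value of: both parts are positive. -/
def splt (Φ : (ℕ → B) → B) (Z E : ℕ → B) : B := posit Φ (Z ⊓ E) ⊓ posit Φ (Z ⊓ Eᶜ)

/-- The mixture of two names. -/
def mixY (a : ℕ → B) (Z : ℕ → ℕ → B) : ℕ → B := fun n => ⨆ j, a j ⊓ Z j n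

theorem le_mixY {a : ℕ → B} (Z : ℕ → ℕ → B) (j n : ℕ) : a j ⊓ Z j n ≤ mixY a Z n :=
  le_iSup (fun j => a j ⊓ Z j n) j

theorem mixY_le {a : ℕ → B} (ha : ∀ m n, m ≠ n → a m ⊓ a n = ⊥) (Z : ℕ → ℕ → B) (j n : ℕ) :
    a j ⊓ mixY a Z n ≤ Z j n := by
  unfold mixY
  rw [inf_iSup_eq]
  refine iSup_le fun i => ?_
  by_cases h : j = i
  · subst h
    exact inf_le_right.trans inf_le_right
  · rw [← inf_assoc, ha j i h, bot_inf_eq]
    exact bot_le

variable {K}

theorem BFil.posit_le {Φ : (ℕ → B) → B} (hΦ : BFil Φ) {b : B} {X Y : ℕ → B}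
    (h : ∀ n, b ⊓ X n ≤ Y n) : b ⊓ posit Φ X ≤ posit Φ Y := by
  have h1 : b ⊓ Φ Yᶜ ≤ Φ Xᶜ := by
    apply hΦ.lin0
    intro n
    rw [Pi.compl_apply, Pi.compl_apply, le_compl_iff_disjoint_right, disjoint_iff]
    rw [inf_right_comm]
    refine le_bot_iff.1 ((inf_le_inf_right _ (h n)).trans ?_)
    rw [inf_compl_eq_bot]
  unfold posit
  rw [le_compl_iff_disjoint_right, disjoint_iff, inf_right_comm]
  refine le_bot_iff.1 ((inf_le_inf_right _ h1).trans ?_)
  rw [inf_compl_eq_bot]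

theorem posit_mem {S : Set B} (hS : IsSub S) {Φ : (ℕ → B) → B}
    (hm : ∀ Z, IsNm S Z → Φ Z ∈ S) {Z : ℕ → B} (hZ : IsNm S Z) : posit Φ Z ∈ S :=
  hS.compl_mem _ (hm _ fun n => hS.compl_mem _ (hZ n))

theorem splt_mem {S : Set B} (hS : IsSub S) {Φ : (ℕ → B) → B}
    (hm : ∀ Z, IsNm S Z → Φ Z ∈ S) {Z E : ℕ → B} (hZ : IsNm S Z) (hE : IsNm S E) :
    splt Φ Z E ∈ S :=
  hS.inf_mem (posit_mem hS hm fun n => hS.inf_mem (hZ n) (hE n))
    (posit_mem hS hm fun n => hS.inf_mem (hZ n) (hS.compl_mem _ (hE n)))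

theorem mixY_mem {S : Set B} (hS : IsSub S) {a : ℕ → B} {Z : ℕ → ℕ → B} (ha : ∀ j, a j ∈ S)
    (hZ : ∀ j, IsNm S (Z j)) : IsNm S (mixY a Z) := fun n =>
  hS.iSup_mem fun j => hS.inf_mem (ha j) (hZ j n)

/-- The tree of the names, for a choice `H` of splitting sets. -/
def wt (H : (ℕ → B) → (ℕ → B)) : List Bool → ℕ → B
  | [] => ⊤
  | b :: σ => wt H σ ⊓ (if b then H (wt H σ) else (H (wt H σ))ᶜ)

theorem wt_cons_le (H : (ℕ → B) → (ℕ → B)) (b : Bool) (σ : List Bool) (n : ℕ) :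
    wt H (b :: σ) n ≤ wt H σ n := by
  rw [wt]
  exact inf_le_left

theorem wt_pth_le (H : (ℕ → B) → (ℕ → B)) (ρ acc : List Bool) (n : ℕ) :
    wt H (pth acc ρ) n ≤ wt H acc n := by
  match ρ with
  | x :: y :: t =>
    simp only [pth]
    refine (wt_pth_le H t _ n).trans ?_
    split
    · exact wt_cons_le H y acc n
    · exact le_rfl
  | [_] => simp [pth]
  | [] => simp [pth]

/-- Elements below which a cylinder of the Cohen real lies. -/
theorem Coh.ind_le (K : Coh κ Λ B) {C : Set Λ} {e : Λ} (he : e ∉ C) {b y : B} (hb : b ∈ K.S C)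
    (hy : y ∈ K.S C) {τ : List Bool} (h : b ⊓ cyl (K.c e) τ ≤ y) : b ≤ y := by
  by_contra hcon
  have h1 : b ⊓ yᶜ ≠ ⊥ := fun h2 => hcon (by
    rwa [← disjoint_iff, disjoint_compl_right_iff] at h2)
  refine K.ind C e he _ ((K.sub C).inf_mem hb ((K.sub C).compl_mem _ hy)) h1 τ ?_
  rw [inf_right_comm]
  refine le_bot_iff.1 ((inf_le_inf_right _ h).trans ?_)
  rw [inf_compl_eq_bot]

/-- The words in `cden` may be taken of even length. -/
theorem Coh.cden2 (K : Coh κ Λ B) {C : Set Λ} {e : Λ} {x : B}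
    (hx : x ∈ K.S (insert e C)) (hx0 : x ≠ ⊥) :
    ∃ b ∈ K.S C, b ≠ ⊥ ∧ ∃ (τ : List Bool) (m : ℕ), τ.length = 2 * m ∧
      b ⊓ cyl (K.c e) τ ≤ x := by
  obtain ⟨b, hb, τ, h1, h2⟩ := K.cden C e x hx hx0
  have hb0 : b ≠ ⊥ := by
    rintro rfl
    simp at h1
  refine ⟨b, hb, hb0, ?_⟩
  rcases Nat.even_or_odd' τ.length with ⟨m, hm | hm⟩
  · exact ⟨τ, m, hm, h2⟩
  · refine ⟨τ ++ [false], m + 1, by simp; omega, ?_⟩
    exact (inf_le_inf_left _ (cyl_append_le _ _ _)).trans h2

theorem completion {C : Set Λ} {e : Λ} (he : e ∉ C) {Φ : (ℕ → B) → B} (hΦ : BFil Φ)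
    (hg : GenBy (K.S C) Φ) (hm : ∀ Z, IsNm (K.S C) Z → Φ Z ∈ K.S C) {N : Set (ℕ → ℕ → B)}
    (hN : N ⊆ K.Fn C) (ht : ∀ a ∈ N, ∀ a' ∈ N, Φ (leN a a') ⊔ Φ (leN a' a) = ⊤)
    {f : ℕ → ℕ → B} (hf : f ∈ K.Fn C) :
    ∃ Y : ℕ → B, IsNm (K.S (insert e C)) Y ∧ Φ Yᶜ = ⊥ ∧
      ∀ a ∈ N, adj Φ Y (leN a f) ⊔ adj Φ Y (leN a f)ᶜ = ⊤ := by
  classical
  rcases N.eq_empty_or_nonempty with hN0 | hN0
  · subst hN0
    refine ⟨⊤, fun n => (K.sub _).top_mem, ?_, fun a ha => ha.elim⟩
    rw [compl_top]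
    exact hΦ.bot
  have hNe : Nonempty N := hN0.to_subtype
  have hS : IsSub (K.S C) := K.sub C
  have hE : ∀ a ∈ N, IsNm (K.S C) (leN a f) := fun a ha => isNm_leN hS (hN ha).mem hf.mem
  -- the first case
  let v1 : {Z : ℕ → B // IsNm (K.S C) Z} → B := fun Z =>
    posit Φ Z.1 ⊓ ⨅ a : N, (splt Φ Z.1 (leN a.1 f))ᶜ
  have hv1 : ∀ Z, v1 Z ∈ K.S C := fun Z => hS.inf_mem (posit_mem hS hm Z.2)
    (hS.iInf_mem fun a => hS.compl_mem _ (splt_mem hS hm Z.2 (hE a.1 a.2)))
  have : Nonempty {Z : ℕ → B // IsNm (K.S C) Z} := ⟨⟨⊤, fun n => hS.top_mem⟩⟩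
  obtain ⟨b, Zs, hb1, hb2, hb3, hb4⟩ := exists_mix K.ccc hS v1 hv1
  let b1 : B := ⨆ Z, v1 Z
  have hb1S : b1 ∈ K.S C := hS.iSup_mem hv1
  have hbj : ∀ j, b j ≤ b1 := fun j => (le_iSup b j).trans hb4.le
  -- the second case
  have h2 : ∀ W : ℕ → B, IsNm (K.S C) W → ∃ (a : ℕ → B) (z : ℕ → N), (∀ n, a n ∈ K.S C) ∧
      (∀ n, a n ≤ splt Φ W (leN (z n).1 f)) ∧ (∀ m n, m ≠ n → a m ⊓ a n = ⊥) ∧
      ⨆ n, a n = ⨆ i : N, splt Φ W (leN i.1 f) := fun W hW =>
    exists_mix K.ccc hS (fun i : N => splt Φ W (leN i.1 f))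
      (fun i => splt_mem hS hm hW (hE i.1 i.2))
  choose! aa zz haa1 haa2 haa3 haa4 using h2
  let H : (ℕ → B) → (ℕ → B) := fun W => mixY (aa W) (fun j => leN (zz W j).1 f)
  have hHm : ∀ W, IsNm (K.S C) W → IsNm (K.S C) (H W) := fun W hW =>
    mixY_mem hS (haa1 W hW) (fun j => hE _ (zz W j).2)
  have hW1 : ∀ σ, IsNm (K.S C) (wt H σ) := by
    intro σ
    induction σ with
    | nil => exact fun n => hS.top_mem
    | cons b σ ih =>
      intro n
      rw [wt]
      refine hS.inf_mem (ih n) ?_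
      cases b
      · exact hS.compl_mem _ (hHm _ ih n)
      · exact hHm _ ih n
  have hcov : ∀ W, IsNm (K.S C) W → b1ᶜ ≤ posit Φ W → b1ᶜ ≤ ⨆ j, aa W j := by
    intro W hW hp
    rw [haa4 W hW]
    have h1 : posit Φ W ⊓ ⨅ a : N, (splt Φ W (leN a.1 f))ᶜ ≤ b1 := le_iSup v1 ⟨W, hW⟩
    have h3 : (⨅ a : N, (splt Φ W (leN a.1 f))ᶜ) = (⨆ a : N, splt Φ W (leN a.1 f))ᶜ :=
      (compl_iSup).symm
    rw [h3] at h1
    by_contra hcon
    have h4 : b1ᶜ ⊓ (⨆ a : N, splt Φ W (leN a.1 f))ᶜ ≠ ⊥ := fun h5 => hcon (by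
      rwa [← disjoint_iff, disjoint_compl_right_iff] at h5)
    apply h4
    have h5 : b1ᶜ ⊓ (⨆ a : N, splt Φ W (leN a.1 f))ᶜ ≤ b1 := (inf_le_inf_right _ hp).trans h1
    exact le_bot_iff.1 ((le_inf h5 inf_le_left).trans inf_compl_eq_bot.le)
  have hW2 : ∀ σ, b1ᶜ ≤ posit Φ (wt H σ) := by
    intro σ
    induction σ with
    | nil =>
      have : posit Φ (wt H []) = ⊤ := by
        rw [wt, posit, compl_top, hΦ.bot, compl_bot]
      rw [this]
      exact le_top
    | cons x σ ih =>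
      have h1 := hcov _ (hW1 σ) ih
      have h3 : ∀ j, aa (wt H σ) j ≤ posit Φ (wt H (x :: σ)) := by
        intro j
        have h4 := haa2 _ (hW1 σ) j
        have h5 := haa3 _ (hW1 σ)
        rw [wt]
        cases x
        · have h6 := hΦ.posit_le (b := aa (wt H σ) j)
            (X := wt H σ ⊓ (leN (zz (wt H σ) j).1 f)ᶜ)
            (Y := wt H σ ⊓ (H (wt H σ))ᶜ) (by
              intro n
              simp only [Pi.inf_apply, Pi.compl_apply]
              refine le_inf (inf_le_right.trans inf_le_left) ?_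
              rw [le_compl_iff_disjoint_right, disjoint_iff]
              have h7 := mixY_le h5 (fun j => leN (zz (wt H σ) j).1 f) j n
              refine le_bot_iff.1 ?_
              rw [← inf_compl_eq_bot (a := leN (zz (wt H σ) j).1 f n)]
              refine le_inf ?_ ?_
              · refine le_trans ?_ h7
                exact le_inf (inf_le_left.trans inf_le_left) inf_le_right
              · exact inf_le_left.trans (inf_le_right.trans inf_le_right))
          exact (le_inf le_rfl (h4.trans inf_le_right)).trans h6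
        · have h6 := hΦ.posit_le (b := aa (wt H σ) j)
            (X := wt H σ ⊓ leN (zz (wt H σ) j).1 f)
            (Y := wt H σ ⊓ H (wt H σ)) (by
              intro n
              simp only [Pi.inf_apply]
              refine le_inf (inf_le_right.trans inf_le_left) ?_
              refine le_trans ?_ (le_mixY (fun j => leN (zz (wt H σ) j).1 f) j n)
              exact le_inf inf_le_left (inf_le_right.trans inf_le_right))
          exact (le_inf le_rfl (h4.trans inf_le_left)).trans h6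
      exact h1.trans (iSup_le h3)
  -- the name
  let c : ℕ → B := K.c e
  let Y2 : ℕ → B := fun n => ⨆ τ : List Bool, ⨆ _ : τ.length = 2 * n,
    cyl c τ ⊓ wt H (pth [] τ) n
  let Y : ℕ → B := fun n => mixY b (fun j => (Zs j).1) n ⊔ (b1ᶜ ⊓ Y2 n)
  have hYmix : ∀ n, mixY b (fun j => (Zs j).1) n ≤ b1 := fun n =>
    iSup_le fun j => inf_le_left.trans (hbj j)
  have hY1 : ∀ j n, b j ⊓ Y n ≤ (Zs j).1 n := by
    intro j n
    change b j ⊓ (mixY b (fun j => (Zs j).1) n ⊔ (b1ᶜ ⊓ Y2 n)) ≤ _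
    rw [inf_sup_left]
    refine sup_le (mixY_le hb3 _ j n) ?_
    rw [← inf_assoc]
    have : b j ⊓ b1ᶜ = ⊥ := by
      refine le_bot_iff.1 ((inf_le_inf_right _ (hbj j)).trans ?_)
      rw [inf_compl_eq_bot]
    rw [this, bot_inf_eq]
    exact bot_le
  have hY1' : ∀ j n, b j ⊓ (Zs j).1 n ≤ Y n := fun j n =>
    (le_mixY (fun j => (Zs j).1) j n).trans le_sup_left
  have hY2 : ∀ (τ : List Bool) (m : ℕ), τ.length = 2 * m → ∀ n, m ≤ n →
      b1ᶜ ⊓ cyl c τ ⊓ Y n ≤ wt H (pth [] τ) n := by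
    intro τ m hτ n hn
    change b1ᶜ ⊓ cyl c τ ⊓ (mixY b (fun j => (Zs j).1) n ⊔ (b1ᶜ ⊓ Y2 n)) ≤ _
    rw [inf_sup_left]
    refine sup_le ?_ ?_
    · have : b1ᶜ ⊓ cyl c τ ⊓ mixY b (fun j => (Zs j).1) n ≤ b1 ⊓ b1ᶜ :=
        le_inf (inf_le_right.trans (hYmix n)) (inf_le_left.trans inf_le_left)
      rw [inf_compl_eq_bot] at this
      exact this.trans bot_le
    · have : b1ᶜ ⊓ cyl c τ ⊓ (b1ᶜ ⊓ Y2 n) ≤ cyl c τ ⊓ Y2 n :=
        inf_le_inf inf_le_right inf_le_right
      refine this.trans ?_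
      change cyl c τ ⊓ (⨆ τ : List Bool, ⨆ _ : τ.length = 2 * n,
        cyl c τ ⊓ wt H (pth [] τ) n) ≤ _
      rw [inf_iSup_eq]
      refine iSup_le fun τ' => ?_
      rw [inf_iSup_eq]
      refine iSup_le fun hτ' => ?_
      by_cases hp : τ <+: τ'
      · obtain ⟨ρ, rfl⟩ := hp
        rw [pth_append [] τ ρ m hτ]
        exact (inf_le_right.trans inf_le_right).trans (wt_pth_le H ρ _ n)
      · rw [← inf_assoc, cyl_disj' c (by omega) hp, bot_inf_eq]
        exact bot_le
  have hY3 : ∀ (τ : List Bool) (n : ℕ), τ.length = 2 * n →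
      b1ᶜ ⊓ cyl c τ ⊓ wt H (pth [] τ) n ≤ Y n := by
    intro τ n hτ
    refine le_trans ?_ le_sup_right
    rw [inf_assoc]
    refine inf_le_inf_left _ ?_
    exact le_iSup₂_of_le τ hτ le_rfl
  have hsub : K.S C ⊆ K.S (insert e C) := K.mono _ _ (subset_insert e C)
  have hS' : IsSub (K.S (insert e C)) := K.sub _
  have hcm : ∀ n, c n ∈ K.S (insert e C) := fun n =>
    K.mono {e} _ (singleton_subset_iff.2 (mem_insert e C)) (K.c_mem e n)
  have hYm : IsNm (K.S (insert e C)) Y := by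
    intro n
    refine hS'.sup_mem (hsub (mixY_mem hS hb1 (fun j => (Zs j).2) n)) ?_
    refine hS'.inf_mem (hS'.compl_mem _ (hsub hb1S)) ?_
    refine hS'.iSup_mem fun τ => hS'.iSup_mem fun _ => ?_
    exact hS'.inf_mem (cyl_mem hS' hcm τ) (hsub (hW1 _ n))
  have hΦm : ∀ Z, IsNm (K.S (insert e C)) Z → Φ Z ∈ K.S (insert e C) :=
    hg.mem hΦ hsub hS' hm
  refine ⟨Y, hYm, ?_, ?_⟩
  · -- positivity
    refine le_bot_iff.1 ((hg Yᶜ).trans (iSup_le fun Z => iSup_le fun hZ => ?_))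
    set x : B := Φ Z ⊓ ⨅ n, (Z n ⇨ Yᶜ n) with hx
    have hxY : x ≤ Φ Yᶜ := by
      rw [hx, inf_comm]
      apply hΦ.lin0
      intro n
      refine (inf_le_inf_right _ (iInf_le _ n)).trans ?_
      rw [himp_inf_self]
      exact inf_le_left
    have hx1 : ∀ j, x ⊓ b j = ⊥ := by
      intro j
      have h1 : b j ⊓ Φ Yᶜ ≤ Φ ((Zs j).1)ᶜ := by
        apply hΦ.lin0
        intro n
        rw [Pi.compl_apply, Pi.compl_apply, le_compl_iff_disjoint_right, disjoint_iff,
          inf_right_comm]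
        refine le_bot_iff.1 ((inf_le_inf_right _ (hY1' j n)).trans ?_)
        rw [inf_compl_eq_bot]
      have h3 : b j ≤ (Φ ((Zs j).1)ᶜ)ᶜ := (hb2 j).trans inf_le_left
      refine le_bot_iff.1 ?_
      rw [← inf_compl_eq_bot (a := Φ ((Zs j).1)ᶜ)]
      exact le_inf ((le_inf inf_le_right (inf_le_left.trans hxY)).trans h1)
        (inf_le_right.trans h3)
    have hx2 : x ⊓ b1 = ⊥ := by
      change x ⊓ (⨆ Z, v1 Z) = ⊥
      rw [← hb4, inf_iSup_eq]
      simp [hx1]
    have hx3 : x ⊓ b1ᶜ = ⊥ := by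
      by_contra hne
      have hxm : x ⊓ b1ᶜ ∈ K.S (insert e C) := by
        refine hS'.inf_mem (hS'.inf_mem (hsub (hm Z hZ)) (hS'.iInf_mem fun n => ?_))
          (hS'.compl_mem _ (hsub hb1S))
        exact hS'.himp_mem (hsub (hZ n)) (hS'.compl_mem _ (hYm n))
      obtain ⟨b0, hb0S, hb00, τ, m, hτ, hle⟩ := K.cden2 hxm hne
      have h1 : b0 ≤ Φ Z := K.ind_le he hb0S (hm Z hZ)
        (hle.trans (inf_le_left.trans inf_le_left))
      have h3 : b0 ≤ b1ᶜ := K.ind_le he hb0S (hS.compl_mem _ hb1S) (hle.trans inf_le_right)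
      set W := wt H (pth [] τ) with hWdef
      have h4 : b0 ≤ (Φ Wᶜ)ᶜ := h3.trans (hW2 _)
      have h5 : ∃ n, m ≤ n ∧ b0 ⊓ (Z n ⊓ W n) ≠ ⊥ := by
        by_contra hcon
        push Not at hcon
        have h6 : b0 ⊓ Φ Z ≤ Φ Wᶜ := by
          apply hΦ.lin _ _ _ m
          intro n hn
          rw [Pi.compl_apply, le_compl_iff_disjoint_right, disjoint_iff, inf_assoc]
          exact hcon n hn
        apply hb00
        refine le_bot_iff.1 ?_
        rw [← inf_compl_eq_bot (a := Φ Wᶜ)]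
        exact le_inf ((le_inf le_rfl h1).trans h6) h4
      obtain ⟨n, hn, h6⟩ := h5
      have h7 : b0 ⊓ (Z n ⊓ W n) ∈ K.S C := hS.inf_mem hb0S (hS.inf_mem (hZ n) (hW1 _ n))
      set τ' := τ ++ List.replicate (2 * (n - m)) false with hτ'
      have hl : τ'.length = 2 * n := by
        rw [hτ', List.length_append, List.length_replicate, hτ]
        omega
      have hp : pth [] τ' = pth [] τ := by
        rw [hτ', pth_append [] τ _ m hτ, pth_false]
      have h8 := K.ind C e he _ h7 h6 τ'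
      apply h8
      refine le_bot_iff.1 ?_
      rw [← inf_compl_eq_bot (a := Y n)]
      refine le_inf ?_ ?_
      · refine le_trans ?_ (hY3 τ' n hl)
        rw [hp]
        refine le_inf (le_inf (inf_le_left.trans (inf_le_left.trans h3)) inf_le_right) ?_
        exact inf_le_left.trans (inf_le_right.trans inf_le_right)
      · have h9 : b0 ⊓ cyl c τ' ≤ Z n ⇨ Yᶜ n := by
          refine (inf_le_inf_left _ (cyl_append_le c τ _)).trans ?_
          exact hle.trans (inf_le_left.trans (inf_le_right.trans (iInf_le _ n)))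
        have h10 : b0 ⊓ (Z n ⊓ W n) ⊓ cyl c τ' ≤ (Z n ⇨ Yᶜ n) ⊓ Z n :=
          le_inf ((inf_le_inf_right _ inf_le_left).trans h9)
            (inf_le_left.trans (inf_le_right.trans inf_le_left))
        refine h10.trans ?_
        rw [himp_inf_self]
        exact inf_le_left
    calc x = x ⊓ b1 ⊔ x ⊓ b1ᶜ := by rw [← inf_sup_left, sup_compl_eq_top, inf_top_eq]
      _ = ⊥ := by rw [hx2, hx3, sup_bot_eq]
      _ ≤ ⊥ := le_rfl
  · -- completeness
    intro a ha
    set E : ℕ → B := leN a f with hEdef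
    set v : B := adj Φ Y E ⊔ adj Φ Y Eᶜ with hv
    have hvm : v ∈ K.S (insert e C) := by
      refine hS'.sup_mem (hΦm _ fun n => ?_) (hΦm _ fun n => ?_)
      · exact hS'.himp_mem (hYm n) (hsub (hE a ha n))
      · exact hS'.himp_mem (hYm n) (hS'.compl_mem _ (hsub (hE a ha n)))
    have hv1' : ∀ j, b j ≤ v := by
      intro j
      have h1 : b j ≤ (splt Φ (Zs j).1 E)ᶜ :=
        (hb2 j).trans (inf_le_right.trans (iInf_le _ (⟨a, ha⟩ : N)))
      have h3 : (splt Φ (Zs j).1 E)ᶜ = Φ ((Zs j).1 ⊓ E)ᶜ ⊔ Φ ((Zs j).1 ⊓ Eᶜ)ᶜ := by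
        rw [splt, posit, posit, compl_inf, compl_compl, compl_compl]
      rw [h3] at h1
      have h4 : b j ⊓ Φ ((Zs j).1 ⊓ E)ᶜ ≤ adj Φ Y Eᶜ := by
        apply hΦ.lin0
        intro n
        simp only [Pi.compl_apply, Pi.inf_apply, Pi.himp_apply]
        rw [le_himp_iff, le_compl_iff_disjoint_right, disjoint_iff]
        refine le_bot_iff.1 ?_
        rw [← inf_compl_eq_bot (a := (Zs j).1 n ⊓ E n)]
        refine le_inf (le_inf ?_ inf_le_right) (inf_le_left.trans (inf_le_left.trans inf_le_right))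
        exact (inf_le_left.trans (inf_le_inf_right _ inf_le_left)).trans (hY1 j n)
      have h5 : b j ⊓ Φ ((Zs j).1 ⊓ Eᶜ)ᶜ ≤ adj Φ Y E := by
        apply hΦ.lin0
        intro n
        simp only [Pi.compl_apply, Pi.inf_apply, Pi.himp_apply]
        rw [le_himp_iff]
        by_contra hcon
        have h6 : (b j ⊓ ((Zs j).1 n ⊓ (E n)ᶜ)ᶜ ⊓ Y n) ⊓ (E n)ᶜ ≠ ⊥ := fun h7 => hcon (by
          rwa [← disjoint_iff, disjoint_compl_right_iff] at h7)
        apply h6
        refine le_bot_iff.1 ?_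
        rw [← inf_compl_eq_bot (a := (Zs j).1 n ⊓ (E n)ᶜ)]
        refine le_inf (le_inf ?_ inf_le_right) (inf_le_left.trans (inf_le_left.trans inf_le_right))
        exact (inf_le_left.trans (inf_le_inf_right _ inf_le_left)).trans (hY1 j n)
      calc b j ≤ b j ⊓ (Φ ((Zs j).1 ⊓ E)ᶜ ⊔ Φ ((Zs j).1 ⊓ Eᶜ)ᶜ) := le_inf le_rfl h1
        _ = (b j ⊓ Φ ((Zs j).1 ⊓ E)ᶜ) ⊔ (b j ⊓ Φ ((Zs j).1 ⊓ Eᶜ)ᶜ) := inf_sup_left _ _ _
        _ ≤ v := sup_le (h4.trans le_sup_right) (h5.trans le_sup_left)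
    have hv2 : b1 ≤ v := by
      change (⨆ Z, v1 Z) ≤ v
      rw [← hb4]
      exact iSup_le hv1'
    have hv3 : b1ᶜ ≤ v := by
      by_contra hcon
      have hne : b1ᶜ ⊓ vᶜ ≠ ⊥ := fun h7 => hcon (by
        rwa [← disjoint_iff, disjoint_compl_right_iff] at h7)
      have hym : b1ᶜ ⊓ vᶜ ∈ K.S (insert e C) :=
        hS'.inf_mem (hS'.compl_mem _ (hsub hb1S)) (hS'.compl_mem _ hvm)
      obtain ⟨b0, hb0S, hb00, τ, m, hτ, hle⟩ := K.cden2 hym hne
      have h3 : b0 ≤ b1ᶜ := K.ind_le he hb0S (hS.compl_mem _ hb1S) (hle.trans inf_le_left)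
      set W := wt H (pth [] τ) with hWdef
      have hWS : IsNm (K.S C) W := hW1 _
      obtain ⟨j, hj⟩ := exists_inf_ne_bot hb00 (h3.trans (hcov W hWS (hW2 _)))
      set a' := (zz W j).1 with ha'
      have ha'N : a' ∈ N := (zz W j).2
      have hjS : b0 ⊓ aa W j ∈ K.S C := hS.inf_mem hb0S (haa1 W hWS j)
      have hsplit : b0 ⊓ aa W j ⊓ Φ (leN a a') ≠ ⊥ ∨ b0 ⊓ aa W j ⊓ Φ (leN a' a) ≠ ⊥ := by
        by_contra hno
        push Not at hno
        apply hj
        calc b0 ⊓ aa W j = b0 ⊓ aa W j ⊓ (Φ (leN a a') ⊔ Φ (leN a' a)) := by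
              rw [ht a ha a' ha'N, inf_top_eq]
          _ = ⊥ := by rw [inf_sup_left, hno.1, hno.2, sup_bot_eq]
      have hpt : ∀ x : Bool, pth [] (τ ++ [true, x]) = x :: pth [] τ := by
        intro x
        rw [pth_append [] τ _ m hτ]
        simp [pth]
      have hlen : ∀ x : Bool, (τ ++ [true, x]).length = 2 * (m + 1) := by
        intro x
        simp [hτ]
        ring
      rcases hsplit with hs | hs
      · have hmem : b0 ⊓ aa W j ⊓ Φ (leN a a') ∈ K.S C :=
          hS.inf_mem hjS (hm _ (isNm_leN hS (hN ha).mem (hN ha'N).mem))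
        have hz := K.ind C e he _ hmem hs (τ ++ [true, true])
        set z := b0 ⊓ aa W j ⊓ Φ (leN a a') ⊓ cyl (K.c e) (τ ++ [true, true]) with hzdef
        have hz1 : z ≤ vᶜ := by
          refine le_trans ?_ (hle.trans inf_le_right)
          exact inf_le_inf (inf_le_left.trans inf_le_left) (cyl_append_le _ _ _)
        have hzb : z ≤ b1ᶜ := inf_le_left.trans (inf_le_left.trans (inf_le_left.trans h3))
        have hzj : z ≤ aa W j := inf_le_left.trans (inf_le_left.trans inf_le_right)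
        have hz2 : z ⊓ Φ (leN a a') ≤ Φ (Y ⇨ E) := by
          apply hΦ.lin _ _ _ (m + 1)
          intro n hn
          rw [Pi.himp_apply, le_himp_iff]
          have h4 : z ⊓ Y n ≤ (W ⊓ H W) n := by
            have h5 := hY2 (τ ++ [true, true]) (m + 1) (hlen true) n hn
            rw [hpt true] at h5
            refine le_trans ?_ h5
            exact le_inf (le_inf (inf_le_left.trans hzb) (inf_le_left.trans inf_le_right))
              inf_le_right
          have h6 : z ⊓ Y n ≤ leN a' f n := by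
            refine le_trans ?_ (mixY_le (haa3 W hWS) (fun j => leN (zz W j).1 f) j n)
            exact le_inf (inf_le_left.trans hzj) (h4.trans inf_le_right)
          calc z ⊓ leN a a' n ⊓ Y n ≤ leN a a' n ⊓ leN a' f n := by
                refine le_inf (inf_le_left.trans inf_le_right) ?_
                exact (inf_le_inf_right _ inf_le_left).trans h6
            _ ≤ E n := leN_trans a a' f n
        apply hz
        refine le_bot_iff.1 ?_
        rw [← inf_compl_eq_bot (a := v)]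
        refine le_inf ?_ hz1
        refine le_trans (le_inf le_rfl (inf_le_left.trans inf_le_right)) (hz2.trans le_sup_left)
      · have hmem : b0 ⊓ aa W j ⊓ Φ (leN a' a) ∈ K.S C :=
          hS.inf_mem hjS (hm _ (isNm_leN hS (hN ha'N).mem (hN ha).mem))
        have hz := K.ind C e he _ hmem hs (τ ++ [true, false])
        set z := b0 ⊓ aa W j ⊓ Φ (leN a' a) ⊓ cyl (K.c e) (τ ++ [true, false]) with hzdef
        have hz1 : z ≤ vᶜ := by
          refine le_trans ?_ (hle.trans inf_le_right)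
          exact inf_le_inf (inf_le_left.trans inf_le_left) (cyl_append_le _ _ _)
        have hzb : z ≤ b1ᶜ := inf_le_left.trans (inf_le_left.trans (inf_le_left.trans h3))
        have hzj : z ≤ aa W j := inf_le_left.trans (inf_le_left.trans inf_le_right)
        have hz2 : z ⊓ Φ (leN a' a) ≤ Φ (Y ⇨ Eᶜ) := by
          apply hΦ.lin _ _ _ (m + 1)
          intro n hn
          rw [Pi.himp_apply, le_himp_iff, Pi.compl_apply, le_compl_iff_disjoint_right,
            disjoint_iff]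
          have h4 : z ⊓ Y n ≤ (W ⊓ (H W)ᶜ) n := by
            have h5 := hY2 (τ ++ [true, false]) (m + 1) (hlen false) n hn
            rw [hpt false] at h5
            refine le_trans ?_ h5
            exact le_inf (le_inf (inf_le_left.trans hzb) (inf_le_left.trans inf_le_right))
              inf_le_right
          have h6 : z ⊓ leN a' f n ≤ H W n :=
            (inf_le_inf_right _ hzj).trans (le_mixY (fun j => leN (zz W j).1 f) j n)
          refine le_bot_iff.1 ?_
          rw [← inf_compl_eq_bot (a := H W n)]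
          refine le_inf ?_ ?_
          · refine le_trans ?_ h6
            refine le_inf (inf_le_left.trans (inf_le_left.trans inf_le_left)) ?_
            refine le_trans ?_ (leN_trans a' a f n)
            exact le_inf (inf_le_left.trans (inf_le_left.trans inf_le_right)) inf_le_right
          · refine le_trans ?_ (h4.trans inf_le_right)
            exact le_inf (inf_le_left.trans (inf_le_left.trans inf_le_left))
              (inf_le_left.trans inf_le_right)
        apply hz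
        refine le_bot_iff.1 ?_
        rw [← inf_compl_eq_bot (a := v)]
        refine le_inf ?_ hz1
        refine le_trans (le_inf le_rfl (inf_le_left.trans inf_le_right)) (hz2.trans le_sup_right)
    refine top_le_iff.1 ?_
    rw [← sup_compl_eq_top (x := b1)]
    exact sup_le hv2 hv3

end Comp

end Pool.Agent.Helper95.CU
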