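import Pool.Agent.Helper95.CU.Defs

/-!
# A third order sentence and its value in a complete Boolean algebra

A `B`-name of a function `f : ℕ → ℕ` is `f : ℕ → ℕ → B`, with `f n k` the value of `f(n) ≤ k`. For
`B = Prop` the names are the actual objects, and the value of a sentence is its truth.
-/

set_option autoImplicit false

namespace Pool.Agent.Helper95.CU

open Pool.Agent.Helper33.HM

universe u

section Defs

variable {B : Type u} [CompleteBooleanAlgebra B]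

/-- The value of: `f` is (the set of all pairs `(n,k)` with `f(n) ≤ k` of) a function. -/
def fnV (f : ℕ → ℕ → B) : B := ⨅ n, (⨆ k, f n k) ⊓ ⨅ k, f n k ⇨ f n (k + 1)

/-- The value of: `f = g`. -/
def eqF (f g : ℕ → ℕ → B) : B := ⨅ n, ⨅ k, iffV (f n k) (g n k)

/-- The value of: `f(n) < g(n)`. -/
def ltN (f g : ℕ → ℕ → B) : ℕ → B := fun n => ⨆ k, f n k ⊓ (g n k)ᶜ

/-- `E` is a name of a set of functions. -/
def IsFam (E : (ℕ → ℕ → B) → B) : Prop := ∀ x y, eqF x y ⊓ E x ≤ E y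

/-- `F` is a name of a map from functions to functions. -/
def IsMap (F : (ℕ → ℕ → B) → (ℕ → ℕ → B)) : Prop := ∀ x y, eqF x y ≤ eqF (F x) (F y)

/-- `U` is a name of a family of sets of natural numbers. -/
def IsU (U : (ℕ → B) → B) : Prop := ∀ x y : ℕ → B, (⨅ n, iffV (x n) (y n)) ⊓ U x ≤ U y

/-- The value of: `U` is an ultrafilter which contains all cofinite sets. -/
def ultraV (U : (ℕ → B) → B) : B :=
  (U ⊥)ᶜ ⊓ (⨅ m : ℕ, U (fun n => if n = m then ⊥ else ⊤)) ⊓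
    (⨅ x : ℕ → B, ⨅ y : ℕ → B, (U x ⊓ ⨅ n, x n ⇨ y n) ⇨ U y) ⊓
    (⨅ x : ℕ → B, ⨅ y : ℕ → B, (U x ⊓ U y) ⇨ U (x ⊓ y)) ⊓ ⨅ x : ℕ → B, U x ⊔ U xᶜ

/-- The value of: `E` is a set of functions which is linearly ordered by `<` modulo `U`. -/
def linV (U : (ℕ → B) → B) (E : (ℕ → ℕ → B) → B) : B :=
  (⨅ x, E x ⇨ fnV x) ⊓
    ⨅ x, ⨅ y, (E x ⊓ E y) ⇨ (eqF x y ⊔ U (ltN x y) ⊔ U (ltN y x))

/-- The value of: every nonempty subset of `E` has a smallest element modulo `U`. -/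
def wfV (U : (ℕ → B) → B) (E : (ℕ → ℕ → B) → B) : B :=
  ⨅ C : (ℕ → ℕ → B) → B, ⨅ _ : IsFam C, (⨆ x, E x ⊓ C x) ⇨
    ⨆ x, (E x ⊓ C x) ⊓ ⨅ y, (E y ⊓ C y) ⇨ (eqF x y ⊔ U (ltN x y))

/-- The value of: `F` maps `E` onto the set of all functions. -/
def ontoV (E : (ℕ → ℕ → B) → B) (F : (ℕ → ℕ → B) → (ℕ → ℕ → B)) : B :=
  ⨅ y, fnV y ⇨ ⨆ x, E x ⊓ eqF (F x) y

end Defs

/-- The value in `B` of the sentence: there is an ultrafilter `U` on `ℕ`, containing the cofinite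
sets, such that no set of functions from `ℕ` to `ℕ` which is well-ordered by `<` modulo `U` can be
mapped onto the set of all functions. -/
def Val (B : Type u) [CompleteBooleanAlgebra B] : B :=
  ⨆ U : (ℕ → B) → B, ⨆ _ : IsU U, ultraV U ⊓
    ⨅ E : (ℕ → ℕ → B) → B, ⨅ _ : IsFam E, ⨅ F : (ℕ → ℕ → B) → (ℕ → ℕ → B), ⨅ _ : IsMap F,
      (linV U E ⊓ wfV U E ⊓ ontoV E F)ᶜ

end Pool.Agent.Helper95.CU
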