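import Pool.Agent.Helper95.CU.Comp
import Pool.Agent.Helper95.CU.Val

/-!
# Calculus of names of functions
-/

set_option autoImplicit false

namespace Pool.Agent.Helper95.CU

open Pool.Agent.Helper33.HM Cardinal Set

universe u

section Calc

variable {B : Type u} [CompleteBooleanAlgebra B]

theorem iffV_inf_le (a b : B) : iffV a b ⊓ a ≤ b := by
  unfold iffV
  refine (inf_le_inf_right _ inf_le_left).trans ?_
  rw [himp_inf_self]
  exact inf_le_left

theorem iffV_inf_le' (a b : B) : iffV a b ⊓ b ≤ a := by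
  unfold iffV
  refine (inf_le_inf_right _ inf_le_right).trans ?_
  rw [himp_inf_self]
  exact inf_le_left

theorem le_iffV {a b c : B} (h1 : c ⊓ a ≤ b) (h2 : c ⊓ b ≤ a) : c ≤ iffV a b :=
  le_inf (le_himp_iff.2 h1) (le_himp_iff.2 h2)

theorem eqF_inf_le (x y : ℕ → ℕ → B) (n k : ℕ) : eqF x y ⊓ x n k ≤ y n k :=
  (inf_le_inf_right _ ((iInf_le _ n).trans (iInf_le _ k))).trans (iffV_inf_le _ _)

theorem eqF_inf_le' (x y : ℕ → ℕ → B) (n k : ℕ) : eqF x y ⊓ y n k ≤ x n k :=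
  (inf_le_inf_right _ ((iInf_le _ n).trans (iInf_le _ k))).trans (iffV_inf_le' _ _)

theorem le_eqF {c : B} {x y : ℕ → ℕ → B} (h1 : ∀ n k, c ⊓ x n k ≤ y n k)
    (h2 : ∀ n k, c ⊓ y n k ≤ x n k) : c ≤ eqF x y :=
  le_iInf fun n => le_iInf fun k => le_iffV (h1 n k) (h2 n k)

theorem eqF_refl (x : ℕ → ℕ → B) : eqF x x = ⊤ :=
  top_le_iff.1 (le_eqF (fun _ _ => inf_le_right) (fun _ _ => inf_le_right))

theorem eqF_symm (x y : ℕ → ℕ → B) : eqF x y ≤ eqF y x :=
  le_eqF (eqF_inf_le' x y) (eqF_inf_le x y)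

theorem eqF_trans (x y z : ℕ → ℕ → B) : eqF x y ⊓ eqF y z ≤ eqF x z := by
  refine le_eqF (fun n k => ?_) (fun n k => ?_)
  · refine le_trans ?_ (eqF_inf_le y z n k)
    refine le_inf (inf_le_left.trans inf_le_right) ?_
    exact (inf_le_inf_right _ inf_le_left).trans (eqF_inf_le x y n k)
  · refine le_trans ?_ (eqF_inf_le' x y n k)
    refine le_inf (inf_le_left.trans inf_le_left) ?_
    exact (inf_le_inf_right _ inf_le_right).trans (eqF_inf_le' y z n k)

theorem eqF_leN_left (x x' y : ℕ → ℕ → B) (n : ℕ) : eqF x x' ⊓ leN x y n ≤ leN x' y n := by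
  refine le_iInf fun k => ?_
  rw [le_himp_iff]
  refine le_trans ?_ (eqF_inf_le x x' n k)
  refine le_inf (inf_le_left.trans inf_le_left) ?_
  have : leN x y n ≤ y n k ⇨ x n k := iInf_le _ k
  exact (inf_le_inf_right _ (inf_le_right.trans this)).trans
    (by rw [himp_inf_self]; exact inf_le_left)

theorem eqF_leN_right (x y y' : ℕ → ℕ → B) (n : ℕ) : eqF y y' ⊓ leN x y n ≤ leN x y' n := by
  refine le_iInf fun k => ?_
  rw [le_himp_iff]
  have h1 : leN x y n ≤ y n k ⇨ x n k := iInf_le _ k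
  have h2 : (y n k ⇨ x n k) ⊓ y n k ≤ x n k := by rw [himp_inf_self]; exact inf_le_left
  refine le_trans (le_inf ?_ ?_) h2
  · exact inf_le_left.trans (inf_le_right.trans h1)
  · exact (inf_le_inf_right _ inf_le_left).trans (eqF_inf_le' y y' n k)

theorem eqF_le_leN (x y : ℕ → ℕ → B) (n : ℕ) : eqF x y ≤ leN x y n :=
  le_iInf fun k => le_himp_iff.2 (eqF_inf_le' x y n k)

theorem ltN_eq (x y : ℕ → ℕ → B) : ltN x y = (leN y x)ᶜ := by
  funext n
  simp only [ltN, leN, Pi.compl_apply, compl_iInf, compl_himp, _root_.sdiff_eq]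

variable {Φ : (ℕ → B) → B}

theorem BFil.eqF_left (h : BFil Φ) (x x' y : ℕ → ℕ → B) :
    eqF x x' ⊓ Φ (leN x y) ≤ Φ (leN x' y) := h.lin0 (eqF_leN_left x x' y)

theorem BFil.eqF_right (h : BFil Φ) (x y y' : ℕ → ℕ → B) :
    eqF y y' ⊓ Φ (leN x y) ≤ Φ (leN x y') := h.lin0 (eqF_leN_right x y y')

theorem BFil.eqF_le (h : BFil Φ) (x y : ℕ → ℕ → B) : eqF x y ≤ Φ (leN x y) :=
  h.le_of 0 fun n _ => eqF_le_leN x y n

theorem BFil.ltN_eq (h : BFil Φ) (hd : ∀ X, Φ X ⊔ Φ Xᶜ = ⊤) (x y : ℕ → ℕ → B) :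
    Φ (ltN x y) = (Φ (leN y x))ᶜ := by
  rw [CU.ltN_eq]
  exact (IsCompl.compl_eq ⟨disjoint_iff.2 (h.inf_compl _), codisjoint_iff.2 (hd _)⟩).symm

/-- A total name which agrees with `x` where `x` is a function. -/
def tot (x : ℕ → ℕ → B) : ℕ → ℕ → B := fun n k => (fnV x ⊓ x n k) ⊔ (fnV x)ᶜ

theorem tot_fn (x : ℕ → ℕ → B) : IsFn univ (tot x) where
  mem _ _ := trivial
  mono n k := by
    refine sup_le_sup_right (le_inf inf_le_left ?_) _
    have h1 : fnV x ≤ x n k ⇨ x n (k + 1) :=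
      (iInf_le _ n).trans (inf_le_right.trans (iInf_le _ k))
    exact (inf_le_inf_right _ h1).trans (by rw [himp_inf_self]; exact inf_le_left)
  tot n := by
    refine top_le_iff.1 ?_
    rw [← sup_compl_eq_top (x := fnV x)]
    refine sup_le ?_ (le_iSup_of_le 0 le_sup_right)
    have h1 : fnV x ≤ ⨆ k, x n k := (iInf_le _ n).trans inf_le_left
    have h2 : fnV x ≤ ⨆ k, fnV x ⊓ x n k := by
      rw [← inf_iSup_eq]
      exact le_inf le_rfl h1
    exact h2.trans (iSup_mono fun k => le_sup_left)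

theorem fnV_le_eqF_tot (x : ℕ → ℕ → B) : fnV x ≤ eqF x (tot x) := by
  refine le_eqF (fun n k => le_sup_left) (fun n k => ?_)
  unfold tot
  rw [inf_sup_left, inf_compl_eq_bot, sup_bot_eq]
  exact inf_le_right.trans inf_le_right

theorem fnV_of_isFn {S : Set B} {x : ℕ → ℕ → B} (h : IsFn S x) : fnV x = ⊤ := by
  refine top_le_iff.1 (le_iInf fun n => le_inf (h.tot n).ge (le_iInf fun k => ?_))
  rw [le_himp_iff, top_inf_eq]
  exact h.mono n k

/-- The name of the characteristic function of a set. -/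
def chi (c : ℕ → B) : ℕ → ℕ → B := fun n k => if k = 0 then c n else ⊤

theorem chi_fn (c : ℕ → B) : IsFn univ (chi c) where
  mem _ _ := trivial
  mono n k := by
    unfold chi
    rw [if_neg (Nat.succ_ne_zero k)]
    exact le_top
  tot n := top_le_iff.1 (le_iSup_of_le 1 (by simp [chi]))

theorem cyl_snoc_true (c : ℕ → B) (τ : List Bool) : cyl c (τ ++ [true]) ≤ c τ.length := by
  refine (iInf_le _ τ.length).trans ((iInf_le _ (by simp)).trans ?_)
  simp

theorem cyl_snoc_false (c : ℕ → B) (τ : List Bool) : cyl c (τ ++ [false]) ≤ (c τ.length)ᶜ := by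
  refine (iInf_le _ τ.length).trans ((iInf_le _ (by simp)).trans ?_)
  simp

/-- A Cohen real is different from the reals with names supported elsewhere. -/
theorem Coh.eqF_chi {κ : Cardinal.{u}} {Λ : Type u} (K : Coh κ Λ B) {C : Set Λ} {e : Λ}
    (he : e ∉ C) {g : ℕ → ℕ → B} (hg : ∀ n k, g n k ∈ K.S C) : eqF g (chi (K.c e)) = ⊥ := by
  have hS : IsSub (K.S C) := K.sub C
  have hS' : IsSub (K.S (insert e C)) := K.sub _
  have hsub : K.S C ⊆ K.S (insert e C) := K.mono _ _ (subset_insert e C)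
  have hcm : ∀ n, K.c e n ∈ K.S (insert e C) := fun n =>
    K.mono {e} _ (singleton_subset_iff.2 (mem_insert e C)) (K.c_mem e n)
  set x : B := ⨅ n, iffV (g n 0) (K.c e n) with hx
  have h1 : eqF g (chi (K.c e)) ≤ x := by
    refine le_iInf fun n => (iInf_le _ n).trans ((iInf_le _ 0).trans ?_)
    simp [chi]
  refine le_bot_iff.1 (h1.trans ?_)
  by_contra hne
  have hxm : x ∈ K.S (insert e C) :=
    hS'.iInf_mem fun n => hS'.iffV_mem (hsub (hg n 0)) (hcm n)
  obtain ⟨b, hb, τ, h2, h3⟩ := K.cden C e x hxm (fun h => hne h.le)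
  have hb0 : b ≠ ⊥ := by
    rintro rfl
    simp at h2
  have h4 : b ⊓ cyl (K.c e) τ ≤ iffV (g τ.length 0) (K.c e τ.length) :=
    h3.trans (iInf_le _ τ.length)
  by_cases h5 : b ⊓ g τ.length 0 = ⊥
  · have h6 : b ≤ (g τ.length 0)ᶜ := le_compl_iff_disjoint_right.2 (disjoint_iff.2 h5)
    refine K.ind C e he b hb hb0 (τ ++ [true]) (le_bot_iff.1 ?_)
    rw [← inf_compl_eq_bot (a := g τ.length 0)]
    refine le_inf ?_ (inf_le_left.trans h6)
    refine le_trans ?_ (iffV_inf_le' (g τ.length 0) (K.c e τ.length))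
    refine le_inf ?_ (inf_le_right.trans (cyl_snoc_true _ _))
    exact (inf_le_inf_left _ (cyl_append_le _ _ _)).trans h4
  · refine K.ind C e he _ (hS.inf_mem hb (hg _ 0)) h5 (τ ++ [false]) (le_bot_iff.1 ?_)
    rw [← inf_compl_eq_bot (a := K.c e τ.length)]
    refine le_inf ?_ (inf_le_right.trans (cyl_snoc_false _ _))
    refine le_trans ?_ (iffV_inf_le (g τ.length 0) (K.c e τ.length))
    refine le_inf ?_ (inf_le_left.trans inf_le_right)
    exact (inf_le_inf inf_le_left (cyl_append_le _ _ _)).trans h4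

/-- Mixing: the values of `P` at total names have a largest element. -/
theorem exists_max (hc : CCC B) {P : (ℕ → ℕ → B) → B} (hP : ∀ x y, eqF x y ⊓ P x ≤ P y) :
    ∃ w, IsFn univ w ∧ ∀ x, IsFn univ x → P x ≤ P w := by
  have : Nonempty {x : ℕ → ℕ → B // IsFn univ x} := ⟨⟨_, tot_fn fun _ _ => ⊤⟩⟩
  obtain ⟨a, z, -, h2, h3, h4⟩ := exists_mix hc isSub_univ
    (fun x : {x : ℕ → ℕ → B // IsFn univ x} => P x.1) (fun _ => trivial)
  let w : ℕ → ℕ → B := fun n k => (⨆ j, a j ⊓ (z j).1 n k) ⊔ (⨆ j, a j)ᶜ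
  have hw : IsFn univ w := by
    refine ⟨fun _ _ => trivial, fun n k => ?_, fun n => ?_⟩
    · exact sup_le_sup_right (iSup_mono fun j => inf_le_inf_left _ ((z j).2.mono n k)) _
    · refine top_le_iff.1 ?_
      rw [← sup_compl_eq_top (x := ⨆ j, a j)]
      refine sup_le (iSup_le fun j => ?_) (le_iSup_of_le 0 le_sup_right)
      calc a j = ⨆ k, a j ⊓ (z j).1 n k := by rw [← inf_iSup_eq, (z j).2.tot n, inf_top_eq]
        _ ≤ ⨆ k, w n k := iSup_mono fun k =>
          (le_iSup (fun j => a j ⊓ (z j).1 n k) j).trans le_sup_left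
  refine ⟨w, hw, fun x hx => ?_⟩
  have h5 : P x ≤ ⨆ j, a j := by
    rw [h4]
    exact le_iSup (fun x : {x : ℕ → ℕ → B // IsFn univ x} => P x.1) ⟨x, hx⟩
  refine h5.trans (iSup_le fun j => ?_)
  have h6 : a j ≤ eqF (z j).1 w := by
    refine le_eqF (fun n k => ?_) (fun n k => ?_)
    · exact (le_iSup (fun j => a j ⊓ (z j).1 n k) j).trans le_sup_left
    · change a j ⊓ ((⨆ j, a j ⊓ (z j).1 n k) ⊔ (⨆ j, a j)ᶜ) ≤ _
      rw [inf_sup_left]
      refine sup_le ?_ ?_
      · rw [inf_iSup_eq]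
        refine iSup_le fun i => ?_
        by_cases h : j = i
        · subst h
          exact inf_le_right.trans inf_le_right
        · rw [← inf_assoc, h3 j i h, bot_inf_eq]
          exact bot_le
      · refine le_trans ?_ bot_le
        rw [← inf_compl_eq_bot (a := ⨆ j, a j)]
        exact inf_le_inf_right _ (le_iSup a j)
  exact (le_inf h6 (h2 j)).trans (hP _ _)

end Calc

end Pool.Agent.Helper95.CU
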