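import Mathlib

/-!
# Bounded subsets of regular cardinals
-/

set_option autoImplicit false

namespace Pool.Agent.Helper95.CU

open Cardinal Set

universe u

theorem bdd_of_lt {c : Cardinal.{u}} (hc : c.IsRegular) {S : Set c.ord.ToType} (hS : #S < c) :
    ∃ x, ∀ s ∈ S, s < x := by
  by_contra hcon
  push Not at hcon
  have h1 : IsCofinal S := fun x => hcon x
  have h2 := Order.cof_le h1
  rw [Ordinal.cof_toType, hc.cof_ord] at h2
  exact absurd hS (not_lt.2 h2)

theorem mk_Iio_lt' {c : Cardinal.{u}} (x : c.ord.ToType) : #(Iio x) < c := by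
  simpa using mk_Iio_lt x

theorem mk_Iic_lt' {c : Cardinal.{u}} (hc : c.IsRegular) (x : c.ord.ToType) : #(Iic x) < c := by
  obtain ⟨y, hy⟩ := bdd_of_lt hc (S := {x}) (by simpa using hc.nat_lt 1)
  exact (mk_le_mk_of_subset fun z hz => lt_of_le_of_lt hz (hy x rfl)).trans_lt (mk_Iio_lt' y)

variable {κ : Cardinal.{u}}

/-- Subsets of the successor of `κ` of size at most `κ` are bounded. -/
theorem bdd_of_le (hκ : κ.IsRegular) {S : Set (Order.succ κ).ord.ToType} (hS : #S ≤ κ) :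
    ∃ x, ∀ s ∈ S, s < x :=
  bdd_of_lt (isRegular_succ hκ.aleph0_le) (Order.lt_succ_of_le hS)

theorem bdd_range (hκ : κ.IsRegular) {ι : Type u} (hι : #ι ≤ κ)
    (f : ι → (Order.succ κ).ord.ToType) : ∃ x, ∀ i, f i < x := by
  obtain ⟨x, hx⟩ := bdd_of_le hκ (S := range f) (mk_range_le.trans hι)
  exact ⟨x, fun i => hx _ (mem_range_self i)⟩

/-- Closure points of cofinality `κ`. -/
theorem exists_closed (hκ : κ.IsRegular)
    (h : (Order.succ κ).ord.ToType → (Order.succ κ).ord.ToType) :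
    ∃ α, (∀ γ < α, h γ < α) ∧ ∀ S : Set (Order.succ κ).ord.ToType, S ⊆ Iio α → #S < κ →
      ∃ β < α, ∀ s ∈ S, s < β := by
  classical
  let W := (Order.succ κ).ord.ToType
  let K := κ.ord.ToType
  -- a monotone bound of `h`
  have hH : ∀ γ : W, ∃ x, ∀ δ ≤ γ, h δ < x := by
    intro γ
    have h1 : #(Iic γ) ≤ κ :=
      Order.lt_succ_iff.1 (mk_Iic_lt' (isRegular_succ hκ.aleph0_le) γ)
    obtain ⟨x, hx⟩ := bdd_range hκ h1 (fun δ : Iic γ => h δ.1)
    exact ⟨x, fun δ hδ => hx ⟨δ, hδ⟩⟩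
  choose H hH using hH
  -- the sequence
  have hstep : ∀ (i : K) (f : ∀ j : K, j < i → W), ∃ x, ∀ j hj, f j hj < x ∧ H (f j hj) < x := by
    intro i f
    have h1 : #(Iio i) ≤ κ := (mk_Iio_lt' i).le
    obtain ⟨x, hx⟩ := bdd_range hκ h1 (fun j : Iio i => max (f j.1 j.2) (H (f j.1 j.2)))
    exact ⟨x, fun j hj => ⟨(le_max_left _ _).trans_lt (hx ⟨j, hj⟩),
      (le_max_right _ _).trans_lt (hx ⟨j, hj⟩)⟩⟩
  choose G hG using hstep
  let g : K → W := WellFoundedLT.fix (motive := fun _ => W) (fun i f => G i f)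
  have hg : ∀ i, g i = G i (fun j _ => g j) := fun i =>
    WellFoundedLT.fix_eq (motive := fun _ => W) (fun i f => G i f) i
  have hg1 : ∀ j i, j < i → g j < g i ∧ H (g j) < g i := by
    intro j i hji
    have := hG i (fun j _ => g j) j hji
    rwa [← hg i] at this
  -- the supremum
  have hb : ∃ x : W, ∀ i, g i < x := bdd_range hκ (by simp [K]) g
  obtain ⟨α, hα, hmin⟩ := WellFounded.has_min (wellFounded_lt (α := W)) {x | ∀ i, g i < x} hb
  have hcof : ∀ γ < α, ∃ i, γ ≤ g i := by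
    intro γ hγ
    by_contra hcon
    push Not at hcon
    exact hmin γ hcon hγ
  have hnomax : ∀ i : K, ∃ j, i < j := by
    intro i
    obtain ⟨y, hy⟩ := bdd_of_lt hκ (S := {i}) (by simpa using hκ.nat_lt 1)
    exact ⟨y, hy i rfl⟩
  refine ⟨α, ?_, ?_⟩
  · intro γ hγ
    obtain ⟨i, hi⟩ := hcof γ hγ
    obtain ⟨j, hj⟩ := hnomax i
    exact (hH (g i) γ hi).trans ((hg1 i j hj).2.trans (hα j))
  · intro S hS hS'
    have : ∀ s : S, ∃ i, s.1 ≤ g i := fun s => hcof s.1 (hS s.2)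
    choose r hr using this
    obtain ⟨y, hy⟩ := bdd_of_lt hκ (S := range r) (mk_range_le.trans_lt hS')
    refine ⟨g y, hα y, fun s hs => ?_⟩
    exact (hr ⟨s, hs⟩).trans_lt (hg1 _ _ (hy _ (mem_range_self _))).1

end Pool.Agent.Helper95.CU
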