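import Pool.Agent.Helper95.CU.Tower
import Pool.Agent.Helper95.CU.CoreA
import Pool.Agent.Helper95.CU.Ord

/-!
# No long well-ordered sets
-/

set_option autoImplicit false

namespace Pool.Agent.Helper95.CU

open Pool.Agent.Helper33.HM Cardinal Set

universe u

section Core

variable {κ : Cardinal.{u}} {Λ B : Type u} [CompleteBooleanAlgebra B]

/-- The name of the ultrafilter. -/
def UU {K : Coh κ Λ B} (t : Tower K (Order.succ κ).ord.ToType) : (ℕ → B) → B :=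
  fun X => ⨆ α, t.F α X

variable {K : Coh κ Λ B} (t : Tower K (Order.succ κ).ord.ToType)

theorem Tower.mono_A {α β : (Order.succ κ).ord.ToType} (h : α ≤ β) : t.A α ⊆ t.A β := by
  rcases h.lt_or_eq with h | rfl
  · exact (t.ext α β h).sub
  · exact subset_rfl

theorem Tower.mono_S {α β : (Order.succ κ).ord.ToType} (h : α ≤ β) :
    K.S (t.A α) ⊆ K.S (t.A β) := K.mono _ _ (t.mono_A h)

theorem Tower.mono_Fn {α β : (Order.succ κ).ord.ToType} (h : α ≤ β) :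
    K.Fn (t.A α) ⊆ K.Fn (t.A β) := fun _ hf =>
  ⟨fun n k => t.mono_S h (hf.mem n k), hf.mono, hf.tot⟩

theorem Tower.mono_F {α β : (Order.succ κ).ord.ToType} (h : α ≤ β) (X : ℕ → B) :
    t.F α X ≤ t.F β X := by
  rcases h.lt_or_eq with h | rfl
  · exact (t.ext α β h).le X
  · exact le_rfl

theorem nonempty_W (κ : Cardinal.{u}) : Nonempty (Order.succ κ).ord.ToType := by
  rw [Ordinal.nonempty_toType_iff]
  intro h
  rw [Cardinal.ord_eq_zero] at h
  exact absurd (Order.lt_succ κ) (by rw [h]; exact not_lt.2 zero_le)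

theorem bfil_UU : BFil (UU t) := by
  have := nonempty_W κ
  exact BFil.iSup (fun α => (t.lev α).fil) fun i j =>
    ⟨max i j, fun X => t.mono_F (le_max_left i j) X, fun X => t.mono_F (le_max_right i j) X⟩

theorem UU_of_mem {α : (Order.succ κ).ord.ToType} {Z : ℕ → B} (hZ : IsNm (K.S (t.A α)) Z) :
    UU t Z = t.F α Z := by
  refine le_antisymm (iSup_le fun β => ?_) (le_iSup (fun α => t.F α Z) α)
  rcases le_total β α with h | h
  · exact t.mono_F h Z
  · have h1 := (t.lev α).dec Z hZ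
    have h2 := (t.lev β).fil.inf_compl Z
    calc t.F β Z = t.F β Z ⊓ (t.F α Z ⊔ t.F α Zᶜ) := by rw [h1, inf_top_eq]
      _ = (t.F β Z ⊓ t.F α Z) ⊔ (t.F β Z ⊓ t.F α Zᶜ) := inf_sup_left _ _ _
      _ ≤ t.F α Z := by
        refine sup_le inf_le_right ?_
        refine le_trans ?_ bot_le
        rw [← h2]
        exact inf_le_inf_left _ (t.mono_F h _)

theorem Tower.level (hκ : κ.IsRegular) (h0 : ℵ₀ < κ) (b : B) : ∃ α, b ∈ K.S (t.A α) := by
  obtain ⟨D, -, hD, hb⟩ := K.csupp univ b (K.top b)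
  choose r hr using t.cover
  obtain ⟨x, hx⟩ := bdd_range hκ (ι := D)
    ((Cardinal.le_aleph0_iff_set_countable.2 hD).trans h0.le) (fun e => r e.1)
  refine ⟨x, K.mono _ _ (fun e he => ?_) hb⟩
  exact t.mono_A (hx ⟨e, he⟩).le (hr e)

theorem Tower.level_fam (hκ : κ.IsRegular) (h0 : ℵ₀ < κ) {ι : Type u} (hι : #ι ≤ κ)
    (b : ι → B) : ∃ α, ∀ i, b i ∈ K.S (t.A α) := by
  choose r hr using fun i => t.level hκ h0 (b i)
  obtain ⟨x, hx⟩ := bdd_range hκ hι r
  exact ⟨x, fun i => t.mono_S (hx i).le (hr i)⟩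

theorem Tower.level_seq (hκ : κ.IsRegular) (h0 : ℵ₀ < κ) {ι : Type} [Countable ι]
    (b : ι → B) : ∃ α, ∀ i, b i ∈ K.S (t.A α) := by
  obtain ⟨α, h⟩ := t.level_fam hκ h0 (ι := ULift.{u} ι)
    ((Cardinal.mk_le_aleph0_iff.2 inferInstance).trans h0.le) (fun i => b i.down)
  exact ⟨α, fun i => h ⟨i⟩⟩

/-- every name of a function is a name of some level -/
theorem exists_level (hκ : κ.IsRegular) (h0 : ℵ₀ < κ) {f : ℕ → ℕ → B} (hf : IsFn univ f) :
    ∃ α, f ∈ K.Fn (t.A α) := by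
  obtain ⟨α, h⟩ := t.level_seq hκ h0 (fun p : ℕ × ℕ => f p.1 p.2)
  exact ⟨α, fun n k => h (n, k), hf.mono, hf.tot⟩

theorem dec_UU (hκ : κ.IsRegular) (h0 : ℵ₀ < κ) (X : ℕ → B) : UU t X ⊔ UU t Xᶜ = ⊤ := by
  obtain ⟨α, h⟩ := t.level_seq hκ h0 X
  refine top_le_iff.1 ?_
  rw [← (t.lev α).dec X h]
  exact sup_le_sup (le_iSup (fun α => t.F α X) α) (le_iSup (fun α => t.F α Xᶜ) α)

/-- Increasing families indexed by the successor of `κ` are eventually constant. -/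
theorem exists_const (hκ : κ.IsRegular) (h0 : ℵ₀ < κ) (hc : CCC B)
    {v : (Order.succ κ).ord.ToType → B} (hv : Monotone v) : ∃ δ, ⨆ α, v α = v δ := by
  have := nonempty_W κ
  obtain ⟨a, z, -, h2, -, h4⟩ := exists_mix hc isSub_univ v (fun _ => trivial)
  obtain ⟨x, hx⟩ := bdd_range hκ (ι := ULift.{u} ℕ)
    ((Cardinal.mk_le_aleph0_iff.2 inferInstance).trans h0.le) (fun i => z i.down)
  refine ⟨x, le_antisymm ?_ (le_iSup v x)⟩
  rw [← h4]
  exact iSup_le fun j => (h2 j).trans (hv (hx ⟨j⟩).le)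

/-- The value of: `x` is in the model of level `α`. -/
def inR (α : (Order.succ κ).ord.ToType) (x : ℕ → ℕ → B) : B :=
  ⨆ z : K.Fn (t.A α), eqF x z.1

theorem inR_mono {α β : (Order.succ κ).ord.ToType} (h : α ≤ β) (x : ℕ → ℕ → B) :
    inR t α x ≤ inR t β x :=
  iSup_le fun z => le_iSup (fun z : K.Fn (t.A β) => eqF x z.1) ⟨z.1, t.mono_Fn h z.2⟩

theorem inR_congr (α : (Order.succ κ).ord.ToType) (x y : ℕ → ℕ → B) :
    eqF x y ⊓ inR t α y ≤ inR t α x := by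
  unfold inR
  rw [inf_iSup_eq]
  exact iSup_mono fun z => eqF_trans x y z.1

variable (E : (ℕ → ℕ → B) → B)

/-- The value of: the elements of `E` below `y` are in the model of level `δ`. -/
def smA (δ : (Order.succ κ).ord.ToType) (y : ℕ → ℕ → B) : B :=
  ⨅ x : {x : ℕ → ℕ → B // IsFn univ x}, (E x.1 ⊓ UU t (leN x.1 y)) ⇨ inR t δ x.1

theorem smA_mono (y : ℕ → ℕ → B) : Monotone fun δ => smA t E δ y := fun _ _ h =>
  iInf_mono fun x => himp_le_himp_left (inR_mono t h x.1)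

/-- The value of: the elements of `E` below `y` are in the model of some level. -/
def sm (y : ℕ → ℕ → B) : B := ⨆ δ, smA t E δ y

/-- The value of: `x` is below an element of the model of level `γ` which is small. -/
def II (γ : (Order.succ κ).ord.ToType) (x : ℕ → ℕ → B) : B :=
  ⨆ y : K.Fn (t.A γ), sm t E y.1 ⊓ UU t (leN x y.1)

theorem II_mono {α β : (Order.succ κ).ord.ToType} (h : α ≤ β) (x : ℕ → ℕ → B) :
    II t E α x ≤ II t E β x :=
  iSup_le fun z => le_iSup (fun y : K.Fn (t.A β) => sm t E y.1 ⊓ UU t (leN x y.1))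
    ⟨z.1, t.mono_Fn h z.2⟩

theorem II_congr (γ : (Order.succ κ).ord.ToType) (x x' : ℕ → ℕ → B) :
    eqF x x' ⊓ II t E γ x ≤ II t E γ x' := by
  unfold II
  rw [inf_iSup_eq]
  refine iSup_mono fun z => le_inf (inf_le_right.trans inf_le_left) ?_
  refine le_trans ?_ ((bfil_UU t).eqF_left x x' z.1)
  exact inf_le_inf_left _ inf_le_right

theorem smA_down (δ : (Order.succ κ).ord.ToType) (y l : ℕ → ℕ → B) :
    smA t E δ y ⊓ UU t (leN l y) ≤ smA t E δ l := by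
  refine le_iInf fun x => ?_
  rw [le_himp_iff]
  have h1 : smA t E δ y ≤ (E x.1 ⊓ UU t (leN x.1 y)) ⇨ inR t δ x.1 := iInf_le _ x
  have h2 : ((E x.1 ⊓ UU t (leN x.1 y)) ⇨ inR t δ x.1) ⊓ (E x.1 ⊓ UU t (leN x.1 y)) ≤
      inR t δ x.1 := by
    rw [himp_inf_self]
    exact inf_le_left
  refine le_trans (le_inf ?_ (le_inf ?_ ?_)) h2
  · exact inf_le_left.trans (inf_le_left.trans h1)
  · exact inf_le_right.trans inf_le_left
  · refine le_trans ?_ ((bfil_UU t).le_trans x.1 l y)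
    exact le_inf (inf_le_right.trans inf_le_right) (inf_le_left.trans inf_le_right)

theorem sm_down (y l : ℕ → ℕ → B) : sm t E y ⊓ UU t (leN l y) ≤ sm t E l := by
  unfold sm
  rw [iSup_inf_eq]
  exact iSup_mono fun δ => smA_down t E δ y l

theorem exists_small (hκ : κ.IsRegular) (h0 : ℵ₀ < κ) (hω : κ ^ ℵ₀ = κ)
    (γ : (Order.succ κ).ord.ToType) : ∃ δ, ∀ y ∈ K.Fn (t.A γ), sm t E y = smA t E δ y := by
  choose r hr using fun y : K.Fn (t.A γ) =>
    exists_const hκ h0 K.ccc (smA_mono t E y.1)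
  obtain ⟨x, hx⟩ := bdd_range hκ (card_fn K hκ hω (t.card γ)) r
  refine ⟨x, fun y hy => le_antisymm ?_ (le_iSup (fun δ => smA t E δ y) x)⟩
  have h1 : sm t E y = smA t E (r ⟨y, hy⟩) y := hr ⟨y, hy⟩
  rw [h1]
  exact smA_mono t E y (hx ⟨y, hy⟩).le

theorem II_le_inR (hκ : κ.IsRegular) (h0 : ℵ₀ < κ) (hω : κ ^ ℵ₀ = κ)
    (γ : (Order.succ κ).ord.ToType) :
    ∃ δ, ∀ x, IsFn univ x → E x ⊓ II t E γ x ≤ inR t δ x := by
  obtain ⟨δ, hδ⟩ := exists_small t E hκ h0 hω γ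
  refine ⟨δ, fun x hx => ?_⟩
  unfold II
  rw [inf_iSup_eq]
  refine iSup_le fun y => ?_
  rw [hδ y.1 y.2]
  have h1 : smA t E δ y.1 ≤ (E x ⊓ UU t (leN x y.1)) ⇨ inR t δ x := iInf_le _ (⟨x, hx⟩ :
    {x : ℕ → ℕ → B // IsFn univ x})
  have h2 : ((E x ⊓ UU t (leN x y.1)) ⇨ inR t δ x) ⊓ (E x ⊓ UU t (leN x y.1)) ≤
      inR t δ x := by
    rw [himp_inf_self]
    exact inf_le_left
  refine le_trans (le_inf ?_ (le_inf inf_le_left ?_)) h2
  · exact inf_le_right.trans (inf_le_left.trans h1)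
  · exact inf_le_right.trans inf_le_right

variable (F : (ℕ → ℕ → B) → (ℕ → ℕ → B))

/-- Step (1): the set `E` is not contained in a model of some level. -/
theorem not_bounded (hκ : κ.IsRegular) (h0 : ℵ₀ < κ) (hω : κ ^ ℵ₀ = κ) (hE : IsFam E)
    (hF : IsMap F) {b : B} (hb1 : b ≤ linV (UU t) E) (hb2 : b ≤ ontoV E F)
    (α : (Order.succ κ).ord.ToType) :
    b ≤ ⨆ x : {x : ℕ → ℕ → B // IsFn univ x}, E x.1 ⊓ (inR t α x.1)ᶜ := by
  by_contra hcon
  set s : B := ⨆ x : {x : ℕ → ℕ → B // IsFn univ x}, E x.1 ⊓ (inR t α x.1)ᶜ with hs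
  have hne : b ⊓ sᶜ ≠ ⊥ := fun h => hcon (by
    rwa [← disjoint_iff, disjoint_compl_right_iff] at h)
  -- on `b ⊓ sᶜ` all elements of `E` are in the model
  have h1 : ∀ x, IsFn univ x → b ⊓ sᶜ ⊓ E x ≤ inR t α x := by
    intro x hx
    have h2 : E x ⊓ (inR t α x)ᶜ ≤ s :=
      le_iSup (fun x : {x : ℕ → ℕ → B // IsFn univ x} => E x.1 ⊓ (inR t α x.1)ᶜ) ⟨x, hx⟩
    by_contra h3
    have h4 : b ⊓ sᶜ ⊓ E x ⊓ (inR t α x)ᶜ ≠ ⊥ := fun h => h3 (by
      rwa [← disjoint_iff, disjoint_compl_right_iff] at h)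
    apply h4
    refine le_bot_iff.1 ?_
    rw [← inf_compl_eq_bot (a := s)]
    refine le_inf ?_ (inf_le_left.trans (inf_le_left.trans inf_le_right))
    exact (inf_le_inf_right _ inf_le_right).trans h2
  have hfn : ∀ x, b ⊓ E x ≤ fnV x := by
    intro x
    have : b ≤ E x ⇨ fnV x := hb1.trans (inf_le_left.trans (iInf_le _ x))
    exact (inf_le_inf_right _ this).trans (by rw [himp_inf_self]; exact inf_le_left)
  have h2 : ∀ x, b ⊓ sᶜ ⊓ E x ≤ inR t α x := by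
    intro x
    have h3 : b ⊓ sᶜ ⊓ E x ≤ eqF x (tot x) :=
      (inf_le_inf_right _ inf_le_left).trans ((hfn x).trans (fnV_le_eqF_tot x))
    have h4 : b ⊓ sᶜ ⊓ E x ≤ E (tot x) :=
      (le_inf h3 inf_le_right).trans (hE x (tot x))
    exact (le_inf h3 ((le_inf inf_le_left h4).trans (h1 _ (tot_fn x)))).trans
      (inR_congr t α x (tot x))
  -- a fresh Cohen real
  obtain ⟨δ, hδ⟩ := t.level_fam hκ h0 (ι := K.Fn (t.A α) × ULift.{u} (ℕ × ℕ)) (by
      rw [Cardinal.mk_prod, Cardinal.lift_id, Cardinal.lift_id]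
      refine (mul_le_mul' (card_fn K hκ hω (t.card α))
        ((Cardinal.mk_le_aleph0_iff.2 inferInstance).trans h0.le)).trans ?_
      exact (Cardinal.mul_eq_self h0.le).le)
    (fun p => F p.1.1 p.2.down.1 p.2.down.2)
  have hex : ∃ e, e ∉ t.A δ := by
    by_contra hno
    push Not at hno
    have h3 : t.A δ = Set.univ := eq_univ_of_forall hno
    have h4 := t.card δ
    rw [h3, Cardinal.mk_univ, K.card] at h4
    exact absurd h4 (not_le.2 (Order.lt_succ κ))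
  obtain ⟨e, he⟩ := hex
  set y := chi (K.c e) with hy
  have h3 : b ≤ ⨆ x, E x ⊓ eqF (F x) y := by
    have h4 : b ≤ fnV y ⇨ ⨆ x, E x ⊓ eqF (F x) y := hb2.trans (iInf_le _ y)
    rwa [fnV_of_isFn (chi_fn _), top_himp] at h4
  apply hne
  refine le_bot_iff.1 ?_
  calc b ⊓ sᶜ ≤ b ⊓ sᶜ ⊓ ⨆ x, E x ⊓ eqF (F x) y := le_inf le_rfl (inf_le_left.trans h3)
    _ ≤ ⊥ := by
      rw [inf_iSup_eq]
      refine iSup_le fun x => ?_
      rw [← inf_assoc]
      refine (inf_le_inf_right _ (h2 x)).trans ?_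
      unfold inR
      rw [iSup_inf_eq]
      refine iSup_le fun z => ?_
      refine (inf_le_inf_right _ ((hF x z.1).trans (eqF_symm _ _))).trans ?_
      refine (eqF_trans _ _ _).trans ?_
      rw [hy, K.eqF_chi he (fun n k => hδ (z, ⟨(n, k)⟩))]

/-- Step (3): a smallest element above the small elements of level `γ`. -/
theorem exists_minimal (hκ : κ.IsRegular) (h0 : ℵ₀ < κ) (hω : κ ^ ℵ₀ = κ) (hE : IsFam E)
    (hF : IsMap F) {b : B} (hb1 : b ≤ linV (UU t) E) (hb3 : b ≤ wfV (UU t) E)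
    (hb2 : b ≤ ontoV E F) (γ : (Order.succ κ).ord.ToType) :
    ∃ w, IsFn univ w ∧ b ≤ E w ∧ b ≤ (II t E γ w)ᶜ ∧
      ∀ y, IsFn univ y → b ⊓ E y ⊓ (II t E γ y)ᶜ ≤ UU t (leN w y) := by
  obtain ⟨δ, hδ⟩ := II_le_inR t E hκ h0 hω γ
  have hcong : ∀ x y, eqF x y ⊓ (II t E γ x)ᶜ ≤ (II t E γ y)ᶜ := by
    intro x y
    rw [le_compl_iff_disjoint_right, disjoint_iff]
    refine le_bot_iff.1 ?_
    rw [← inf_compl_eq_bot (a := II t E γ x)]
    refine le_inf ?_ (inf_le_left.trans inf_le_right)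
    exact (inf_le_inf_right _ (inf_le_left.trans (eqF_symm x y))).trans (II_congr t E γ y x)
  have hC : IsFam (fun x => (II t E γ x)ᶜ) := hcong
  have h1 : b ≤ ⨆ x, E x ⊓ (II t E γ x)ᶜ := by
    refine (not_bounded t E F hκ h0 hω hE hF hb1 hb2 δ).trans (iSup_le fun x => ?_)
    refine le_trans ?_ (le_iSup (fun x => E x ⊓ (II t E γ x)ᶜ) x.1)
    refine le_inf inf_le_left ?_
    rw [le_compl_iff_disjoint_right, disjoint_iff]
    refine le_bot_iff.1 ?_
    rw [← inf_compl_eq_bot (a := inR t δ x.1)]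
    refine le_inf ?_ (inf_le_left.trans inf_le_right)
    exact (inf_le_inf_right _ inf_le_left).trans (hδ x.1 x.2)
  have h2 : b ≤ ⨆ x, (E x ⊓ (II t E γ x)ᶜ) ⊓ ⨅ y, (E y ⊓ (II t E γ y)ᶜ) ⇨
      (eqF x y ⊔ UU t (ltN x y)) := by
    have h3 : b ≤ (⨆ x, E x ⊓ (II t E γ x)ᶜ) ⇨ ⨆ x, (E x ⊓ (II t E γ x)ᶜ) ⊓
        ⨅ y, (E y ⊓ (II t E γ y)ᶜ) ⇨ (eqF x y ⊔ UU t (ltN x y)) :=
      hb3.trans ((iInf_le _ (fun x => (II t E γ x)ᶜ)).trans (iInf_le _ hC))
    exact (le_inf h3 h1).trans (by rw [himp_inf_self]; exact inf_le_left)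
  -- the value which is maximised
  let P : (ℕ → ℕ → B) → B := fun x => (E x ⊓ (II t E γ x)ᶜ) ⊓
    ⨅ y : {y : ℕ → ℕ → B // IsFn univ y}, (E y.1 ⊓ (II t E γ y.1)ᶜ) ⇨ UU t (leN x y.1)
  have hP : ∀ x y, eqF x y ⊓ P x ≤ P y := by
    intro x x'
    refine le_inf (le_inf ?_ ?_) (le_iInf fun y => ?_)
    · exact (inf_le_inf_left _ (inf_le_left.trans inf_le_left)).trans (hE x x')
    · exact (inf_le_inf_left _ (inf_le_left.trans inf_le_right)).trans (hcong x x')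
    · rw [le_himp_iff]
      refine le_trans ?_ ((bfil_UU t).eqF_left x x' y.1)
      refine le_inf (inf_le_left.trans inf_le_left) ?_
      have h3 : P x ≤ (E y.1 ⊓ (II t E γ y.1)ᶜ) ⇨ UU t (leN x y.1) :=
        inf_le_right.trans (iInf_le _ y)
      exact (inf_le_inf_right _ (inf_le_right.trans h3)).trans
        (by rw [himp_inf_self]; exact inf_le_left)
  obtain ⟨w, hw, hmax⟩ := exists_max K.ccc hP
  have h3 : b ≤ P w := by
    calc b ≤ b ⊓ ⨆ x, (E x ⊓ (II t E γ x)ᶜ) ⊓ ⨅ y, (E y ⊓ (II t E γ y)ᶜ) ⇨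
          (eqF x y ⊔ UU t (ltN x y)) := le_inf le_rfl h2
      _ ≤ P w := by
        rw [inf_iSup_eq]
        refine iSup_le fun x => ?_
        refine le_trans ?_ (hmax (tot x) (tot_fn x))
        set q : B := b ⊓ ((E x ⊓ (II t E γ x)ᶜ) ⊓ ⨅ y, (E y ⊓ (II t E γ y)ᶜ) ⇨
          (eqF x y ⊔ UU t (ltN x y))) with hq
        have hqb : q ≤ b := inf_le_left
        have hqE : q ≤ E x := inf_le_right.trans (inf_le_left.trans inf_le_left)
        have hqC : q ≤ (II t E γ x)ᶜ := inf_le_right.trans (inf_le_left.trans inf_le_right)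
        have hfn : q ≤ fnV x := by
          have : b ≤ E x ⇨ fnV x := hb1.trans (inf_le_left.trans (iInf_le _ x))
          exact (le_inf (hqb.trans this) hqE).trans (by rw [himp_inf_self]; exact inf_le_left)
        have hqt : q ≤ eqF x (tot x) := hfn.trans (fnV_le_eqF_tot x)
        refine le_inf (le_inf ?_ ?_) (le_iInf fun y => ?_)
        · exact (le_inf hqt hqE).trans (hE _ _)
        · exact (le_inf hqt hqC).trans (hcong _ _)
        · rw [le_himp_iff]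
          have h4 : q ≤ (E y.1 ⊓ (II t E γ y.1)ᶜ) ⇨ (eqF x y.1 ⊔ UU t (ltN x y.1)) :=
            inf_le_right.trans (inf_le_right.trans (iInf_le _ y.1))
          have h5 : q ⊓ (E y.1 ⊓ (II t E γ y.1)ᶜ) ≤ eqF x y.1 ⊔ UU t (ltN x y.1) :=
            (inf_le_inf_right _ h4).trans (by rw [himp_inf_self]; exact inf_le_left)
          have h6 : q ⊓ (E y.1 ⊓ (II t E γ y.1)ᶜ) ≤ eqF x (tot x) := inf_le_left.trans hqt
          refine (le_inf h6 h5).trans ?_
          rw [inf_sup_left]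
          refine sup_le ?_ ?_
          · refine le_trans ?_ ((bfil_UU t).eqF_le (tot x) y.1)
            exact (inf_le_inf_right _ (eqF_symm _ _)).trans (eqF_trans _ _ _)
          · have h7 : eqF x (tot x) ⊓ UU t (ltN x y.1) ≤ UU t (ltN (tot x) y.1) := by
              apply (bfil_UU t).lin0
              intro n
              rw [ltN_eq, ltN_eq, Pi.compl_apply, Pi.compl_apply, le_compl_iff_disjoint_right,
                disjoint_iff]
              refine le_bot_iff.1 ?_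
              rw [← inf_compl_eq_bot (a := leN y.1 x n)]
              refine le_inf ?_ (inf_le_left.trans inf_le_right)
              refine le_trans ?_ (eqF_leN_right y.1 (tot x) x n)
              exact inf_le_inf_right _ (inf_le_left.trans (eqF_symm _ _))
            refine h7.trans ((bfil_UU t).mono fun n => ?_)
            rw [ltN_eq, Pi.compl_apply]
            exact leN_total y.2.mono (tot_fn x).mono n
  refine ⟨w, hw, h3.trans (inf_le_left.trans inf_le_left),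
    h3.trans (inf_le_left.trans inf_le_right), fun y hy => ?_⟩
  have h4 : b ≤ (E y ⊓ (II t E γ y)ᶜ) ⇨ UU t (leN w y) :=
    h3.trans (inf_le_right.trans (iInf_le _ (⟨y, hy⟩ : {y : ℕ → ℕ → B // IsFn univ y})))
  rw [inf_assoc]
  exact (inf_le_inf_right _ h4).trans (by rw [himp_inf_self]; exact inf_le_left)

/-- On `linV`, `≤` is antisymmetric on `E`. -/
theorem lin_antisymm (hκ : κ.IsRegular) (h0 : ℵ₀ < κ) {b : B} (hb1 : b ≤ linV (UU t) E)
    (x y : ℕ → ℕ → B) :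
    b ⊓ (E x ⊓ E y) ⊓ (UU t (leN x y) ⊓ UU t (leN y x)) ≤ eqF x y := by
  have hd := dec_UU t hκ h0
  have h1 : b ≤ (E x ⊓ E y) ⇨ (eqF x y ⊔ UU t (ltN x y) ⊔ UU t (ltN y x)) :=
    hb1.trans (inf_le_right.trans ((iInf_le _ x).trans (iInf_le _ y)))
  have h2 : b ⊓ (E x ⊓ E y) ≤ eqF x y ⊔ UU t (ltN x y) ⊔ UU t (ltN y x) :=
    (inf_le_inf_right _ h1).trans (by rw [himp_inf_self]; exact inf_le_left)
  rw [(bfil_UU t).ltN_eq hd, (bfil_UU t).ltN_eq hd] at h2
  refine (inf_le_inf_right _ h2).trans ?_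
  rw [inf_sup_right, inf_sup_right]
  refine sup_le (sup_le inf_le_left ?_) ?_
  · refine le_trans ?_ bot_le
    rw [← inf_compl_eq_bot (a := UU t (leN y x))]
    exact le_inf (inf_le_right.trans inf_le_right) inf_le_left
  · refine le_trans ?_ bot_le
    rw [← inf_compl_eq_bot (a := UU t (leN x y))]
    exact le_inf (inf_le_right.trans inf_le_left) inf_le_left

/-- Step (4): the minimal element is small. -/
theorem le_sm (hκ : κ.IsRegular) (h0 : ℵ₀ < κ) (hω : κ ^ ℵ₀ = κ) {b : B}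
    (hb1 : b ≤ linV (UU t) E) (γ : (Order.succ κ).ord.ToType) {w : ℕ → ℕ → B}
    (hw : IsFn univ w) (hwE : b ≤ E w)
    (hmin : ∀ y, IsFn univ y → b ⊓ E y ⊓ (II t E γ y)ᶜ ≤ UU t (leN w y)) : b ≤ sm t E w := by
  obtain ⟨δ, hδ⟩ := II_le_inR t E hκ h0 hω γ
  obtain ⟨ε, hε⟩ := exists_level t hκ h0 hw
  refine le_trans ?_ (le_iSup (fun δ => smA t E δ w) (max δ ε))
  refine le_iInf fun x => ?_
  rw [le_himp_iff]
  set q : B := b ⊓ (E x.1 ⊓ UU t (leN x.1 w)) with hq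
  have h1 : q ⊓ II t E γ x.1 ≤ inR t (max δ ε) x.1 := by
    refine le_trans ?_ ((hδ x.1 x.2).trans (inR_mono t (le_max_left δ ε) x.1))
    exact inf_le_inf_right _ (inf_le_right.trans inf_le_left)
  have h2 : q ⊓ (II t E γ x.1)ᶜ ≤ inR t (max δ ε) x.1 := by
    have h3 : q ⊓ (II t E γ x.1)ᶜ ≤ UU t (leN w x.1) := by
      refine le_trans ?_ (hmin x.1 x.2)
      exact inf_le_inf_right _ (inf_le_inf_left _ inf_le_left)
    have h4 : q ⊓ (II t E γ x.1)ᶜ ≤ eqF x.1 w := by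
      refine le_trans ?_ (lin_antisymm t E hκ h0 hb1 x.1 w)
      refine le_inf (le_inf (inf_le_left.trans inf_le_left) (le_inf ?_ ?_)) (le_inf ?_ h3)
      · exact inf_le_left.trans (inf_le_right.trans inf_le_left)
      · exact inf_le_left.trans (inf_le_left.trans hwE)
      · exact inf_le_left.trans (inf_le_right.trans inf_le_right)
    refine h4.trans ?_
    exact le_iSup (fun z : K.Fn (t.A (max δ ε)) => eqF x.1 z.1)
      ⟨w, t.mono_Fn (le_max_right δ ε) hε⟩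
  calc q = (q ⊓ II t E γ x.1) ⊔ (q ⊓ (II t E γ x.1)ᶜ) := by
        rw [← inf_sup_left, sup_compl_eq_top, inf_top_eq]
    _ ≤ _ := sup_le h1 h2

/-- At closure points, families of fewer than `κ` names come from one smaller level. -/
theorem family_level (h0 : ℵ₀ < κ) {α : (Order.succ κ).ord.ToType}
    (hα : ∀ S : Set (Order.succ κ).ord.ToType, S ⊆ Iio α → #S < κ → ∃ β < α, ∀ s ∈ S, s < β)
    {L : Set (ℕ → ℕ → B)} (hL : L ⊆ K.Fn (t.A α)) (hL' : #L < κ) :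
    ∃ γ < α, L ⊆ K.Fn (t.A γ) := by
  have hseq : ∀ u : ULift.{u} ℕ → (Order.succ κ).ord.ToType, (∀ n, u n < α) →
      ∃ β < α, ∀ n, u n < β := by
    intro u hu
    obtain ⟨β, hβ, h⟩ := hα (range u) (by rintro _ ⟨n, rfl⟩; exact hu n)
      (mk_range_le.trans_lt ((Cardinal.mk_le_aleph0_iff.2 inferInstance).trans_lt h0))
    exact ⟨β, hβ, fun n => h _ (mem_range_self n)⟩
  have hA : t.A α = ⋃ β ∈ Iio α, t.A β := by
    apply t.cont α
    intro u hu
    obtain ⟨β, hβ, h⟩ := hseq (fun n => u n.down) (fun n => hu _)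
    exact ⟨β, hβ, fun n => h ⟨n⟩⟩
  -- single values
  have h1 : ∀ b ∈ K.S (t.A α), ∃ β < α, b ∈ K.S (t.A β) := by
    intro b hb
    obtain ⟨D, hD1, hD2, hD3⟩ := K.csupp _ b hb
    have h2 : ∀ e : D, ∃ β < α, e.1 ∈ t.A β := by
      intro e
      have := hD1 e.2
      rw [hA] at this
      simp only [mem_iUnion, mem_Iio, exists_prop] at this
      exact this
    choose r hr1 hr2 using h2
    obtain ⟨β, hβ, h⟩ := hα (range r) (by rintro _ ⟨n, rfl⟩; exact hr1 n)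
      (mk_range_le.trans_lt ((Cardinal.le_aleph0_iff_set_countable.2 hD2).trans_lt h0))
    refine ⟨β, hβ, K.mono _ _ (fun e he => ?_) hD3⟩
    exact t.mono_A (h _ (mem_range_self ⟨e, he⟩)).le (hr2 ⟨e, he⟩)
  have h2 : ∀ l : L, ∃ β < α, l.1 ∈ K.Fn (t.A β) := by
    intro l
    choose r hr1 hr2 using fun p : ℕ × ℕ => h1 (l.1 p.1 p.2) ((hL l.2).mem p.1 p.2)
    obtain ⟨β, hβ, h⟩ := hα (range fun p : ULift.{u} (ℕ × ℕ) => r p.down)
      (by rintro _ ⟨n, rfl⟩; exact hr1 _)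
      (mk_range_le.trans_lt ((Cardinal.mk_le_aleph0_iff.2 inferInstance).trans_lt h0))
    refine ⟨β, hβ, fun n k => ?_, (hL l.2).mono, (hL l.2).tot⟩
    exact t.mono_S (h _ (mem_range_self ⟨(n, k)⟩)).le (hr2 (n, k))
  choose r hr1 hr2 using h2
  obtain ⟨β, hβ, h⟩ := hα (range r) (by rintro _ ⟨n, rfl⟩; exact hr1 _)
    (mk_range_le.trans_lt hL')
  exact ⟨β, hβ, fun l hl => t.mono_Fn (h _ (mem_range_self ⟨l, hl⟩)).le (hr2 ⟨l, hl⟩)⟩

theorem core (hκ : κ.IsRegular) (h0 : ℵ₀ < κ) (hω : κ ^ ℵ₀ = κ) (E : (ℕ → ℕ → B) → B)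
    (hE : IsFam E) (F : (ℕ → ℕ → B) → (ℕ → ℕ → B)) (hF : IsMap F) :
    linV (UU t) E ⊓ wfV (UU t) E ⊓ ontoV E F = ⊥ := by
  set b : B := linV (UU t) E ⊓ wfV (UU t) E ⊓ ontoV E F with hb
  have hb1 : b ≤ linV (UU t) E := inf_le_left.trans inf_le_left
  have hb3 : b ≤ wfV (UU t) E := inf_le_left.trans inf_le_right
  have hb2 : b ≤ ontoV E F := inf_le_right
  choose w hw hwE hwI hmin using exists_minimal t E F hκ h0 hω hE hF hb1 hb3 hb2
  choose h hh using fun γ => exists_level t hκ h0 (hw γ)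
  obtain ⟨α, hα1, hα2⟩ := exists_closed hκ h
  obtain ⟨β, hβ⟩ := bdd_range hκ (ι := ULift.{u} Bool)
    ((Cardinal.mk_le_aleph0_iff.2 inferInstance).trans h0.le)
    (fun i => if i.down then α else h α)
  have hβ1 : α < β := by simpa using hβ ⟨true⟩
  have hβ2 : h α < β := by simpa using hβ ⟨false⟩
  have hwβ : w α ∈ K.Fn (t.A β) := t.mono_Fn hβ2.le (hh α)
  obtain ⟨L, hL1, hL2, hL3⟩ := (t.ext α β hβ1).good (w α) hwβ
  obtain ⟨γ, hγ, hLγ⟩ := family_level t h0 hα2 hL1 hL2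
  have hwγ : w γ ∈ K.Fn (t.A α) := t.mono_Fn (hα1 γ hγ).le (hh γ)
  have hS : IsSub (K.S (t.A β)) := K.sub _
  have hup : ∀ {l}, l ∈ K.Fn (t.A α) → l ∈ K.Fn (t.A β) := fun hl => t.mono_Fn hβ1.le hl
  have heq : ∀ {x y : ℕ → ℕ → B}, x ∈ K.Fn (t.A β) → y ∈ K.Fn (t.A β) →
      t.F β (leN x y) = UU t (leN x y) := fun hx hy =>
    (UU_of_mem t (isNm_leN hS hx.mem hy.mem)).symm
  have h1 : UU t (leN (w γ) (w α)) ≤ ⨆ l : ℕ → ℕ → B, ⨆ _ : l ∈ L,
      UU t (leN (w γ) l) ⊓ UU t (leN l (w α)) := by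
    have h2 := hL3 (w γ) hwγ
    rw [heq (hup hwγ) hwβ] at h2
    refine h2.trans (iSup_mono fun l => iSup_mono fun hl => ?_)
    rw [heq (hup hwγ) (hup (hL1 hl)), heq (hup (hL1 hl)) hwβ]
  have h2 : b ≤ UU t (leN (w γ) (w α)) := by
    refine le_trans ?_ (hmin γ (w α) (hw α))
    refine le_inf (le_inf le_rfl (hwE α)) ((hwI α).trans ?_)
    exact compl_le_compl (II_mono t E hγ.le (w α))
  have h3 : b ≤ sm t E (w α) := le_sm t E hκ h0 hω hb1 α (hw α) (hwE α) (hmin α)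
  refine le_bot_iff.1 ?_
  calc b ≤ b ⊓ ⨆ l : ℕ → ℕ → B, ⨆ _ : l ∈ L, UU t (leN (w γ) l) ⊓ UU t (leN l (w α)) :=
        le_inf le_rfl (h2.trans h1)
    _ ≤ ⊥ := by
      rw [inf_iSup_eq]
      refine iSup_le fun l => ?_
      rw [inf_iSup_eq]
      refine iSup_le fun hl => ?_
      rw [← inf_compl_eq_bot (a := II t E γ (w γ))]
      refine le_inf ?_ (inf_le_left.trans (hwI γ))
      refine le_trans ?_ (le_iSup (fun y : K.Fn (t.A γ) => sm t E y.1 ⊓ UU t (leN (w γ) y.1))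
        ⟨l, hLγ hl⟩)
      refine le_inf ?_ (inf_le_right.trans inf_le_left)
      refine le_trans ?_ (sm_down t E (w α) l)
      exact le_inf (inf_le_left.trans h3) (inf_le_right.trans inf_le_right)

end Core

end Pool.Agent.Helper95.CU
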