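import Pool.Agent.Helper33.HM.Names
import Pool.Agent.Helper33.HM.RO

/-!
# Project CU: names of filters over a Cohen algebra

`B` is a complete Boolean algebra. A name of a set of natural numbers is a function `X : ℕ → B`, a
name of a function is `g : ℕ → ℕ → B` with `g n k` the value of `g(n) ≤ k` (`IsFn`).
-/

set_option autoImplicit false

namespace Pool.Agent.Helper95.CU

open Pool.Agent.Helper33.HM Cardinal

universe u

section Basic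

variable {B : Type u} [CompleteBooleanAlgebra B]

/-- `X` is a name, with values in `S`, of a set of natural numbers. -/
def IsNm (S : Set B) (X : ℕ → B) : Prop := ∀ n, X n ∈ S

/-- The value of: `a(n) ≤ g(n)`. -/
def leN (a g : ℕ → ℕ → B) : ℕ → B := fun n => ⨅ k, g n k ⇨ a n k

/-- The domain of a name of a function which need not be total. -/
def dm (g : ℕ → ℕ → B) : ℕ → B := fun n => ⨆ k, g n k

/-- `Φ` is a name of a proper filter which contains the cofinite sets. -/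
structure BFil (Φ : (ℕ → B) → B) : Prop where
  lin : ∀ (b : B) (X Y : ℕ → B) (m : ℕ), (∀ n, m ≤ n → b ⊓ X n ≤ Y n) → b ⊓ Φ X ≤ Φ Y
  inf : ∀ X Y, Φ X ⊓ Φ Y ≤ Φ (X ⊓ Y)
  top : Φ ⊤ = ⊤
  bot : Φ ⊥ = ⊥

/-- `Φ` is generated by the names with values in `S`. -/
def GenBy (S : Set B) (Φ : (ℕ → B) → B) : Prop :=
  ∀ X, Φ X ≤ ⨆ Z : ℕ → B, ⨆ _ : IsNm S Z, Φ Z ⊓ ⨅ n, (Z n ⇨ X n)

/-- The extension of the filter `Φ` by the set `Y`. -/
def adj (Φ : (ℕ → B) → B) (Y : ℕ → B) : (ℕ → B) → B := fun X => Φ (Y ⇨ X)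

/-- The cut of `f` over `N` has a cofinal family of size `< κ`. -/
def GoodAt (κ : Cardinal.{u}) (N : Set (ℕ → ℕ → B)) (Φ : (ℕ → B) → B) (f : ℕ → ℕ → B) : Prop :=
  ∃ L : Set (ℕ → ℕ → B), L ⊆ N ∧ #L < κ ∧
    ∀ a ∈ N, Φ (leN a f) ≤ ⨆ l : ℕ → ℕ → B, ⨆ _ : l ∈ L, Φ (leN a l) ⊓ Φ (leN l f)

/-- All cuts of partial names of functions with positive domain are good. -/
def Inv (κ : Cardinal.{u}) (N : Set (ℕ → ℕ → B)) (Φ : (ℕ → B) → B) : Prop :=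
  ∀ g : ℕ → ℕ → B, (∀ n k, g n k ≤ g n (k + 1)) → Φ (dm g)ᶜ = ⊥ → GoodAt κ N Φ g

end Basic

/-- A complete Boolean algebra with supports in `Λ`, like the algebra for adding Cohen reals
`c e`, `e ∈ Λ`. -/
structure Coh (κ : Cardinal.{u}) (Λ : Type u) (B : Type u) [CompleteBooleanAlgebra B] where
  /-- the elements supported by a set -/
  S : Set Λ → Set B
  sub : ∀ A, IsSub (S A)
  mono : ∀ A A', A ⊆ A' → S A ⊆ S A'
  top : ∀ b, b ∈ S Set.univ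
  emp : ∀ b ∈ S ∅, b = ⊥ ∨ b = ⊤
  nt : (⊥ : B) ≠ ⊤
  ccc : CCC B
  csupp : ∀ A, ∀ b ∈ S A, ∃ D ⊆ A, D.Countable ∧ b ∈ S D
  dense : ∀ D : Set Λ, D.Countable → ∃ p : ℕ → B, (∀ m, p m ∈ S D) ∧
    ∀ A, ∀ x ∈ S (A ∪ D), x ≠ ⊥ → ∃ m, ∃ b ∈ S A, b ⊓ p m ≠ ⊥ ∧ b ⊓ p m ≤ x
  /-- the Cohen reals -/
  c : Λ → ℕ → B
  c_mem : ∀ e n, c e n ∈ S {e}
  ind : ∀ A e, e ∉ A → ∀ b ∈ S A, b ≠ ⊥ → ∀ τ : List Bool, b ⊓ cyl (c e) τ ≠ ⊥
  cden : ∀ A e, ∀ x ∈ S (insert e A), x ≠ ⊥ →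
    ∃ b ∈ S A, ∃ τ : List Bool, b ⊓ cyl (c e) τ ≠ ⊥ ∧ b ⊓ cyl (c e) τ ≤ x
  card_le : ∀ A : Set Λ, #A ≤ κ → #(S A) ≤ κ
  card : #Λ = Order.succ κ

section Levels

variable {κ : Cardinal.{u}} {Λ : Type u} {B : Type u} [CompleteBooleanAlgebra B]

/-- Names of functions with values supported by `A`. -/
def Coh.Fn (K : Coh κ Λ B) (A : Set Λ) : Set (ℕ → ℕ → B) := {f | IsFn (K.S A) f}

/-- `Φ` is a name of a filter which is generated by an ultrafilter of the model of the names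
supported by `A`. -/
structure Lev (K : Coh κ Λ B) (A : Set Λ) (Φ : (ℕ → B) → B) : Prop where
  fil : BFil Φ
  gen : GenBy (K.S A) Φ
  mem : ∀ Z, IsNm (K.S A) Z → Φ Z ∈ K.S A
  dec : ∀ Z, IsNm (K.S A) Z → Φ Z ⊔ Φ Zᶜ = ⊤

/-- The relation between two levels. -/
structure Ext (K : Coh κ Λ B) (A : Set Λ) (Φ : (ℕ → B) → B) (A' : Set Λ) (Φ' : (ℕ → B) → B) :
    Prop where
  sub : A ⊆ A'
  le : ∀ X, Φ X ≤ Φ' X
  good : ∀ f ∈ K.Fn A', GoodAt κ (K.Fn A) Φ' f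

end Levels

end Pool.Agent.Helper95.CU
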