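import Pool.Agent.Helper95.CU.Defs

/-!
# Project CU: filters
-/

set_option autoImplicit false

namespace Pool.Agent.Helper95.CU

open Pool.Agent.Helper33.HM Cardinal Set

universe u

section Fil

variable {B : Type u} [CompleteBooleanAlgebra B] {Φ : (ℕ → B) → B} {S : Set B}

theorem BFil.lin0 (h : BFil Φ) {b : B} {X Y : ℕ → B} (hXY : ∀ n, b ⊓ X n ≤ Y n) :
    b ⊓ Φ X ≤ Φ Y := h.lin b X Y 0 fun n _ => hXY n

theorem BFil.mono (h : BFil Φ) {X Y : ℕ → B} (hXY : ∀ n, X n ≤ Y n) : Φ X ≤ Φ Y := by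
  have := h.lin0 (b := ⊤) (X := X) (Y := Y) fun n => by rw [top_inf_eq]; exact hXY n
  rwa [top_inf_eq] at this

theorem BFil.le_of (h : BFil Φ) {b : B} {Y : ℕ → B} (m : ℕ) (hY : ∀ n, m ≤ n → b ≤ Y n) :
    b ≤ Φ Y := by
  have := h.lin b ⊤ Y m fun n hn => inf_le_left.trans (hY n hn)
  rwa [h.top, inf_top_eq] at this

theorem BFil.inf_compl (h : BFil Φ) (X : ℕ → B) : Φ X ⊓ Φ Xᶜ = ⊥ := by
  have := h.inf X Xᶜ
  rw [inf_compl_self, h.bot] at this
  exact le_bot_iff.mp this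

theorem BFil.adj (h : BFil Φ) {Y : ℕ → B} (hY : Φ Yᶜ = ⊥) : BFil (adj Φ Y) where
  lin b X X' m hX := by
    refine h.lin b (Y ⇨ X) (Y ⇨ X') m fun n hn => ?_
    rw [Pi.himp_apply, Pi.himp_apply, le_himp_iff, inf_assoc]
    refine le_trans (inf_le_inf_left _ ?_) (hX n hn)
    exact himp_inf_le
  inf X X' := by
    have := h.inf (Y ⇨ X) (Y ⇨ X')
    rw [← himp_inf_distrib] at this
    exact this
  top := by
    change Φ (Y ⇨ ⊤) = ⊤
    rw [himp_top, h.top]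
  bot := by
    change Φ (Y ⇨ ⊥) = ⊥
    rw [himp_bot, hY]

theorem BFil.le_adj (h : BFil Φ) (X Y : ℕ → B) : Φ X ≤ CU.adj Φ Y X :=
  h.mono fun n => by
    rw [Pi.himp_apply]
    exact le_himp

theorem BFil.iSup {ι : Type u} [Nonempty ι] {F : ι → (ℕ → B) → B} (h : ∀ i, BFil (F i))
    (hd : ∀ i j, ∃ k, (∀ X, F i X ≤ F k X) ∧ ∀ X, F j X ≤ F k X) :
    BFil (fun X => ⨆ i, F i X) where
  lin b X Y m hX := by
    rw [inf_iSup_eq]
    exact iSup_mono fun i => (h i).lin b X Y m hX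
  inf X Y := by
    rw [iSup_inf_eq]
    refine iSup_le fun i => ?_
    rw [inf_iSup_eq]
    refine iSup_le fun j => ?_
    obtain ⟨k, hi, hj⟩ := hd i j
    exact (inf_le_inf (hi X) (hj Y)).trans (((h k).inf X Y).trans (le_iSup (fun i => F i (X ⊓ Y)) k))
  top := by
    obtain ⟨i⟩ := ‹Nonempty ι›
    refine le_antisymm le_top ?_
    rw [← (h i).top]
    exact le_iSup (fun i => F i ⊤) i
  bot := by
    refine le_bot_iff.mp (iSup_le fun i => ?_)
    rw [(h i).bot]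

theorem GenBy.adj (hS : IsSub S) (hΦ : BFil Φ) (h : GenBy S Φ) {Y : ℕ → B} (hY : IsNm S Y) :
    GenBy S (adj Φ Y) := by
  intro X
  refine (h (Y ⇨ X)).trans (iSup_le fun Z => iSup_le fun hZ => ?_)
  refine le_iSup_of_le (Z ⊓ Y) (le_iSup_of_le (fun n => hS.inf_mem (hZ n) (hY n)) ?_)
  refine inf_le_inf (hΦ.mono fun n => ?_) (iInf_mono fun n => ?_)
  · rw [Pi.himp_apply, Pi.inf_apply, le_himp_iff]
  · rw [Pi.himp_apply, Pi.inf_apply, himp_himp]

theorem GenBy.iSup {ι : Type u} {F : ι → (ℕ → B) → B} (h : ∀ i, GenBy S (F i)) :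
    GenBy S (fun X => ⨆ i, F i X) := by
  intro X
  refine iSup_le fun i => (h i X).trans (iSup_mono fun Z => iSup_mono fun _ => ?_)
  exact inf_le_inf_right _ (le_iSup (fun i => F i Z) i)

theorem GenBy.mono {S' : Set B} (h : GenBy S Φ) (hS : S ⊆ S') : GenBy S' Φ := fun X =>
  (h X).trans (iSup_mono fun _ => iSup_le fun hZ =>
    le_iSup_of_le (fun n => hS (hZ n)) le_rfl)

/-- values of a filter generated by names in `S` -/
theorem GenBy.mem {S' : Set B} (h : GenBy S Φ) (hΦ : BFil Φ) (hS : S ⊆ S') (hS' : IsSub S')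
    (hm : ∀ Z, IsNm S Z → Φ Z ∈ S) : ∀ Z, IsNm S' Z → Φ Z ∈ S' := by
  intro X hX
  have he : Φ X = ⨆ Z : ℕ → B, ⨆ _ : IsNm S Z, Φ Z ⊓ ⨅ n, (Z n ⇨ X n) := by
    refine le_antisymm (h X) (iSup_le fun Z => iSup_le fun _ => ?_)
    rw [inf_comm]
    refine hΦ.lin0 fun n => ?_
    refine le_trans (inf_le_inf_right _ (iInf_le _ n)) ?_
    exact himp_inf_le
  rw [he]
  refine hS'.iSup_mem fun Z => hS'.iSup_mem fun hZ => hS'.inf_mem (hS (hm Z hZ)) ?_
  exact hS'.iInf_mem fun n => hS'.himp_mem (hS (hZ n)) (hX n)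

variable {a b c : ℕ → ℕ → B}

theorem leN_self (a : ℕ → ℕ → B) (n : ℕ) : leN a a n = ⊤ := by
  simp [leN]

theorem leN_trans (a b c : ℕ → ℕ → B) (n : ℕ) : leN a b n ⊓ leN b c n ≤ leN a c n := by
  refine le_iInf fun k => ?_
  refine le_trans (inf_le_inf (iInf_le _ k) (iInf_le _ k)) ?_
  rw [inf_comm]
  exact himp_triangle _ _ _

theorem leN_total (ha : ∀ n k, a n k ≤ a n (k + 1)) (hb : ∀ n k, b n k ≤ b n (k + 1)) (n : ℕ) :
    (leN a b n)ᶜ ≤ leN b a n := by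
  have ha' : Monotone (a n) := monotone_nat_of_le_succ (ha n)
  have hb' : Monotone (b n) := monotone_nat_of_le_succ (hb n)
  unfold leN
  rw [compl_iInf]
  refine iSup_le fun k => le_iInf fun j => ?_
  rw [compl_himp, _root_.sdiff_eq, le_himp_iff]
  rcases le_total j k with hjk | hkj
  · have : b n k ⊓ (a n k)ᶜ ⊓ a n j ≤ ⊥ := by
      calc b n k ⊓ (a n k)ᶜ ⊓ a n j ≤ (a n k)ᶜ ⊓ a n k :=
            inf_le_inf inf_le_right (ha' hjk)
        _ = ⊥ := compl_inf_self _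
    exact this.trans bot_le
  · exact inf_le_left.trans (inf_le_left.trans (hb' hkj))

theorem isNm_leN (hS : IsSub S) (ha : ∀ n k, a n k ∈ S) (hb : ∀ n k, b n k ∈ S) :
    IsNm S (leN a b) := fun n => hS.iInf_mem fun k => hS.himp_mem (hb n k) (ha n k)

theorem BFil.le_trans (h : BFil Φ) (a b c : ℕ → ℕ → B) :
    Φ (leN a b) ⊓ Φ (leN b c) ≤ Φ (leN a c) :=
  (h.inf _ _).trans (h.mono fun n => leN_trans a b c n)

theorem BFil.le_refl (h : BFil Φ) (a : ℕ → ℕ → B) : Φ (leN a a) = ⊤ := by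
  have : leN a a = ⊤ := funext fun n => leN_self a n
  rw [this, h.top]

end Fil

end Pool.Agent.Helper95.CU
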