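import Mathlib

/-!
# Project CU, module Fin: the implication without lower bounds for the lengths fails
-/

set_option autoImplicit false

namespace Pool.Agent.Helper95.CU

open Cardinal Set

/-- The implication of Q1 without the hypothesis `2 ^ #ι < lam i`. -/
def Implication : Prop :=
    ∀ (ι : Type) (D : Ultrafilter ι) (B : ι → Type) [∀ i, BooleanAlgebra (B i)]
      (lam : ι → Cardinal.{0}),
      (∀ i, ℵ₀ ≤ lam i) →
      (∀ i, ∃ f : Set.Iio (lam i).ord → B i, StrictMono f) →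
      ∃ g : Set.Iio (Cardinal.mk (Quot (fun f h : (∀ i, Set.Iio (lam i).ord) =>
              {i | f i = h i} ∈ D))).ord → (∀ i, B i),
        ∀ α β, α < β → {i | g α i < g β i} ∈ D

/-- The algebra of the finite or cofinite sets of natural numbers. -/
def h91_FC : BooleanSubalgebra (Set ℕ) where
  carrier := {s | s.Finite ∨ sᶜ.Finite}
  supClosed' := by
    rintro s (hs | hs) t (ht | ht)
    · exact Or.inl (hs.union ht)
    · exact Or.inr (ht.subset (compl_subset_compl.2 subset_union_right))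
    · exact Or.inr (hs.subset (compl_subset_compl.2 subset_union_left))
    · exact Or.inr (hs.subset (compl_subset_compl.2 subset_union_left))
  infClosed' := by
    rintro s (hs | hs) t (ht | ht)
    · exact Or.inl (hs.subset inter_subset_left)
    · exact Or.inl (hs.subset inter_subset_left)
    · exact Or.inl (ht.subset inter_subset_right)
    · refine Or.inr ?_
      change (s ∩ t)ᶜ.Finite
      rw [compl_inter]
      exact hs.union ht
  compl_mem' := by
    rintro s (hs | hs)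
    · refine Or.inr ?_
      rw [compl_compl]
      exact hs
    · exact Or.inl hs
  bot_mem' := Or.inl finite_empty

theorem h91_strict : ∃ f : Set.Iio (ℵ₀ : Cardinal.{0}).ord → h91_FC, StrictMono f := by
  have hfin : ∀ α : Set.Iio (ℵ₀ : Cardinal.{0}).ord,
      {m : ℕ | (m : Ordinal.{0}) < α.1}.Finite := by
    intro α
    have h1 : α.1 < Ordinal.omega0 := lt_of_lt_of_eq α.2 ord_aleph0
    obtain ⟨n, hn⟩ := Ordinal.lt_omega0.1 h1
    refine (finite_Iio n).subset ?_
    intro m hm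
    rw [mem_ofPred_eq, hn] at hm
    exact_mod_cast hm
  refine ⟨fun α => ⟨{m : ℕ | (m : Ordinal.{0}) < α.1}, Or.inl (hfin α)⟩, ?_⟩
  intro α β hαβ
  have h1 : α.1 < Ordinal.omega0 := lt_of_lt_of_eq α.2 ord_aleph0
  obtain ⟨n, hn⟩ := Ordinal.lt_omega0.1 h1
  rw [← Subtype.coe_lt_coe]
  constructor
  · intro m (hm : (m : Ordinal.{0}) < α.1)
    exact lt_trans hm hαβ
  · intro hcon
    have h2 : n ∈ {m : ℕ | (m : Ordinal.{0}) < β.1} := by
      change (n : Ordinal.{0}) < β.1
      rw [← hn]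
      exact hαβ
    have h3 : (n : Ordinal.{0}) < α.1 := hcon h2
    rw [hn] at h3
    exact lt_irrefl _ h3

theorem h91_code {r s : ℕ → Bool} {m : ℕ} (h : r m ≠ s m) {n : ℕ} (hn : m < n) :
    Encodable.encode ((List.range n).map r) ≠ Encodable.encode ((List.range n).map s) := by
  intro h1
  have h2 := Encodable.encode_injective h1
  apply h
  exact List.map_inj_left.1 h2 m (List.mem_range.2 hn)

theorem h91_card (U : Ultrafilter ℕ) (hU : ∀ m : ℕ, {m}ᶜ ∈ U) :
    Cardinal.lift.{1, 0} (Cardinal.continuum.{0}) ≤ #(Quot (fun f h : (ℕ → Set.Iio (ℵ₀ : Cardinal.{0}).ord) =>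
      {i | f i = h i} ∈ U)) := by
  have e : Equivalence (fun f h : (ℕ → Set.Iio (ℵ₀ : Cardinal.{0}).ord) =>
      {i | f i = h i} ∈ U) :=
    { refl := fun f => Filter.univ_mem' fun _ => rfl
      symm := fun {f h} hfh => by
        refine Filter.mem_of_superset hfh ?_
        intro i hi
        exact Eq.symm hi
      trans := fun {f h k} h1 h2 => by
        refine Filter.mem_of_superset (Filter.inter_mem h1 h2) ?_
        rintro i ⟨hi, hj⟩
        exact Eq.trans hi hj }
  have hN : ∀ n : ℕ, (n : Ordinal.{0}) < (ℵ₀ : Cardinal.{0}).ord := by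
    intro n
    rw [ord_aleph0]
    exact Ordinal.natCast_lt_omega0 n
  have hF : Function.Injective (fun r : ℕ → Bool =>
      Quot.mk (fun f h : (ℕ → Set.Iio (ℵ₀ : Cardinal.{0}).ord) => {i | f i = h i} ∈ U)
        (fun n => (⟨(Encodable.encode ((List.range n).map r) : ℕ), hN _⟩ :
          Set.Iio (ℵ₀ : Cardinal.{0}).ord))) := by
    intro r s hrs
    by_contra hne
    obtain ⟨m, hm⟩ := Function.ne_iff.1 hne
    have h1 := (e.eqvGen_iff).1 (Quot.eqvGen_exact hrs)
    have h2 : ∀ k : ℕ, {n : ℕ | k ≤ n} ∈ U := by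
      intro k
      induction k with
      | zero => exact Filter.univ_mem' fun n => Nat.zero_le n
      | succ k ih =>
        refine Filter.mem_of_superset (Filter.inter_mem ih (hU k)) ?_
        rintro n ⟨h3, h4⟩
        have h3' : k ≤ n := h3
        have h4' : n ≠ k := h4
        change k + 1 ≤ n
        omega
    obtain ⟨n, h3, h4⟩ := U.nonempty_of_mem (Filter.inter_mem h1 (h2 (m + 1)))
    have h4' : m < n := h4
    have h5 : (⟨(Encodable.encode ((List.range n).map r) : ℕ), hN _⟩ :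
          Set.Iio (ℵ₀ : Cardinal.{0}).ord) = ⟨(Encodable.encode ((List.range n).map s) : ℕ), hN _⟩ :=
      h3
    have h6 := congrArg Subtype.val h5
    exact h91_code hm h4' (Nat.cast_injective (R := Ordinal.{0}) h6)
  have h := Cardinal.mk_le_of_injective
    (hF.comp (fun x y hxy => ULift.ext x y hxy : Function.Injective
      (fun x : ULift.{1} (ℕ → Bool) => x.down)))
  calc Cardinal.lift.{1, 0} (Cardinal.continuum.{0}) = #(ULift.{1} (ℕ → Bool)) := by
        rw [mk_uLift]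
        simp
    _ ≤ _ := h

/-- `n ↦` the number of the elements, modulo the ultrafilter. -/
theorem h91_finCase {U : Ultrafilter ℕ} {s t : ℕ → h91_FC}
    (h : {n | s n < t n} ∈ U) (ht : {n | (t n : Set ℕ).Finite} ∈ U) :
    {n | (s n : Set ℕ).ncard < (t n : Set ℕ).ncard} ∈ U := by
  refine Filter.mem_of_superset (Filter.inter_mem h ht) ?_
  rintro n ⟨h1, h2⟩
  exact Set.ncard_lt_ncard h1 h2

theorem not_implication (U : Ultrafilter ℕ) (hU : ∀ m : ℕ, {m}ᶜ ∈ U)
    (h : ¬ ∃ g : Set.Iio (Cardinal.continuum.{0}).ord → ℕ → ℕ, ∀ α β, α < β →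
      {n | g α n < g β n} ∈ U) : ¬ Implication := by
  intro hI
  obtain ⟨g, hg⟩ := hI ℕ U (fun _ => h91_FC) (fun _ => ℵ₀) (fun _ => le_rfl)
    (fun _ => h91_strict)
  have hc := h91_card U hU
  -- the sequence of length continuum
  have hl : ∀ α : Set.Iio (Cardinal.continuum.{0}).ord, Ordinal.lift.{1} α.1 <
      (#(Quot (fun f h : (ℕ → Set.Iio (ℵ₀ : Cardinal.{0}).ord) => {i | f i = h i} ∈ U))).ord := by
    intro α
    refine lt_of_lt_of_le ?_ (ord_le_ord.2 hc)
    rw [← lift_ord, Ordinal.lift_lt]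
    exact α.2
  let G : Set.Iio (Cardinal.continuum.{0}).ord → ℕ → h91_FC := fun α => g ⟨_, hl α⟩
  have hG : ∀ α β, α < β → {n | G α n < G β n} ∈ U := by
    intro α β hαβ
    refine hg _ _ ?_
    rw [← Subtype.coe_lt_coe, Ordinal.lift_lt]
    exact hαβ
  by_cases hA : ∀ α, {n | (G α n : Set ℕ).Finite} ∈ U
  · refine h ⟨fun α n => (G α n : Set ℕ).ncard, fun α β hαβ => ?_⟩
    exact h91_finCase (hG α β hαβ) (hA β)
  · push Not at hA
    obtain ⟨a, ha⟩ := hA
    have ha' : {n | ((G a n : Set ℕ)ᶜ).Finite} ∈ U := by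
      refine Filter.mem_of_superset (Ultrafilter.compl_mem_iff_notMem.2 ha) ?_
      intro n hn
      rcases (G a n).2 with h1 | h1
      · exact absurd h1 hn
      · exact h1
    have hadd : ∀ α : Set.Iio (Cardinal.continuum.{0}).ord,
        a.1 + α.1 < (Cardinal.continuum.{0}).ord := fun α =>
      Ordinal.isPrincipal_add_ord aleph0_le_continuum a.2 α.2
    refine h ⟨fun α n => ((G a n : Set ℕ)ᶜ).ncard -
      ((G ⟨a.1 + α.1, hadd α⟩ n : Set ℕ)ᶜ).ncard, fun α β hαβ => ?_⟩
    have h1 : {n | G a n ≤ G ⟨a.1 + α.1, hadd α⟩ n} ∈ U := by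
      rcases eq_or_ne α.1 0 with h0 | h0
      · have h2 : (⟨a.1 + α.1, hadd α⟩ : Set.Iio (Cardinal.continuum.{0}).ord) = a :=
          Subtype.ext (by change a.1 + α.1 = a.1; rw [h0, add_zero])
        rw [h2]
        exact Filter.univ_mem' fun n => le_refl (G a n)
      · refine Filter.mem_of_superset (hG a ⟨a.1 + α.1, hadd α⟩ ?_) ?_
        · rw [← Subtype.coe_lt_coe]
          exact lt_add_of_pos_right _ (pos_iff_ne_zero.2 h0)
        · intro n hn
          exact le_of_lt (show G a n < G ⟨a.1 + α.1, hadd α⟩ n from hn)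
    have h2 : {n | G ⟨a.1 + α.1, hadd α⟩ n < G ⟨a.1 + β.1, hadd β⟩ n} ∈ U := by
      refine hG _ _ ?_
      rw [← Subtype.coe_lt_coe]
      exact (add_lt_add_iff_left a.1).2 hαβ
    refine Filter.mem_of_superset (Filter.inter_mem ha' (Filter.inter_mem h1 h2)) ?_
    rintro n ⟨h3, h4, h5⟩
    have h3' : ((G a n : Set ℕ)ᶜ).Finite := h3
    have h4' : (G a n : Set ℕ) ⊆ (G ⟨a.1 + α.1, hadd α⟩ n : Set ℕ) := h4
    have h5' : (G ⟨a.1 + α.1, hadd α⟩ n : Set ℕ) ⊂ (G ⟨a.1 + β.1, hadd β⟩ n : Set ℕ) := h5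
    have h6 : ((G ⟨a.1 + α.1, hadd α⟩ n : Set ℕ)ᶜ).ncard ≤ ((G a n : Set ℕ)ᶜ).ncard :=
      Set.ncard_le_ncard (compl_subset_compl.2 h4') h3'
    have h7 : ((G ⟨a.1 + β.1, hadd β⟩ n : Set ℕ)ᶜ).ncard <
        ((G ⟨a.1 + α.1, hadd α⟩ n : Set ℕ)ᶜ).ncard :=
      Set.ncard_lt_ncard (compl_lt_compl_iff_lt.2 h5')
        (h3'.subset (compl_subset_compl.2 h4'))
    change ((G a n : Set ℕ)ᶜ).ncard - ((G ⟨a.1 + α.1, hadd α⟩ n : Set ℕ)ᶜ).ncard <
      ((G a n : Set ℕ)ᶜ).ncard - ((G ⟨a.1 + β.1, hadd β⟩ n : Set ℕ)ᶜ).ncard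
    omega

end Pool.Agent.Helper95.CU
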