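import Pool.Agent.Helper95.CU.Fil

/-!
# Project CU: the cofinality invariant
-/

set_option autoImplicit false

namespace Pool.Agent.Helper95.CU

open Pool.Agent.Helper33.HM Cardinal Set

universe u

section Inv

variable {κ : Cardinal.{u}} {B : Type u} [CompleteBooleanAlgebra B] {Φ : (ℕ → B) → B}
  {N : Set (ℕ → ℕ → B)}

theorem h37_himp_iInf {ι : Sort*} (a : B) (f : ι → B) : a ⇨ (⨅ i, f i) = ⨅ i, a ⇨ f i := by
  apply le_antisymm
  · exact le_iInf fun i => himp_le_himp_left (iInf_le _ i)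
  · rw [le_himp_iff]
    refine le_iInf fun i => ?_
    rw [← le_himp_iff]
    exact iInf_le _ i

theorem h37_leN_res (a g : ℕ → ℕ → B) (Y : ℕ → B) :
    leN a (fun n k => Y n ⊓ g n k) = Y ⇨ leN a g := by
  funext n
  change (⨅ k, (Y n ⊓ g n k) ⇨ a n k) = Y n ⇨ (⨅ k, g n k ⇨ a n k)
  rw [h37_himp_iInf]
  exact iInf_congr fun k => by rw [← himp_himp]

theorem h37_dm_res (g : ℕ → ℕ → B) (Y : ℕ → B) :
    (dm (fun n k => Y n ⊓ g n k))ᶜ = Y ⇨ (dm g)ᶜ := by
  funext n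
  change (⨆ k, Y n ⊓ g n k)ᶜ = Y n ⇨ (⨆ k, g n k)ᶜ
  rw [← inf_iSup_eq, compl_inf, himp_eq, sup_comm]

theorem Inv.adj (h : Inv κ N Φ) (hΦ : BFil Φ) {Y : ℕ → B} (hY : Φ Yᶜ = ⊥) :
    Inv κ N (adj Φ Y) := by
  intro g hg hdm
  obtain ⟨L, hLN, hL, hLa⟩ := h (fun n k => Y n ⊓ g n k)
    (fun n k => inf_le_inf_left _ (hg n k)) (by
      rw [h37_dm_res]
      exact hdm)
  refine ⟨L, hLN, hL, fun a ha => ?_⟩
  have h1 := hLa a ha
  rw [h37_leN_res] at h1
  refine le_trans h1 (iSup_mono fun l => iSup_mono fun _ => ?_)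
  rw [h37_leN_res]
  exact inf_le_inf_right _ (hΦ.le_adj _ _)

theorem Inv.iSup (hκ : κ.IsRegular) {ι : Type u} (hι : #ι < κ) {F : ι → (ℕ → B) → B}
    (h : ∀ i, Inv κ N (F i)) : Inv κ N (fun X => ⨆ i, F i X) := by
  intro g hg hdm
  have hdm' : ∀ i, F i (dm g)ᶜ = ⊥ := by
    intro i
    rw [← le_bot_iff, ← hdm]
    exact le_iSup (fun i => F i (dm g)ᶜ) i
  choose L hLN hL hLa using fun i => h i g hg (hdm' i)
  refine ⟨⋃ i, L i, Set.iUnion_subset hLN, ?_, fun a ha => ?_⟩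
  · exact (Cardinal.card_iUnion_lt_iff_forall_of_isRegular hκ hι).2 hL
  · refine iSup_le fun i => le_trans (hLa i a ha) ?_
    refine iSup_le fun l => iSup_le fun hl => ?_
    refine le_trans ?_ (le_iSup _ l)
    refine le_trans ?_ (le_iSup _ (Set.mem_iUnion.2 ⟨i, hl⟩))
    exact inf_le_inf (le_iSup (fun i => F i (leN a l)) i) (le_iSup (fun i => F i (leN l g)) i)

variable {Λ : Type u} (K : Coh κ Λ B)

theorem h37_countable_good {A : Set Λ} (h : Lev K A Φ) {g : ℕ → ℕ → B}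
    (hg : ∀ n k, g n k ≤ g n (k + 1))
    (hdm : Φ (dm g)ᶜ = ⊥) :
    ∃ L : Set (ℕ → ℕ → B), L ⊆ K.Fn A ∧ L.Countable ∧
      ∀ a ∈ K.Fn A, Φ (leN a g) ≤
        ⨆ l : ℕ → ℕ → B, ⨆ _ : l ∈ L, Φ (leN a l) ⊓ Φ (leN l g) := by
  have hS := K.sub A
  choose D hD1 hD2 hD3 using fun n k => K.csupp Set.univ (g n k) (K.top _)
  let E : Set Λ := ⋃ n, ⋃ k, D n k
  have hE : E.Countable := Set.countable_iUnion fun n => Set.countable_iUnion fun k => hD2 n k
  have hgE : ∀ n k, g n k ∈ K.S E := fun n k =>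
    K.mono _ _ (fun x hx => Set.mem_iUnion.2 ⟨n, Set.mem_iUnion.2 ⟨k, hx⟩⟩) (hD3 n k)
  obtain ⟨p, hpE, hp⟩ := K.dense E hE
  let J : ℕ → ℕ → B := fun m n => (⨆ j, proj (K.S A) (p m ⊓ g n j))ᶜ
  let l : ℕ → ℕ → ℕ → B := fun m n k => proj (K.S A) (p m ⊓ g n k) ⊔ J m n
  have hJ : ∀ m, IsNm (K.S A) (J m) := fun m n =>
    hS.compl_mem _ (hS.iSup_mem fun j => hS.proj_mem _)
  have hl : ∀ m, l m ∈ K.Fn A := by
    intro m
    refine ⟨fun n k => hS.sup_mem (hS.proj_mem _) (hJ m n), ?_, ?_⟩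
    · intro n k
      exact sup_le_sup_right (proj_mono _ (inf_le_inf_left _ (hg n k))) _
    · intro n
      change (⨆ k, proj (K.S A) (p m ⊓ g n k) ⊔ (⨆ j, proj (K.S A) (p m ⊓ g n j))ᶜ) = ⊤
      rw [← iSup_sup, sup_compl_eq_top]
  have h1 : ∀ m, p m ≤ Φ (J m)ᶜ := by
    intro m
    have h2 : ∀ n, p m ⊓ J m n ≤ (dm g)ᶜ n := by
      intro n
      change p m ⊓ J m n ≤ (⨆ k, g n k)ᶜ
      rw [le_compl_iff_disjoint_right, disjoint_iff_inf_le]
      have h3 : p m ⊓ (⨆ k, g n k) ≤ (J m n)ᶜ := by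
        rw [inf_iSup_eq]
        change (⨆ k, p m ⊓ g n k) ≤ (⨆ j, proj (K.S A) (p m ⊓ g n j))ᶜᶜ
        rw [compl_compl]
        exact iSup_mono fun k => le_proj _ _
      calc p m ⊓ J m n ⊓ (⨆ k, g n k) = (p m ⊓ (⨆ k, g n k)) ⊓ J m n := by
            rw [inf_assoc, inf_comm (J m n), ← inf_assoc]
        _ ≤ (J m n)ᶜ ⊓ J m n := inf_le_inf_right _ h3
        _ = ⊥ := compl_inf_eq_bot
    have h4 : p m ⊓ Φ (J m) = ⊥ := by
      rw [← le_bot_iff, ← hdm]
      exact h.fil.lin0 h2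
    calc p m = p m ⊓ (Φ (J m) ⊔ Φ (J m)ᶜ) := by rw [h.dec _ (hJ m), inf_top_eq]
      _ = p m ⊓ Φ (J m)ᶜ := by rw [inf_sup_left, h4, bot_sup_eq]
      _ ≤ _ := inf_le_right
  have h5 : ∀ m, p m ≤ Φ (leN (l m) g) := by
    intro m
    refine h.fil.le_of 0 fun n _ => ?_
    refine le_iInf fun k => ?_
    rw [le_himp_iff]
    exact le_trans (le_proj _ _) le_sup_left
  refine ⟨Set.range l, ?_, Set.countable_range l, fun a ha => ?_⟩
  · rintro _ ⟨m, rfl⟩
    exact hl m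
  · refine le_trans (h.gen _) (iSup_le fun Z => iSup_le fun hZ => ?_)
    have hT := K.sub (A ∪ E)
    have hAT : K.S A ⊆ K.S (A ∪ E) := K.mono _ _ Set.subset_union_left
    have hET : K.S E ⊆ K.S (A ∪ E) := K.mono _ _ Set.subset_union_right
    refine le_of_forall_meets_mem hT ?_ ?_ ?_
    · refine hT.inf_mem (hAT (h.mem Z hZ)) (hT.iInf_mem fun n => hT.himp_mem (hAT (hZ n)) ?_)
      exact hT.iInf_mem fun k => hT.himp_mem (hET (hgE n k)) (hAT (ha.mem n k))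
    · refine hT.iSup_mem fun l' => hT.iSup_mem fun hl' => hT.inf_mem ?_ ?_
      · refine hAT (h.mem _ (isNm_leN hS ha.mem ?_))
        obtain ⟨m, rfl⟩ := hl'
        exact (hl m).mem
      · refine h.gen.mem h.fil hAT hT h.mem _ (isNm_leN hT ?_ fun n k => hET (hgE n k))
        obtain ⟨m, rfl⟩ := hl'
        exact fun n k => hAT ((hl m).mem n k)
    · intro x hx hx0 hxle
      obtain ⟨m, b, hb, hb0, hbx⟩ := hp A x hx hx0
      have hbx' : b ⊓ p m ≤ Φ Z ⊓ ⨅ n, (Z n ⇨ leN a g n) := le_trans hbx hxle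
      have h6 : ∀ n, b ⊓ (Z ⊓ (J m)ᶜ) n ≤ leN a (l m) n := by
        intro n
        refine le_iInf fun k => ?_
        rw [le_himp_iff]
        have h7 : (b ⊓ Z n) ⊓ (p m ⊓ g n k) ≤ a n k := by
          have h8 : b ⊓ p m ≤ Z n ⇨ (g n k ⇨ a n k) :=
            le_trans hbx' (le_trans inf_le_right (le_trans (iInf_le _ n)
              (himp_le_himp_left (iInf_le _ k))))
          rw [himp_himp, le_himp_iff] at h8
          refine le_trans (le_of_eq ?_) h8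
          ac_rfl
        have h9 : (b ⊓ Z n) ⊓ proj (K.S A) (p m ⊓ g n k) ≤ a n k := by
          rw [← hS.proj_inf (hS.inf_mem hb (hZ n))]
          exact hS.proj_le (ha.mem n k) h7
        change b ⊓ (Z n ⊓ (J m n)ᶜ) ⊓ (proj (K.S A) (p m ⊓ g n k) ⊔ J m n) ≤ a n k
        rw [inf_sup_left]
        refine sup_le ?_ ?_
        · refine le_trans ?_ h9
          exact inf_le_inf_right _ (inf_le_inf_left _ inf_le_left)
        · have : b ⊓ (Z n ⊓ (J m n)ᶜ) ⊓ J m n ≤ (J m n)ᶜ ⊓ J m n :=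
            inf_le_inf_right _ (le_trans inf_le_right inf_le_right)
          exact le_trans this (by rw [compl_inf_eq_bot]; exact bot_le)
      have h10 : b ⊓ p m ≤ Φ (leN a (l m)) := by
        refine le_trans ?_ (h.fil.lin0 h6)
        refine le_inf inf_le_left (le_trans ?_ (h.fil.inf _ _))
        exact le_inf (le_trans hbx' inf_le_left) (le_trans inf_le_right (h1 m))
      intro h11
      apply hb0
      rw [← le_bot_iff, ← h11]
      refine le_inf hbx (le_trans ?_ (le_iSup _ (l m)))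
      refine le_trans ?_ (le_iSup _ (Set.mem_range_self m))
      exact le_inf h10 (le_trans inf_le_right (h5 m))

theorem Lev.inv (h0 : ℵ₀ < κ) {A : Set Λ} (h : Lev K A Φ) : Inv κ (K.Fn A) Φ := by
  intro g hg hdm
  obtain ⟨L, hL1, hL2, hL3⟩ := h37_countable_good K h hg hdm
  exact ⟨L, hL1, lt_of_le_of_lt hL2.le_aleph0 h0, hL3⟩

theorem inv_chain (hκ : κ.IsRegular) (h0 : ℵ₀ < κ) {A : ℕ → Set Λ} {F : ℕ → (ℕ → B) → B}
    (h : ∀ n, Lev K (A n) (F n)) (hA : ∀ n, A n ⊆ A (n + 1)) (hF : ∀ n X, F n X ≤ F (n + 1) X) :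
    Inv κ (⋃ n, K.Fn (A n)) (fun X => ⨆ n, F n X) := by
  intro g hg hdm
  have hAm : Monotone A := monotone_nat_of_le_succ hA
  have hFm : ∀ X, Monotone fun n => F n X := fun X => monotone_nat_of_le_succ fun n => hF n X
  have hdm' : ∀ n, F n (dm g)ᶜ = ⊥ := by
    intro n
    rw [← le_bot_iff, ← hdm]
    exact le_iSup (fun n => F n (dm g)ᶜ) n
  choose L hL1 hL2 hL3 using fun n => h37_countable_good K (h n) hg (hdm' n)
  refine ⟨⋃ n, L n, Set.iUnion_mono hL1, ?_, fun a ha => ?_⟩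
  · exact lt_of_le_of_lt (Set.countable_iUnion hL2).le_aleph0 h0
  · obtain ⟨m, ham⟩ := Set.mem_iUnion.1 ha
    refine iSup_le fun n => ?_
    have ham' : a ∈ K.Fn (A (max m n)) :=
      ⟨fun i j => K.mono _ _ (hAm (le_max_left m n)) (ham.mem i j), ham.mono, ham.tot⟩
    refine le_trans (hFm _ (le_max_right m n)) (le_trans (hL3 (max m n) a ham') ?_)
    refine iSup_le fun l => iSup_le fun hl => ?_
    refine le_trans ?_ (le_iSup _ l)
    refine le_trans ?_ (le_iSup _ (Set.mem_iUnion.2 ⟨max m n, hl⟩))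
    exact inf_le_inf (le_iSup (fun n => F n (leN a l)) (max m n))
      (le_iSup (fun n => F n (leN l g)) (max m n))

end Inv

end Pool.Agent.Helper95.CU
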