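import Pool.Agent.Helper95.CU.Val

/-!
# The sentence in the two-valued case
-/

set_option autoImplicit false

namespace Pool.Agent.Helper95.CU

open Pool.Agent.Helper33.HM Set Cardinal

/-- The name of a function. -/
def h83_nm (v : ℕ → ℕ) : ℕ → ℕ → Prop := fun n k => v n ≤ k

theorem h83_nm_inj {v w : ℕ → ℕ} (h : h83_nm v = h83_nm w) : v = w := by
  funext n
  have h1 : ∀ k, v n ≤ k ↔ w n ≤ k := fun k => iff_of_eq (congrFun (congrFun h n) k)
  exact le_antisymm ((h1 _).2 le_rfl) ((h1 _).1 le_rfl)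

theorem h83_fnV (f : ℕ → ℕ → Prop) : fnV f ↔ ∀ n, (∃ k, f n k) ∧ ∀ k, f n k → f n (k + 1) := by
  simp only [fnV, iInf_Prop_eq, iSup_Prop_eq, inf_Prop_eq, himp_iff_imp]

theorem h83_fnV_nm (v : ℕ → ℕ) : fnV (h83_nm v) := by
  rw [h83_fnV]
  exact fun n => ⟨⟨v n, le_refl _⟩, fun k (h : v n ≤ k) => Nat.le_succ_of_le h⟩

theorem h83_exists_nm {f : ℕ → ℕ → Prop} (h : fnV f) : ∃ v, f = h83_nm v := by
  classical
  rw [h83_fnV] at h
  refine ⟨fun n => Nat.find (h n).1, ?_⟩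
  funext n k
  apply propext
  change f n k ↔ Nat.find (h n).1 ≤ k
  constructor
  · intro hk
    exact Nat.find_le hk
  · intro hk
    exact Nat.le_induction (Nat.find_spec (h n).1) (fun m _ hm => (h n).2 m hm) k hk

theorem h83_eqF (f g : ℕ → ℕ → Prop) : eqF f g ↔ f = g := by
  simp only [eqF, iInf_Prop_eq, iffV, inf_Prop_eq, himp_iff_imp]
  constructor
  · intro h
    funext n k
    exact propext ⟨(h n k).1, (h n k).2⟩
  · rintro rfl n k
    exact ⟨id, id⟩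

theorem h83_ltN (v w : ℕ → ℕ) : ltN (h83_nm v) (h83_nm w) = fun n => v n < w n := by
  funext n
  apply propext
  simp only [ltN, iSup_Prop_eq, inf_Prop_eq, compl_iff_not]
  constructor
  · rintro ⟨k, hk, hk'⟩
    exact lt_of_le_of_lt hk (not_le.1 hk')
  · intro h
    exact ⟨v n, le_refl _, not_le.2 h⟩

theorem h83_isFam (E : (ℕ → ℕ → Prop) → Prop) : IsFam E := by
  rintro x y ⟨h1, h2⟩
  rw [← (h83_eqF x y).1 h1]
  exact h2

theorem h83_isMap (F : (ℕ → ℕ → Prop) → (ℕ → ℕ → Prop)) : IsMap F := by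
  intro x y h
  rw [(h83_eqF x y).1 h]
  exact (h83_eqF _ _).2 rfl

theorem h83_isU (U : (ℕ → Prop) → Prop) : IsU U := by
  rintro x y ⟨h1, h2⟩
  have : x = y := by
    funext n
    simp only [iInf_Prop_eq, iffV, inf_Prop_eq, himp_iff_imp] at h1
    exact propext ⟨(h1 n).1, (h1 n).2⟩
  rw [← this]
  exact h2

theorem h83_ultraV (U : (ℕ → Prop) → Prop) : ultraV U ↔
    ¬ U (fun _ => False) ∧ (∀ m : ℕ, U (fun n => n ≠ m)) ∧
      (∀ x y : ℕ → Prop, U x → (∀ n, x n → y n) → U y) ∧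
      (∀ x y : ℕ → Prop, U x → U y → U (fun n => x n ∧ y n)) ∧
      ∀ x : ℕ → Prop, U x ∨ U (fun n => ¬ x n) := by
  have e1 : ∀ m : ℕ, (fun n => if n = m then (⊥ : Prop) else ⊤) = fun n => n ≠ m := by
    intro m
    funext n
    apply propext
    split_ifs with h
    · exact ⟨fun h' => h'.elim, fun h' => (h' h).elim⟩
    · exact ⟨fun _ => h, fun _ => trivial⟩
  simp only [ultraV, iInf_Prop_eq, inf_Prop_eq, sup_Prop_eq, himp_iff_imp, compl_iff_not, e1]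
  constructor
  · rintro ⟨⟨⟨⟨h1, h2⟩, h3⟩, h4⟩, h5⟩
    exact ⟨h1, h2, fun x y a b => h3 x y ⟨a, b⟩, fun x y a b => h4 x y ⟨a, b⟩, h5⟩
  · rintro ⟨h1, h2, h3, h4, h5⟩
    exact ⟨⟨⟨⟨h1, h2⟩, fun x y h => h3 x y h.1 h.2⟩, fun x y h => h4 x y h.1 h.2⟩, h5⟩

theorem h83_linV (U : (ℕ → Prop) → Prop) (E : (ℕ → ℕ → Prop) → Prop) : linV U E ↔
    (∀ x, E x → fnV x) ∧ ∀ x y, E x → E y → x = y ∨ U (ltN x y) ∨ U (ltN y x) := by
  simp only [linV, iInf_Prop_eq, inf_Prop_eq, sup_Prop_eq, himp_iff_imp, h83_eqF]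
  constructor
  · rintro ⟨h1, h2⟩
    exact ⟨h1, fun x y a b => or_assoc.1 (h2 x y ⟨a, b⟩)⟩
  · rintro ⟨h1, h2⟩
    exact ⟨h1, fun x y h => or_assoc.2 (h2 x y h.1 h.2)⟩

theorem h83_wfV (U : (ℕ → Prop) → Prop) (E : (ℕ → ℕ → Prop) → Prop) : wfV U E ↔
    ∀ C : (ℕ → ℕ → Prop) → Prop, (∃ x, E x ∧ C x) →
      ∃ x, (E x ∧ C x) ∧ ∀ y, E y → C y → x = y ∨ U (ltN x y) := by
  simp only [wfV, iInf_Prop_eq, iSup_Prop_eq, inf_Prop_eq, sup_Prop_eq, himp_iff_imp, h83_eqF]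
  constructor
  · intro h C hC
    obtain ⟨x, h1, h2⟩ := h C (h83_isFam C) hC
    exact ⟨x, h1, fun y a b => h2 y ⟨a, b⟩⟩
  · intro h C _ hC
    obtain ⟨x, h1, h2⟩ := h C hC
    exact ⟨x, h1, fun y hy => h2 y hy.1 hy.2⟩

theorem h83_ontoV (E : (ℕ → ℕ → Prop) → Prop) (F : (ℕ → ℕ → Prop) → (ℕ → ℕ → Prop)) :
    ontoV E F ↔ ∀ y, fnV y → ∃ x, E x ∧ F x = y := by
  simp only [ontoV, iInf_Prop_eq, iSup_Prop_eq, inf_Prop_eq, himp_iff_imp, h83_eqF]

theorem h83_Val : Val Prop ↔ ∃ U : (ℕ → Prop) → Prop, ultraV U ∧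
    ∀ (E : (ℕ → ℕ → Prop) → Prop) (F : (ℕ → ℕ → Prop) → (ℕ → ℕ → Prop)),
      ¬ (linV U E ∧ wfV U E ∧ ontoV E F) := by
  simp only [Val, iInf_Prop_eq, iSup_Prop_eq, inf_Prop_eq, compl_iff_not]
  constructor
  · rintro ⟨U, _, h1, h2⟩
    exact ⟨U, h1, fun E F h => h2 E (h83_isFam E) F (h83_isMap F) ⟨⟨h.1, h.2.1⟩, h.2.2⟩⟩
  · rintro ⟨U, h1, h2⟩
    exact ⟨U, h83_isU U, h1, fun E _ F _ h => h2 E F ⟨h.1.1, h.1.2, h.2⟩⟩

theorem h83_card : #(ℕ → ℕ) = continuum.{0} := by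
  rw [← power_def, mk_nat, aleph0_power_aleph0]

/-- The ordinals below the continuum enumerate all functions. -/
theorem h83_enum : Nonempty (Iio (continuum.{0}).ord ≃ (ℕ → ℕ)) := by
  have h1 : #((continuum.{0}).ord.ToType) = #(ℕ → ℕ) := by
    rw [mk_ord_toType, h83_card]
  obtain ⟨e⟩ := Cardinal.eq.1 h1
  exact ⟨(Ordinal.ToType.mk.toEquiv).trans e⟩

theorem h83_forward (h : Val Prop) : ∃ U : Ultrafilter ℕ, (∀ m : ℕ, {m}ᶜ ∈ U) ∧
    ¬ ∃ g : Set.Iio (Cardinal.continuum.{0}).ord → ℕ → ℕ, ∀ α β, α < β →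
      {n | g α n < g β n} ∈ U := by
  classical
  obtain ⟨U, hU, hno⟩ := h83_Val.1 h
  have hU' := hU
  rw [h83_ultraV] at hU
  obtain ⟨h1, h2, h3, h4, h5⟩ := hU
  let f : Filter ℕ :=
    { sets := {s | U (fun n => n ∈ s)}
      univ_sets := h3 _ _ (h2 0) fun n _ => trivial
      sets_of_superset := fun {x y} hx hxy => h3 _ _ hx fun n hn => hxy hn
      inter_sets := fun {x y} hx hy => h4 _ _ hx hy }
  have hf : ∀ s : Set ℕ, s ∈ f ↔ U (fun n => n ∈ s) := fun s => Iff.rfl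
  have hc : ∀ s : Set ℕ, sᶜ ∉ f ↔ s ∈ f := by
    intro s
    rw [hf, hf]
    constructor
    · intro hs
      exact (h5 (fun n => n ∈ s)).resolve_right hs
    · intro hs hs'
      exact h1 (h3 _ _ (h4 _ _ hs hs') fun n hn => hn.2 hn.1)
  refine ⟨Ultrafilter.ofComplNotMemIff f hc, fun m => ?_, ?_⟩
  · change U (fun n => n ∈ ({m}ᶜ : Set ℕ))
    exact h3 _ _ (h2 m) fun n hn => hn
  rintro ⟨g, hg⟩
  have hg' : ∀ α β, α < β → U (fun n => g α n < g β n) := fun α β hαβ => hg α β hαβ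
  have hinj : ∀ α β, g α = g β → α = β := by
    intro α β hab
    rcases lt_trichotomy α β with hlt | heq | hgt
    · exact absurd (h3 _ _ (hg' α β hlt) fun n hn => by rw [hab] at hn; exact lt_irrefl _ hn) h1
    · exact heq
    · exact absurd (h3 _ _ (hg' β α hgt) fun n hn => by rw [hab] at hn; exact lt_irrefl _ hn) h1
  obtain ⟨e⟩ := h83_enum
  let E : (ℕ → ℕ → Prop) → Prop := fun x => ∃ α, x = h83_nm (g α)
  let F : (ℕ → ℕ → Prop) → (ℕ → ℕ → Prop) := fun x =>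
    if hx : ∃ α, x = h83_nm (g α) then h83_nm (e hx.choose) else x
  apply hno E F
  refine ⟨(h83_linV U E).2 ⟨?_, ?_⟩, (h83_wfV U E).2 ?_, (h83_ontoV E F).2 ?_⟩
  · rintro x ⟨α, rfl⟩
    exact h83_fnV_nm _
  · rintro x y ⟨α, rfl⟩ ⟨β, rfl⟩
    rw [h83_ltN, h83_ltN]
    rcases lt_trichotomy α β with hlt | heq | hgt
    · exact Or.inr (Or.inl (hg' α β hlt))
    · exact Or.inl (by rw [heq])
    · exact Or.inr (Or.inr (hg' β α hgt))
  · rintro C ⟨x, ⟨α, rfl⟩, hC⟩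
    obtain ⟨β, hβ, hmin⟩ := WellFounded.has_min
      (wellFounded_lt (α := Set.Iio (Cardinal.continuum.{0}).ord)) {β | C (h83_nm (g β))} ⟨α, hC⟩
    refine ⟨h83_nm (g β), ⟨⟨β, rfl⟩, hβ⟩, ?_⟩
    rintro y ⟨γ, rfl⟩ hγ
    rw [h83_ltN]
    rcases (not_lt.1 (hmin γ hγ)).lt_or_eq with hlt | heq
    · exact Or.inr (hg' β γ hlt)
    · exact Or.inl (by rw [heq])
  · intro y hy
    obtain ⟨v, rfl⟩ := h83_exists_nm hy
    refine ⟨h83_nm (g (e.symm v)), ⟨_, rfl⟩, ?_⟩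
    have hx : ∃ α, h83_nm (g (e.symm v)) = h83_nm (g α) := ⟨_, rfl⟩
    have hch : hx.choose = e.symm v := (hinj _ _ (h83_nm_inj hx.choose_spec)).symm
    change (if hx : ∃ α, h83_nm (g (e.symm v)) = h83_nm (g α) then h83_nm (e hx.choose) else
      h83_nm (g (e.symm v))) = h83_nm v
    rw [dif_pos hx, hch, e.apply_symm_apply]

theorem h83_backward (U : Ultrafilter ℕ) (hU : ∀ m : ℕ, {m}ᶜ ∈ U)
    (hno : ¬ ∃ g : Set.Iio (Cardinal.continuum.{0}).ord → ℕ → ℕ, ∀ α β, α < β →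
      {n | g α n < g β n} ∈ U) : Val Prop := by
  classical
  refine h83_Val.2 ⟨fun x => {n | x n} ∈ U, ?_, ?_⟩
  · rw [h83_ultraV]
    refine ⟨?_, fun m => ?_, fun x y hx hxy => ?_, fun x y hx hy => ?_, fun x => ?_⟩
    · intro h
      exact Ultrafilter.empty_notMem h
    · exact hU m
    · exact Filter.mem_of_superset hx hxy
    · exact Filter.inter_mem hx hy
    · exact Ultrafilter.mem_or_compl_mem U {n | x n}
  · rintro E F ⟨hl, hw, ho⟩
    rw [h83_linV] at hl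
    rw [h83_wfV] at hw
    rw [h83_ontoV] at ho
    obtain ⟨hl1, hl2⟩ := hl
    let T : Type := {x : ℕ → ℕ → Prop // E x}
    choose v hv using fun x : T => h83_exists_nm (hl1 x.1 x.2)
    let r : T → T → Prop := fun x y => {n | v x n < v y n} ∈ U
    have hr : ∀ x y : T, {n | (ltN x.1 y.1) n} ∈ U ↔ r x y := by
      intro x y
      rw [hv x, hv y, h83_ltN]
    have hirr : ∀ x, ¬ r x x := by
      intro x h
      have : {n | v x n < v x n} = (∅ : Set ℕ) := by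
        ext n
        simp
      change {n | v x n < v x n} ∈ U at h
      rw [this] at h
      exact Ultrafilter.empty_notMem h
    have hasym : ∀ x y, r x y → r y x → False := by
      intro x y h1 h2
      have h3 := Filter.inter_mem h1 h2
      obtain ⟨n, hn⟩ := Ultrafilter.nonempty_of_mem h3
      have h4 : v x n < v y n := hn.1
      have h5 : v y n < v x n := hn.2
      exact lt_asymm h4 h5
    have hwf : WellFounded r := by
      rw [WellFounded.wellFounded_iff_has_min]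
      intro s hs
      obtain ⟨x0, hx0⟩ := hs
      obtain ⟨x, ⟨hxE, hx, hxs⟩, hmin⟩ := hw (fun x => ∃ h : E x, (⟨x, h⟩ : T) ∈ s)
        ⟨x0.1, x0.2, x0.2, hx0⟩
      refine ⟨⟨x, hx⟩, hxs, fun y hy hyx => ?_⟩
      rcases hmin y.1 y.2 ⟨y.2, hy⟩ with h1 | h1
      · have h2 : (⟨x, hx⟩ : T) = y := Subtype.ext h1
        rw [h2] at hyx
        exact hirr _ hyx
      · exact hasym _ _ ((hr ⟨x, hx⟩ y).1 h1) hyx
    have htri : ∀ x y : T, ¬ r x y → ¬ r y x → x = y := by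
      intro x y h1 h2
      rcases hl2 x.1 y.1 x.2 y.2 with h | h | h
      · exact Subtype.ext h
      · exact absurd ((hr x y).1 h) h1
      · exact absurd ((hr y x).1 h) h2
    have : IsWellOrder T r := { wf := hwf, trichotomous := htri }
    have hcard : continuum.{0} ≤ #T := by
      rw [← h83_card]
      choose s hs1 hs2 using fun w : ℕ → ℕ => ho (h83_nm w) (h83_fnV_nm w)
      refine mk_le_of_injective (f := fun w => (⟨s w, hs1 w⟩ : T)) ?_
      intro w w' h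
      have h1 : s w = s w' := congrArg Subtype.val h
      have h2 : h83_nm w = h83_nm w' := by rw [← hs2 w, ← hs2 w', h1]
      exact h83_nm_inj h2
    have hle : (continuum.{0}).ord ≤ Ordinal.type r := by
      rw [ord_le, Ordinal.card_type]
      exact hcard
    apply hno
    refine ⟨fun α => v (Ordinal.enum r ⟨α.1, lt_of_lt_of_le α.2 hle⟩), fun α β hαβ => ?_⟩
    exact (Ordinal.enum_lt_enum (r := r) (o₁ := ⟨α.1, lt_of_lt_of_le α.2 hle⟩)
      (o₂ := ⟨β.1, lt_of_lt_of_le β.2 hle⟩)).2 hαβ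

theorem val_prop : Val Prop ↔ ∃ U : Ultrafilter ℕ, (∀ m : ℕ, {m}ᶜ ∈ U) ∧
    ¬ ∃ g : Set.Iio (Cardinal.continuum.{0}).ord → ℕ → ℕ, ∀ α β, α < β →
      {n | g α n < g β n} ∈ U :=
  ⟨h83_forward, fun ⟨U, hU, h⟩ => h83_backward U hU h⟩

end Pool.Agent.Helper95.CU
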