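import Pool.Agent.Helper95.CU.StepA
import Pool.Agent.Helper95.CU.Comp
import Pool.Agent.Helper95.CU.Inv

/-!
# Project CU, module Step: the next level
-/

set_option autoImplicit false

namespace Pool.Agent.Helper95.CU

open Pool.Agent.Helper33.HM Cardinal Set

universe u

section Step

variable {κ : Cardinal.{u}} {Λ B : Type u} [CompleteBooleanAlgebra B] (K : Coh κ Λ B)

theorem h59_inv (hκ : κ.IsRegular) {W : Type u} {Pw : (ℕ → B) → B} {N : Set (ℕ → ℕ → B)}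
    (hw : Inv κ N Pw) {P : W → (ℕ → B) → B} {Y : W → ℕ → B} (I : Set W) (hI : #I < κ)
    (hP : ∀ j ∈ I, BFil (P j)) (hi : ∀ j ∈ I, Inv κ N (P j)) (hY0 : ∀ j ∈ I, P j (Y j)ᶜ = ⊥) :
    Inv κ N (fun X => Pw X ⊔ ⨆ j : I, adj (P j) (Y j) X) := by
  rw [h59_opt I Pw fun j => adj (P j) (Y j)]
  refine Inv.iSup hκ ?_ ?_
  · rw [mk_option]
    exact add_lt_of_lt hκ.aleph0_le hI (one_lt_aleph0.trans_le hκ.aleph0_le)
  · rintro (_ | j)
    · exact hw
    · exact (hi j j.2).adj (hP j j.2) (hY0 j j.2)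

/-- The inner recursion. -/
theorem h59_rec (hκ : κ.IsRegular) {W : Type u} [LinearOrder W] [WellFoundedLT W]
    (hW : ∀ i : W, #(Iio i) < κ) {Aw : Set Λ} {Pw : (ℕ → B) → B} (hw : h59_Lv K Aw Pw)
    {N : Set (ℕ → ℕ → B)} (hN : N ⊆ K.Fn Aw) (hinv : Inv κ N Pw)
    (ht : ∀ a ∈ N, ∀ a' ∈ N, Pw (leN a a') ⊔ Pw (leN a' a) = ⊤)
    {C : W → Set Λ} {e : W → Λ} {f : W → ℕ → ℕ → B} (hC0 : ∀ i, Aw ⊆ C i)
    (hC : ∀ i j, j < i → insert (e j) (C j) ⊆ C i) (he : ∀ i, e i ∉ C i)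
    (hf : ∀ i, f i ∈ K.Fn (C i)) :
    ∃ (P : W → (ℕ → B) → B) (Y : W → ℕ → B),
      (∀ i, P i = fun X => Pw X ⊔ ⨆ j : Iio i, adj (P j) (Y j) X) ∧
      (∀ i, h59_Lv K (C i) (P i)) ∧ (∀ i, Inv κ N (P i)) ∧
      (∀ i, IsNm (K.S (insert (e i) (C i))) (Y i)) ∧ (∀ i, P i (Y i)ᶜ = ⊥) ∧
      ∀ i, ∀ a ∈ N, adj (P i) (Y i) (leN a (f i)) ⊔ adj (P i) (Y i) (leN a (f i))ᶜ = ⊤ := by
  classical
  let R : W → ((ℕ → B) → B) → (ℕ → B) → Prop := fun i Φ Y =>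
    IsNm (K.S (insert (e i) (C i))) Y ∧ Φ Yᶜ = ⊥ ∧
      ∀ a ∈ N, adj Φ Y (leN a (f i)) ⊔ adj Φ Y (leN a (f i))ᶜ = ⊤
  let yy : W → ((ℕ → B) → B) → ℕ → B := fun i Φ => if h : ∃ Y, R i Φ Y then h.choose else ⊤
  have hyy : ∀ i Φ, (∃ Y, R i Φ Y) → R i Φ (yy i Φ) := by
    intro i Φ h
    simp only [yy, dif_pos h]
    exact h.choose_spec
  let P : W → (ℕ → B) → B := (wellFounded_lt (α := W)).fix
    fun i ih X => Pw X ⊔ ⨆ j : Iio i, adj (ih j j.2) (yy j (ih j j.2)) X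
  have hPeq : ∀ i, P i = fun X => Pw X ⊔ ⨆ j : Iio i, adj (P j) (yy j (P j)) X := by
    intro i
    exact (wellFounded_lt (α := W)).fix_eq
      (fun i ih X => Pw X ⊔ ⨆ j : Iio i, adj (ih j j.2) (yy j (ih j j.2)) X) i
  have hle : ∀ i X, Pw X ≤ P i X := by
    intro i X
    rw [hPeq i]
    exact le_sup_left
  have hle2 : ∀ j i, j < i → ∀ X, adj (P j) (yy j (P j)) X ≤ P i X := by
    intro j i hji X
    rw [hPeq i]
    exact (le_iSup (fun j : Iio i => adj (P j) (yy j (P j)) X) ⟨j, hji⟩).trans le_sup_right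
  have hR : ∀ i, h59_Lv K (C i) (P i) → R i (P i) (yy i (P i)) := by
    intro i hi
    refine hyy i (P i) ?_
    refine completion (he i) hi.fil hi.gen hi.mem ?_ ?_ (hf i)
    · exact hN.trans (h59_fn_mono K (hC0 i))
    · intro a ha a' ha'
      apply top_le_iff.1
      rw [← ht a ha a' ha']
      exact sup_le_sup (hle i _) (hle i _)
  have hmain : ∀ i, h59_Lv K (C i) (P i) ∧ Inv κ N (P i) := by
    intro i
    induction i using WellFoundedLT.induction with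
    | ind i ih =>
      have hR' : ∀ j ∈ Iio i, R j (P j) (yy j (P j)) := fun j hj => hR j (ih j hj).1
      constructor
      · rw [hPeq i]
        exact h59_sup K hw (e := e) (C := C) (Iio i) (fun j hj => (ih j hj).1)
          (fun j hj => (hR' j hj).1) (fun j hj => (hR' j hj).2.1) (fun j _ => hle j)
          (fun j _ j' _ h => hle2 j j' h) (hC0 i) (fun j hj => hC i j hj)
      · rw [hPeq i]
        exact h59_inv hκ hinv (Iio i) (hW i) (fun j hj => (ih j hj).1.fil)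
          (fun j hj => (ih j hj).2) (fun j hj => (hR' j hj).2.1)
  exact ⟨P, fun i => yy i (P i), hPeq, fun i => (hmain i).1, fun i => (hmain i).2,
    fun i => (hR i (hmain i).1).1, fun i => (hR i (hmain i).1).2.1,
    fun i => (hR i (hmain i).1).2.2⟩

theorem step (hκ : κ.IsRegular) (h0 : ℵ₀ < κ) (hω : κ ^ ℵ₀ = κ) {A : ℕ → Set Λ}
    {F : ℕ → (ℕ → B) → B} (h : ∀ n, Lev K (A n) (F n)) (hc : ∀ n, #(A n) ≤ κ)
    (he : ∀ n, Ext K (A n) (F n) (A (n + 1)) (F (n + 1))) {T : Set Λ} (hT : #T ≤ κ) :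
    ∃ (A' : Set Λ) (Φ' : (ℕ → B) → B), #A' ≤ κ ∧ T ⊆ A' ∧ Lev K A' Φ' ∧
      ∀ n, Ext K (A n) (F n) A' Φ' := by
  classical
  have h0' : ℵ₀ ≤ κ := h0.le
  have hext : ∀ {n m : ℕ}, n ≤ m → Ext K (A n) (F n) (A m) (F m) := fun hnm =>
    h59_ext_le K hκ h he hnm
  -- the union
  obtain ⟨Aw, hAwdef⟩ : ∃ Aw : Set Λ, Aw = ⋃ n, A n := ⟨_, rfl⟩
  have hAn : ∀ n, A n ⊆ Aw := fun n => hAwdef ▸ subset_iUnion A n
  have hAw : #Aw ≤ κ := by
    have h1 := mk_iUnion_le_lift (f := A)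
    rw [lift_id', mk_nat, lift_aleph0, ← hAwdef] at h1
    refine h1.trans ?_
    calc ℵ₀ * ⨆ n, lift.{0} #(A n) ≤ κ * κ := by
          refine mul_le_mul' h0' (ciSup_le' fun n => ?_)
          rw [lift_uzero]
          exact hc n
      _ = κ := mul_eq_self h0'
  obtain ⟨Pw, hPwdef⟩ : ∃ Pw : (ℕ → B) → B, Pw = fun X => ⨆ n, F n X := ⟨_, rfl⟩
  have hPwn : ∀ n X, F n X ≤ Pw X := fun n X => by
    rw [hPwdef]
    exact le_iSup (fun n => F n X) n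
  have hw : h59_Lv K Aw Pw := by
    have h1 : Pw = fun X => ⨆ n : ULift.{u} ℕ, F n.down X := by
      rw [hPwdef]
      funext X
      rw [iSup_ulift]
    refine ⟨?_, ?_, ?_⟩
    · rw [h1]
      refine BFil.iSup (fun n => (h n.down).fil) fun n m => ?_
      exact ⟨⟨max n.down m.down⟩, (hext (le_max_left _ _)).le, (hext (le_max_right _ _)).le⟩
    · rw [h1]
      exact GenBy.iSup fun n => (h n.down).gen.mono (K.mono _ _ (hAn _))
    · intro Z hZ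
      rw [hPwdef]
      refine (K.sub _).iSup_mem fun n => ?_
      exact (h n).gen.mem (h n).fil (K.mono _ _ (hAn n)) (K.sub _) (h n).mem Z hZ
  obtain ⟨N, hNdef⟩ : ∃ N : Set (ℕ → ℕ → B), N = ⋃ n, K.Fn (A n) := ⟨_, rfl⟩
  have hNn : ∀ n, K.Fn (A n) ⊆ N := fun n => hNdef ▸ subset_iUnion (fun n => K.Fn (A n)) n
  have hNe : ∀ a ∈ N, ∃ n, a ∈ K.Fn (A n) := fun a ha => by
    rw [hNdef] at ha
    exact mem_iUnion.1 ha
  have hN : N ⊆ K.Fn Aw := fun a ha => by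
    obtain ⟨n, hn⟩ := hNe a ha
    exact h59_fn_mono K (hAn n) hn
  have hinv : Inv κ N Pw := by
    rw [hNdef, hPwdef]
    exact inv_chain K hκ h0 h (fun n => (he n).sub) fun n => (he n).le
  have hcomm : ∀ a ∈ N, ∀ a' ∈ N, ∃ n, a ∈ K.Fn (A n) ∧ a' ∈ K.Fn (A n) := by
    intro a ha a' ha'
    obtain ⟨n, hn⟩ := hNe a ha
    obtain ⟨m, hm⟩ := hNe a' ha'
    exact ⟨max n m, h59_fn_mono K (hext (le_max_left n m)).sub hn,
      h59_fn_mono K (hext (le_max_right n m)).sub hm⟩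
  have ht : ∀ a ∈ N, ∀ a' ∈ N, Pw (leN a a') ⊔ Pw (leN a' a) = ⊤ := by
    intro a ha a' ha'
    obtain ⟨n, hn, hn'⟩ := hcomm a ha a' ha'
    apply top_le_iff.1
    rw [← (h n).dec _ (h59_isNm K hn hn')]
    refine sup_le_sup (hPwn n _) (((h n).fil.mono fun k => ?_).trans (hPwn n _))
    exact leN_total hn.mono hn'.mono k
  -- the recursion
  obtain ⟨A', f, e, C, hA'c, hAA', hTA', hfs, hfC, hC0, hC, heC, hCA⟩ :=
    h59_fresh K hκ h0 hω hAw hT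
  obtain ⟨P, Y, hPeq, hPl, hPi, hYn, hY0, hYc⟩ :=
    h59_rec K hκ h59_Iio hw hN hinv ht hC0 hC heC hfC
  have hle : ∀ i X, Pw X ≤ P i X := by
    intro i X
    rw [hPeq i]
    exact le_sup_left
  have hle2 : ∀ j i, j < i → ∀ X, adj (P j) (Y j) X ≤ P i X := by
    intro j i hji X
    rw [hPeq i]
    exact (le_iSup (fun j : Iio i => adj (P j) (Y j) X) ⟨j, hji⟩).trans le_sup_right
  obtain ⟨Φ', hΦ'⟩ : ∃ Φ' : (ℕ → B) → B,
    Φ' = fun X => Pw X ⊔ ⨆ j : (univ : Set κ.ord.ToType), adj (P j) (Y j) X := ⟨_, rfl⟩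
  have hL : h59_Lv K A' Φ' := by
    rw [hΦ']
    exact h59_sup K hw (e := e) (C := C) univ (fun j _ => hPl j) (fun j _ => hYn j)
      (fun j _ => hY0 j) (fun j _ => hle j) (fun j _ j' _ hj => hle2 j j' hj) hAA'
      (fun j _ => hCA j)
  have hPΦ : ∀ i X, adj (P i) (Y i) X ≤ Φ' X := by
    intro i X
    rw [hΦ']
    exact (le_iSup (fun j : (univ : Set κ.ord.ToType) => adj (P j) (Y j) X)
      ⟨i, trivial⟩).trans le_sup_right
  have hFΦ : ∀ n X, F n X ≤ Φ' X := by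
    intro n X
    rw [hΦ']
    exact (hPwn n X).trans le_sup_left
  have hlev : Lev K A' Φ' := by
    refine ⟨hL.fil, hL.gen, hL.mem, fun Z hZ => ?_⟩
    obtain ⟨i, hi⟩ := hfs _ (h59_ch_mem K hZ)
    have h1 := hYc i h59_c1 (hNn 0 (h59_c1_mem K _))
    rw [hi, h59_leN_ch] at h1
    apply top_le_iff.1
    rw [← h1]
    exact sup_le_sup (hPΦ i _) (hPΦ i _)
  -- the cuts over `N`
  have hgN : ∀ g ∈ K.Fn A', GoodAt κ N Φ' g := by
    intro g hg
    obtain ⟨i, rfl⟩ := hfs g hg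
    have hdm : (dm (f i))ᶜ = ⊥ := by
      funext n
      show (⨆ k, f i n k)ᶜ = ⊥
      rw [hg.tot n, compl_top]
    have hfil : BFil (adj (P i) (Y i)) := (hPl i).fil.adj (hY0 i)
    obtain ⟨L, hLN, hLc, hLf⟩ := (hPi i).adj (hPl i).fil (hY0 i) (f i) hg.mono
      (by rw [hdm]; exact hfil.bot)
    refine ⟨L, hLN, hLc, fun a ha => ?_⟩
    have h1 : Φ' (leN a (f i)) ≤ adj (P i) (Y i) (leN a (f i)) := by
      have h2 : Φ' (leN a (f i)) ⊓ adj (P i) (Y i) (leN a (f i))ᶜ = ⊥ := by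
        apply le_bot_iff.1
        calc _ ≤ Φ' (leN a (f i)) ⊓ Φ' (leN a (f i))ᶜ := inf_le_inf_left _ (hPΦ i _)
          _ = ⊥ := hL.fil.inf_compl _
      calc Φ' (leN a (f i)) = Φ' (leN a (f i)) ⊓ (adj (P i) (Y i) (leN a (f i)) ⊔
            adj (P i) (Y i) (leN a (f i))ᶜ) := by rw [hYc i a ha, inf_top_eq]
        _ = Φ' (leN a (f i)) ⊓ adj (P i) (Y i) (leN a (f i)) := by
            rw [inf_sup_left, h2, sup_bot_eq]
        _ ≤ _ := inf_le_right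
    refine (h1.trans (hLf a ha)).trans ?_
    exact iSup₂_mono fun l _ => inf_le_inf (hPΦ i _) (hPΦ i _)
  refine ⟨A', Φ', hA'c, hTA', hlev, fun n => ⟨(hAn n).trans hAA', hFΦ n, fun g hg => ?_⟩⟩
  refine h59_good_trans hκ hL.fil (hgN g hg) (hNn n) fun l hl => ?_
  obtain ⟨m, hm⟩ := hNe l hl
  have hlm : l ∈ K.Fn (A (max n m)) := h59_fn_mono K (hext (le_max_right n m)).sub hm
  exact h59_good_lift K (h (max n m)) hL.fil (hFΦ _)
    (h59_fn_mono K (hext (le_max_left n m)).sub) hlm ((hext (le_max_left n m)).good l hlm)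

end Step

end Pool.Agent.Helper95.CU
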