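import Pool.Agent.Helper95.CU.Fil

/-!
# Project CU, module Step, first part: comparisons of levels, fresh coordinates
-/

set_option autoImplicit false

namespace Pool.Agent.Helper95.CU

open Pool.Agent.Helper33.HM Cardinal Set

universe u

section Step

variable {κ : Cardinal.{u}} {Λ B : Type u} [CompleteBooleanAlgebra B] (K : Coh κ Λ B)

theorem h59_fn_mono {A A' : Set Λ} (h : A ⊆ A') : K.Fn A ⊆ K.Fn A' := by
  intro f hf
  exact ⟨fun n k => K.mono _ _ h (hf.mem n k), hf.mono, hf.tot⟩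

/-- The values of a level on its names do not change in larger filters. -/
theorem h59_eq {A : Set Λ} {Φ Φ' : (ℕ → B) → B} (h : Lev K A Φ) (h' : BFil Φ')
    (hle : ∀ X, Φ X ≤ Φ' X) {Z : ℕ → B} (hZ : IsNm (K.S A) Z) : Φ' Z = Φ Z := by
  apply le_antisymm _ (hle Z)
  have h1 : Φ' Z ⊓ Φ Zᶜ = ⊥ := by
    apply le_bot_iff.1
    calc Φ' Z ⊓ Φ Zᶜ ≤ Φ' Z ⊓ Φ' Zᶜ := inf_le_inf_left _ (hle _)
      _ = ⊥ := h'.inf_compl Z
  calc Φ' Z = Φ' Z ⊓ (Φ Z ⊔ Φ Zᶜ) := by rw [h.dec Z hZ, inf_top_eq]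
    _ = Φ' Z ⊓ Φ Z := by rw [inf_sup_left, h1, sup_bot_eq]
    _ ≤ Φ Z := inf_le_right

theorem h59_isNm {A : Set Λ} {a b : ℕ → ℕ → B} (ha : a ∈ K.Fn A) (hb : b ∈ K.Fn A) :
    IsNm (K.S A) (leN a b) := isNm_leN (K.sub A) ha.mem hb.mem

theorem h59_good_self (hκ : κ.IsRegular) {N : Set (ℕ → ℕ → B)} {Φ : (ℕ → B) → B} (h : BFil Φ)
    {f : ℕ → ℕ → B} (hf : f ∈ N) : GoodAt κ N Φ f := by
  refine ⟨{f}, by simpa using hf, ?_, ?_⟩
  · rw [mk_singleton]
    exact one_lt_aleph0.trans_le hκ.aleph0_le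
  · intro a _
    refine le_iSup₂_of_le f rfl ?_
    rw [h.le_refl f, inf_top_eq]

theorem h59_good_trans (hκ : κ.IsRegular) {N N' : Set (ℕ → ℕ → B)} {Φ : (ℕ → B) → B}
    (h : BFil Φ) {f : ℕ → ℕ → B} (h1 : GoodAt κ N' Φ f) (hN : N ⊆ N')
    (h2 : ∀ l ∈ N', GoodAt κ N Φ l) : GoodAt κ N Φ f := by
  classical
  obtain ⟨L, hL, hLc, hLf⟩ := h1
  choose! M hM hMc hMf using h2
  refine ⟨⋃ l : L, M l, ?_, ?_, ?_⟩
  · exact iUnion_subset fun l => hM l (hL l.2)
  · exact (card_iUnion_lt_iff_forall_of_isRegular hκ hLc).2 fun l => hMc l (hL l.2)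
  · intro a ha
    refine (hLf a (hN ha)).trans ?_
    refine iSup₂_le fun l hl => ?_
    refine (inf_le_inf_right _ (hMf l (hL hl) a ha)).trans ?_
    rw [iSup₂_inf_eq]
    refine iSup₂_le fun m hm => ?_
    refine le_iSup₂_of_le m (mem_iUnion.2 ⟨⟨l, hl⟩, hm⟩) ?_
    rw [inf_assoc]
    exact inf_le_inf_left _ (h.le_trans m l f)

theorem h59_good_lift {A : Set Λ} {Φ Φ' : (ℕ → B) → B} (h : Lev K A Φ) (h' : BFil Φ')
    (hle : ∀ X, Φ X ≤ Φ' X) {N : Set (ℕ → ℕ → B)} (hN : N ⊆ K.Fn A) {l : ℕ → ℕ → B}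
    (hl : l ∈ K.Fn A) (hg : GoodAt κ N Φ l) : GoodAt κ N Φ' l := by
  obtain ⟨L, hL, hLc, hLf⟩ := hg
  refine ⟨L, hL, hLc, fun a ha => ?_⟩
  rw [h59_eq K h h' hle (h59_isNm K (hN ha) hl)]
  refine (hLf a ha).trans ?_
  exact iSup₂_mono fun m _ => inf_le_inf (hle _) (hle _)

theorem Ext.refl (hκ : κ.IsRegular) {A : Set Λ} {Φ : (ℕ → B) → B} (h : Lev K A Φ) :
    Ext K A Φ A Φ :=
  ⟨Subset.rfl, fun _ => le_rfl, fun _ hf => h59_good_self hκ h.fil hf⟩

theorem Ext.trans (hκ : κ.IsRegular) {A A' A'' : Set Λ} {Φ Φ' Φ'' : (ℕ → B) → B}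
    (h : Lev K A Φ) (h' : Lev K A' Φ') (h'' : Lev K A'' Φ'')
    (h1 : Ext K A Φ A' Φ') (h2 : Ext K A' Φ' A'' Φ'') : Ext K A Φ A'' Φ'' := by
  have _ := h
  refine ⟨h1.sub.trans h2.sub, fun X => (h1.le X).trans (h2.le X), fun f hf => ?_⟩
  refine h59_good_trans hκ h''.fil (h2.good f hf) (h59_fn_mono K h1.sub) fun l hl => ?_
  exact h59_good_lift K h' h''.fil h2.le (h59_fn_mono K h1.sub) hl (h1.good l hl)

theorem card_fn (hκ : κ.IsRegular) (hω : κ ^ ℵ₀ = κ) {A : Set Λ} (hA : #A ≤ κ) :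
    #(K.Fn A) ≤ κ := by
  have _ := hκ
  have h1 : Function.Injective (fun f : K.Fn A => fun p : ULift.{u} (ℕ × ℕ) =>
      (⟨f.1 p.down.1 p.down.2, f.2.mem _ _⟩ : K.S A)) := by
    intro f g hfg
    apply Subtype.ext
    funext n k
    have := congrFun hfg ⟨(n, k)⟩
    exact congrArg Subtype.val this
  calc #(K.Fn A) ≤ #(ULift.{u} (ℕ × ℕ) → K.S A) := mk_le_of_injective h1
    _ = #(K.S A) ^ (ℵ₀ : Cardinal.{u}) := by
        rw [← power_def]
        simp
    _ ≤ κ ^ (ℵ₀ : Cardinal.{u}) := power_le_power_right (K.card_le A hA)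
    _ = κ := hω

/-- The properties kept by the inner recursion. -/
structure h59_Lv (C : Set Λ) (Φ : (ℕ → B) → B) : Prop where
  fil : BFil Φ
  gen : GenBy (K.S C) Φ
  mem : ∀ Z, IsNm (K.S C) Z → Φ Z ∈ K.S C

theorem h59_Lv.mem_of {C C' : Set Λ} {Φ : (ℕ → B) → B} (h : h59_Lv K C Φ) (hC : C ⊆ C')
    {Z : ℕ → B} (hZ : IsNm (K.S C') Z) : Φ Z ∈ K.S C' :=
  h.gen.mem h.fil (K.mono _ _ hC) (K.sub _) h.mem Z hZ

theorem h59_opt {W : Type u} (I : Set W) (P : (ℕ → B) → B) (Q : W → (ℕ → B) → B) :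
    (fun X => P X ⊔ ⨆ j : I, Q j X) = fun X => ⨆ o : Option I, (Option.elim o P fun j => Q j) X := by
  funext X
  rw [iSup_option]
  rfl

theorem h59_sup {W : Type u} [LinearOrder W] {Aw : Set Λ} {Pw : (ℕ → B) → B}
    (hw : h59_Lv K Aw Pw) {P : W → (ℕ → B) → B} {Y : W → ℕ → B} {C : W → Set Λ} {e : W → Λ}
    (I : Set W) (hP : ∀ j ∈ I, h59_Lv K (C j) (P j))
    (hY : ∀ j ∈ I, IsNm (K.S (insert (e j) (C j))) (Y j))
    (hY0 : ∀ j ∈ I, P j (Y j)ᶜ = ⊥) (hle : ∀ j ∈ I, ∀ X, Pw X ≤ P j X)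
    (hle2 : ∀ j ∈ I, ∀ j' ∈ I, j < j' → ∀ X, adj (P j) (Y j) X ≤ P j' X) {C' : Set Λ}
    (hC0 : Aw ⊆ C') (hC : ∀ j ∈ I, insert (e j) (C j) ⊆ C') :
    h59_Lv K C' (fun X => Pw X ⊔ ⨆ j : I, adj (P j) (Y j) X) := by
  have hadj : ∀ j ∈ I, ∀ X, P j X ≤ adj (P j) (Y j) X := fun j hj X => (hP j hj).fil.le_adj X (Y j)
  refine ⟨?_, ?_, ?_⟩
  · rw [h59_opt I Pw fun j => adj (P j) (Y j)]
    refine BFil.iSup ?_ ?_
    · rintro (_ | j)
      · exact hw.fil
      · exact (hP j j.2).fil.adj (hY0 j j.2)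
    · rintro (_ | j) (_ | j')
      · exact ⟨none, fun _ => le_rfl, fun _ => le_rfl⟩
      · exact ⟨some j', fun X => (hle j' j'.2 X).trans (hadj j' j'.2 X), fun _ => le_rfl⟩
      · exact ⟨some j, fun _ => le_rfl, fun X => (hle j j.2 X).trans (hadj j j.2 X)⟩
      · rcases lt_trichotomy (j : W) j' with h | h | h
        · exact ⟨some j', fun X => (hle2 j j.2 j' j'.2 h X).trans (hadj j' j'.2 X),
            fun _ => le_rfl⟩
        · have : j = j' := Subtype.ext h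
          subst this
          exact ⟨some j, fun _ => le_rfl, fun _ => le_rfl⟩
        · exact ⟨some j, fun _ => le_rfl,
            fun X => (hle2 j' j'.2 j j.2 h X).trans (hadj j j.2 X)⟩
  · rw [h59_opt I Pw fun j => adj (P j) (Y j)]
    refine GenBy.iSup ?_
    rintro (_ | j)
    · exact hw.gen.mono (K.mono _ _ hC0)
    · refine (GenBy.adj (K.sub _) (hP j j.2).fil
        ((hP j j.2).gen.mono (K.mono _ _ (subset_insert _ _))) (hY j j.2)).mono ?_
      exact K.mono _ _ (hC j j.2)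
  · intro Z hZ
    refine (K.sub _).sup_mem (hw.mem_of K hC0 hZ) ((K.sub _).iSup_mem fun j => ?_)
    refine (hP j j.2).mem_of K ((subset_insert _ _).trans (hC j j.2)) fun n => ?_
    exact (K.sub _).himp_mem (K.mono _ _ (hC j j.2) (hY j j.2 n)) (hZ n)

theorem h59_Iio (i : κ.ord.ToType) : #(Iio i) < κ := by
  have h1 := mk_Iio_lt i (by simp)
  rwa [mk_ord_toType] at h1

/-- The combinatorial part: fresh coordinates. -/
theorem h59_fresh (hκ : κ.IsRegular) (h0 : ℵ₀ < κ) (hω : κ ^ ℵ₀ = κ) {Aw T : Set Λ}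
    (hAw : #Aw ≤ κ) (hT : #T ≤ κ) :
    ∃ (A' : Set Λ) (f : κ.ord.ToType → ℕ → ℕ → B) (e : κ.ord.ToType → Λ)
      (C : κ.ord.ToType → Set Λ), #A' ≤ κ ∧ Aw ⊆ A' ∧ T ⊆ A' ∧ (∀ g ∈ K.Fn A', ∃ i, f i = g) ∧
      (∀ i, f i ∈ K.Fn (C i)) ∧ (∀ i, Aw ⊆ C i) ∧ (∀ i j, j < i → insert (e j) (C j) ⊆ C i) ∧
      (∀ i, e i ∉ C i) ∧ (∀ i, insert (e i) (C i) ⊆ A') := by
  classical
  have h0' : ℵ₀ ≤ κ := h0.le
  have hU : #(Aw ∪ T : Set Λ) ≤ κ := by
    refine (mk_union_le _ _).trans ?_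
    calc #Aw + #T ≤ κ + κ := add_le_add hAw hT
      _ = κ := add_eq_self h0'
  have hinf : Infinite Λ := by
    rw [infinite_iff, K.card]
    exact h0'.trans (Order.le_succ κ)
  have hcompl : #((Aw ∪ T)ᶜ : Set Λ) = Order.succ κ := by
    rw [mk_compl_of_infinite, K.card]
    rw [K.card]
    exact hU.trans_lt (Order.lt_succ κ)
  have hKt : #κ.ord.ToType = κ := mk_ord_toType κ
  obtain ⟨φ⟩ : Nonempty (κ.ord.ToType × κ.ord.ToType ↪ ((Aw ∪ T)ᶜ : Set Λ)) := by
    rw [← le_def, hcompl, mk_prod, lift_id, hKt, mul_eq_self h0']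
    exact Order.le_succ κ
  set A' : Set Λ := Aw ∪ T ∪ range (fun p => (φ p : Λ)) with hA'
  have hA'c : #A' ≤ κ := by
    refine (mk_union_le _ _).trans ?_
    calc #(Aw ∪ T : Set Λ) + #(range (fun p => (φ p : Λ))) ≤ κ + κ := by
          refine add_le_add hU (mk_range_le.trans ?_)
          rw [mk_prod, lift_id, hKt, mul_eq_self h0']
      _ = κ := add_eq_self h0'
  have hone : (fun _ _ => ⊤ : ℕ → ℕ → B) ∈ K.Fn A' :=
    ⟨fun _ _ => (K.sub _).top_mem, fun _ _ => le_rfl, fun _ => by simp⟩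
  have hne : Nonempty (K.Fn A') := ⟨⟨_, hone⟩⟩
  obtain ⟨g⟩ : Nonempty (K.Fn A' ↪ κ.ord.ToType) := by
    rw [← le_def, hKt]
    exact card_fn K hκ hω hA'c
  have hgs : Function.Surjective (Function.invFun g) := Function.invFun_surjective g.injective
  let f : κ.ord.ToType → ℕ → ℕ → B := fun i => (Function.invFun g i : K.Fn A')
  have hfA : ∀ i, f i ∈ K.Fn A' := fun i => (Function.invFun g i : K.Fn A').2
  -- countable supports
  have hs : ∀ i, ∃ s : Set Λ, s ⊆ A' ∧ s.Countable ∧ f i ∈ K.Fn s := by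
    intro i
    have h1 : ∀ n k, ∃ D ⊆ A', D.Countable ∧ f i n k ∈ K.S D := fun n k =>
      K.csupp A' _ ((hfA i).mem n k)
    choose D hD hDc hDm using h1
    refine ⟨⋃ n, ⋃ k, D n k, iUnion_subset fun n => iUnion_subset fun k => hD n k,
      countable_iUnion fun n => countable_iUnion fun k => hDc n k, ?_, (hfA i).mono, (hfA i).tot⟩
    intro n k
    exact K.mono _ _ ((subset_iUnion (fun k => D n k) k).trans
      (subset_iUnion (fun n => ⋃ k, D n k) n)) (hDm n k)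
  choose s hsA hsc hsf using hs
  have hIic : ∀ i : κ.ord.ToType, #(Iic i) < κ := by
    intro i
    have h3 : #(Iic i) ≤ #(Iio i) + 1 := by
      rw [← Set.Iio_insert]
      exact mk_insert_le
    refine h3.trans_lt (add_lt_of_lt h0' ?_ (one_lt_aleph0.trans_le h0'))
    exact h59_Iio i
  have ht : ∀ i, ∃ t, (φ (i, t) : Λ) ∉ ⋃ j : Iic i, s j := by
    intro i
    by_contra hcon
    push Not at hcon
    have h1 : #(⋃ j : Iic i, s j : Set Λ) < κ := by
      refine (card_iUnion_lt_iff_forall_of_isRegular hκ (hIic i)).2 fun j => ?_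
      exact (hsc j).le_aleph0.trans_lt h0
    have h2 : κ ≤ #(⋃ j : Iic i, s j : Set Λ) := by
      calc κ = #κ.ord.ToType := hKt.symm
        _ ≤ #(⋃ j : Iic i, s j : Set Λ) :=
          mk_le_of_injective (f := fun t => (⟨(φ (i, t) : Λ), hcon t⟩ : (⋃ j : Iic i, s j : Set Λ)))
            (by
              intro t t' htt
              have h3 : (φ (i, t) : Λ) = φ (i, t') := (Subtype.mk.inj htt : _)
              have h4 := φ.injective (Subtype.ext h3)
              exact (Prod.mk.inj h4).2)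
    exact absurd h2 (not_le.2 h1)
  choose t ht using ht
  let e : κ.ord.ToType → Λ := fun i => φ (i, t i)
  let C : κ.ord.ToType → Set Λ := fun i => Aw ∪ e '' Iio i ∪ ⋃ j : Iic i, s j
  refine ⟨A', f, e, C, hA'c, ?_, ?_, ?_, ?_, ?_, ?_, ?_, ?_⟩
  · exact subset_union_left.trans subset_union_left
  · exact subset_union_right.trans subset_union_left
  · intro g' hg'
    obtain ⟨i, hi⟩ := hgs ⟨g', hg'⟩
    exact ⟨i, congrArg Subtype.val hi⟩
  · intro i
    refine h59_fn_mono K ?_ (hsf i)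
    exact (subset_iUnion (fun j : Iic i => s j) ⟨i, mem_Iic.2 le_rfl⟩).trans subset_union_right
  · intro i
    exact subset_union_left.trans subset_union_left
  · intro i j hji
    refine insert_subset ?_ ?_
    · exact Or.inl (Or.inr ⟨j, hji, rfl⟩)
    · refine union_subset (union_subset ?_ ?_) ?_
      · exact subset_union_left.trans subset_union_left
      · refine (image_mono ?_).trans (subset_union_right.trans subset_union_left)
        exact Iio_subset_Iio hji.le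
      · refine iUnion_subset fun k => ?_
        exact (subset_iUnion (fun j : Iic i => s j) ⟨k, k.2.trans hji.le⟩).trans
          subset_union_right
  · intro i hmem
    have hec : ∀ j, e j ∈ ((Aw ∪ T)ᶜ : Set Λ) := fun j => (φ (j, t j)).2
    rcases hmem with (h | ⟨j, hj, h⟩) | h
    · exact hec i (Or.inl h)
    · have h4 := φ.injective (Subtype.ext h)
      exact absurd (Prod.mk.inj h4).1 hj.ne
    · exact ht i h
  · intro i
    have heA : ∀ j, e j ∈ A' := fun j => Or.inr ⟨(j, t j), rfl⟩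
    refine insert_subset (heA i) ?_
    refine union_subset (union_subset ?_ ?_) ?_
    · exact subset_union_left.trans subset_union_left
    · rintro _ ⟨j, _, rfl⟩
      exact heA j
    · exact iUnion_subset fun j => hsA j

theorem h59_ext_le (hκ : κ.IsRegular) {A : ℕ → Set Λ}
    {F : ℕ → (ℕ → B) → B} (h : ∀ n, Lev K (A n) (F n))
    (he : ∀ n, Ext K (A n) (F n) (A (n + 1)) (F (n + 1))) {n m : ℕ} (hnm : n ≤ m) :
    Ext K (A n) (F n) (A m) (F m) := by
  induction m, hnm using Nat.le_induction with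
  | base => exact Ext.refl K hκ (h n)
  | succ m _ ih => exact Ext.trans K hκ (h n) (h m) (h (m + 1)) ih (he m)

/-- The name of the constant function with value one. -/
def h59_c1 : ℕ → ℕ → B := fun _ k => if k = 0 then ⊥ else ⊤

theorem h59_c1_mem (A : Set Λ) : (h59_c1 : ℕ → ℕ → B) ∈ K.Fn A := by
  refine ⟨?_, ?_, ?_⟩
  · intro n k
    exact (K.sub A).ite_mem (K.sub A).bot_mem (K.sub A).top_mem
  · intro n k
    simp only [h59_c1, Nat.add_eq_zero_iff, one_ne_zero, and_false, if_false]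
    exact le_top
  · intro n
    apply top_le_iff.1
    refine le_iSup_of_le 1 ?_
    simp [h59_c1]

/-- The name of the characteristic function. -/
def h59_ch (Z : ℕ → B) : ℕ → ℕ → B := fun n k => if k = 0 then (Z n)ᶜ else ⊤

theorem h59_ch_mem {A : Set Λ} {Z : ℕ → B} (hZ : IsNm (K.S A) Z) : h59_ch Z ∈ K.Fn A := by
  refine ⟨?_, ?_, ?_⟩
  · intro n k
    exact (K.sub A).ite_mem ((K.sub A).compl_mem _ (hZ n)) (K.sub A).top_mem
  · intro n k
    simp only [h59_ch, Nat.add_eq_zero_iff, one_ne_zero, and_false, if_false]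
    exact le_top
  · intro n
    apply top_le_iff.1
    refine le_iSup_of_le 1 ?_
    simp [h59_ch]

theorem h59_leN_ch (Z : ℕ → B) : leN h59_c1 (h59_ch Z) = Z := by
  funext n
  apply le_antisymm
  · refine (iInf_le _ 0).trans ?_
    simp [h59_ch, h59_c1]
  · refine le_iInf fun k => ?_
    by_cases hk : k = 0
    · simp [h59_ch, h59_c1, hk]
    · simp [h59_ch, h59_c1, hk]

end Step

end Pool.Agent.Helper95.CU
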