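import Pool.Agent.Helper95.CU.Core
import Pool.Agent.Helper74.CU.Top0

/-!
# Project CU: the value of the sentence
-/

set_option autoImplicit false

namespace Pool.Agent.Helper95.CU

open Pool.Agent.Helper33.HM Cardinal Set

universe u

theorem val_top {κ : Cardinal.{u}} {Λ B : Type u} [CompleteBooleanAlgebra B] (K : Coh κ Λ B)
    (hκ : κ.IsRegular) (h0 : ℵ₀ < κ) (hω : κ ^ ℵ₀ = κ) : Val B = ⊤ := by
  obtain ⟨t⟩ := exists_tower K hκ h0 hω
  exact h74_val_top (bfil_UU t) (dec_UU t hκ h0) fun E hE F hF => core t hκ h0 hω E hE F hF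

end Pool.Agent.Helper95.CU
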