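import Pool.Agent.Helper95.CU.Step

/-!
# Project CU, module Tower: the tower of levels
-/

set_option autoImplicit false

namespace Pool.Agent.Helper95.CU

open Pool.Agent.Helper33.HM Cardinal Set

universe u

section Tower

variable {κ : Cardinal.{u}} {Λ B : Type u} [CompleteBooleanAlgebra B]

/-- A tower of levels. -/
structure Tower (K : Coh κ Λ B) (W : Type u) [LinearOrder W] where
  A : W → Set Λ
  F : W → (ℕ → B) → B
  lev : ∀ α, Lev K (A α) (F α)
  card : ∀ α, #(A α) ≤ κ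
  ext : ∀ β α, β < α → Ext K (A β) (F β) (A α) (F α)
  cover : ∀ e, ∃ α, e ∈ A α
  cont : ∀ α, (∀ u : ℕ → W, (∀ n, u n < α) → ∃ β < α, ∀ n, u n < β) → A α = ⋃ β ∈ Iio α, A β

/-- The name of the filter generated by an ultrafilter. -/
def h55_base (U : Ultrafilter ℕ) (X : ℕ → B) : B := ⨆ Z : Set ℕ, ⨆ _ : Z ∈ U, ⨅ n, ⨅ _ : n ∈ Z, X n

theorem exists_base (K : Coh κ Λ B) : ∃ Φ, Lev K ∅ Φ := by
  classical
  obtain ⟨U, hU⟩ : ∃ U : Ultrafilter ℕ, U = Filter.hyperfilter ℕ := ⟨_, rfl⟩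
  have hcof : ∀ m : ℕ, {n | m ≤ n} ∈ U := by
    intro m
    rw [hU]
    apply Filter.mem_hyperfilter_of_finite_compl
    refine (Set.finite_Iio m).subset ?_
    intro n hn
    simpa using hn
  have hle : ∀ (X : ℕ → B) (b : B) (Z : Set ℕ), Z ∈ U → (∀ n ∈ Z, b ≤ X n) → b ≤ h55_base U X := by
    intro X b Z hZ h
    exact le_iSup₂_of_le Z hZ (le_iInf₂ h)
  refine ⟨h55_base U, ⟨?_, ?_, ?_, ?_⟩, ?_, ?_, ?_⟩
  · intro b X Y m h
    show b ⊓ h55_base U X ≤ h55_base U Y
    unfold h55_base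
    rw [inf_iSup₂_eq]
    refine iSup₂_le fun Z hZ => ?_
    refine hle Y _ (Z ∩ {n | m ≤ n}) (U.inter_mem hZ (hcof m)) fun n hn => ?_
    exact (inf_le_inf_left _ (iInf₂_le n hn.1)).trans (h n hn.2)
  · intro X Y
    show h55_base U X ⊓ h55_base U Y ≤ h55_base U (X ⊓ Y)
    nth_rewrite 1 [h55_base]
    rw [iSup₂_inf_eq]
    refine iSup₂_le fun Z hZ => ?_
    rw [h55_base, inf_iSup₂_eq]
    refine iSup₂_le fun Z' hZ' => ?_
    refine hle _ _ (Z ∩ Z') (U.inter_mem hZ hZ') fun n hn => ?_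
    exact inf_le_inf (iInf₂_le n hn.1) (iInf₂_le n hn.2)
  · apply top_le_iff.1
    exact hle _ _ univ U.univ_mem fun n _ => le_rfl
  · apply le_bot_iff.1
    refine iSup₂_le fun Z hZ => ?_
    obtain ⟨n, hn⟩ := U.nonempty_of_mem hZ
    exact iInf₂_le n hn
  · intro X
    refine iSup₂_le fun Z hZ => ?_
    refine le_iSup₂_of_le (fun n => if n ∈ Z then ⊤ else ⊥) ?_ ?_
    · intro n
      exact (K.sub ∅).ite_mem (K.sub ∅).top_mem (K.sub ∅).bot_mem
    · refine le_inf ?_ ?_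
      · refine hle _ _ Z hZ fun n hn => ?_
        simp [hn]
      · refine le_iInf fun n => ?_
        by_cases hn : n ∈ Z
        · simp only [hn, if_true, top_himp]
          exact iInf₂_le n hn
        · simp [hn]
  · intro Z hZ
    exact (K.sub ∅).iSup_mem fun Y => (K.sub ∅).iSup_mem fun _ => (K.sub ∅).iInf_mem fun n =>
      (K.sub ∅).iInf_mem fun _ => hZ n
  · intro Z hZ
    apply top_le_iff.1
    rcases U.mem_or_compl_mem {n | Z n = ⊤} with h | h
    · refine le_sup_of_le_left (hle _ _ _ h fun n hn => ?_)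
      exact top_le_iff.2 hn
    · refine le_sup_of_le_right (hle _ _ _ h fun n hn => ?_)
      have h1 : Z n = ⊥ := (K.emp _ (hZ n)).resolve_right hn
      simp [h1]

/-- upper bounds at stages of uncountable cofinality -/
theorem lev_union (K : Coh κ Λ B) (hκ : κ.IsRegular) (h0 : ℵ₀ < κ) {ι : Type u} [LinearOrder ι]
    (hι : #ι ≤ κ) [Nonempty ι] {A : ι → Set Λ} {F : ι → (ℕ → B) → B} (h : ∀ i, Lev K (A i) (F i))
    (hc : ∀ i, #(A i) ≤ κ) (he : ∀ i j, i < j → Ext K (A i) (F i) (A j) (F j))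
    (hu : ∀ u : ℕ → ι, ∃ j, ∀ n, u n < j) :
    #(⋃ i, A i) ≤ κ ∧ Lev K (⋃ i, A i) (fun X => ⨆ i, F i X) ∧
      ∀ j, Ext K (A j) (F j) (⋃ i, A i) (fun X => ⨆ i, F i X) := by
  classical
  have hcard : #(⋃ i, A i) ≤ κ := by
    refine (mk_iUnion_le A).trans ?_
    calc #ι * ⨆ i, #(A i) ≤ κ * κ := mul_le_mul' hι (ciSup_le' hc)
      _ = κ := mul_eq_self h0.le
  have hfil : BFil (fun X => ⨆ i, F i X) := by
    refine BFil.iSup (fun i => (h i).fil) fun i j => ?_
    rcases lt_trichotomy i j with hij | hij | hij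
    · exact ⟨j, (he i j hij).le, fun _ => le_rfl⟩
    · subst hij
      exact ⟨i, fun _ => le_rfl, fun _ => le_rfl⟩
    · exact ⟨i, fun _ => le_rfl, (he j i hij).le⟩
  have hle : ∀ i X, F i X ≤ ⨆ i, F i X := fun i X => le_iSup (fun i => F i X) i
  -- countable sets of names are supported by a level
  have hsup : ∀ b : ℕ → B, (∀ n, b n ∈ K.S (⋃ i, A i)) → ∀ j0, ∃ j, j0 < j ∧
      ∀ n, b n ∈ K.S (A j) := by
    intro b hb j0
    have h1 : ∀ n, ∃ D ⊆ ⋃ i, A i, D.Countable ∧ b n ∈ K.S D := fun n => K.csupp _ _ (hb n)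
    choose D hD hDc hDm using h1
    have hDU : (⋃ n, D n).Countable := countable_iUnion hDc
    have h2 : ∃ j, j0 < j ∧ ⋃ n, D n ⊆ A j := by
      rcases (⋃ n, D n).eq_empty_or_nonempty with hemp | hne
      · obtain ⟨j, hj⟩ := hu fun _ => j0
        exact ⟨j, hj 0, by rw [hemp]; exact empty_subset _⟩
      · obtain ⟨e, hee⟩ := hDU.exists_eq_range hne
        have h3 : ∀ n, ∃ i, e n ∈ A i := by
          intro n
          have : e n ∈ ⋃ n, D n := by rw [hee]; exact mem_range_self n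
          obtain ⟨m, hm⟩ := mem_iUnion.1 this
          exact mem_iUnion.1 (hD m hm)
        choose i hi using h3
        obtain ⟨j, hj⟩ := hu fun n => max j0 (i n)
        refine ⟨j, (le_max_left _ _).trans_lt (hj 0), ?_⟩
        rw [hee]
        rintro _ ⟨n, rfl⟩
        exact (he _ _ ((le_max_right _ _).trans_lt (hj n))).sub (hi n)
    obtain ⟨j, hj0, hj⟩ := h2
    exact ⟨j, hj0, fun n => K.mono _ _ ((subset_iUnion D n).trans hj) (hDm n)⟩
  refine ⟨hcard, ⟨hfil, ?_, ?_, ?_⟩, ?_⟩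
  · exact GenBy.iSup fun i => (h i).gen.mono (K.mono _ _ (subset_iUnion A i))
  · intro Z hZ
    exact (K.sub _).iSup_mem fun i =>
      (h i).gen.mem (h i).fil (K.mono _ _ (subset_iUnion A i)) (K.sub _) (h i).mem Z hZ
  · intro Z hZ
    obtain ⟨i0⟩ := ‹Nonempty ι›
    obtain ⟨j, _, hj⟩ := hsup Z hZ i0
    apply top_le_iff.1
    rw [← (h j).dec Z hj]
    exact sup_le_sup (hle j _) (hle j _)
  · intro j
    refine ⟨subset_iUnion A j, hle j, fun f hf => ?_⟩
    obtain ⟨i, hji, hi⟩ := hsup (fun m => f m.unpair.1 m.unpair.2) (fun m => hf.mem _ _) j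
    have hfi : f ∈ K.Fn (A i) := by
      refine ⟨fun n k => ?_, hf.mono, hf.tot⟩
      have := hi (Nat.pair n k)
      simpa using this
    exact h59_good_lift K (h i) hfil (hle i) (h59_fn_mono K (he j i hji).sub) hfi
      ((he j i hji).good f hfi)

/-- The choice at one stage. -/
structure h55_Good (K : Coh κ Λ B) {W : Type u} [LinearOrder W] (e : W → Λ) (α : W)
    (ih : ∀ β, β < α → Set Λ × ((ℕ → B) → B)) (x : Set Λ × ((ℕ → B) → B)) : Prop where
  card : #x.1 ≤ κ
  lev : Lev K x.1 x.2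
  ext : ∀ β (hβ : β < α), Ext K (ih β hβ).1 (ih β hβ).2 x.1 x.2
  mem : ∀ β, β < α → e β ∈ x.1
  cont : (∀ u : ℕ → W, (∀ n, u n < α) → ∃ β < α, ∀ n, u n < β) →
    x.1 = ⋃ β : Iio α, (ih β.1 β.2).1

theorem h55_exists_good (K : Coh κ Λ B) (hκ : κ.IsRegular) (h0 : ℵ₀ < κ) (hω : κ ^ ℵ₀ = κ)
    {W : Type u} [LinearOrder W] (hW : ∀ α : W, #(Iio α) ≤ κ) (e : W → Λ) (α : W)
    (G : W → Set Λ × ((ℕ → B) → B)) (hG : ∀ β < α, h55_Good K e β (fun γ _ => G γ) (G β)) :
    ∃ x, h55_Good K e α (fun γ _ => G γ) x := by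
  classical
  by_cases hcf : ∀ u : ℕ → W, (∀ n, u n < α) → ∃ β < α, ∀ n, u n < β
  · rcases (Iio α).eq_empty_or_nonempty with hemp | ⟨β0, hβ0⟩
    · obtain ⟨Φ, hΦ⟩ := exists_base K
      have hno : ∀ β, ¬ β < α := fun β hβ => by
        have : β ∈ Iio α := hβ
        rw [hemp] at this
        exact this
      refine ⟨(∅, Φ), ?_, hΦ, fun β hβ => absurd hβ (hno β), fun β hβ => absurd hβ (hno β),
        fun _ => ?_⟩
      · simp
      · symm
        refine iUnion_eq_empty.2 fun β => absurd β.2 (hno _)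
    · haveI : Nonempty (Iio α) := ⟨⟨β0, hβ0⟩⟩
      have hlu := lev_union K hκ h0 (ι := Iio α) (hW α) (A := fun β => (G β.1).1)
        (F := fun β => (G β.1).2) (fun β => (hG β.1 β.2).lev) (fun β => (hG β.1 β.2).card)
        (fun i j hij => (hG j.1 j.2).ext i.1 hij) (by
          intro u
          obtain ⟨β, hβ, hβ'⟩ := hcf (fun n => (u n).1) fun n => (u n).2
          exact ⟨⟨β, hβ⟩, fun n => hβ' n⟩)
      refine ⟨(⋃ β : Iio α, (G β.1).1, fun X => ⨆ β : Iio α, (G β.1).2 X), hlu.1, hlu.2.1,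
        fun β hβ => hlu.2.2 ⟨β, hβ⟩, fun β hβ => ?_, fun _ => rfl⟩
      obtain ⟨γ, hγ, hγ'⟩ := hcf (fun _ => β) fun _ => hβ
      exact mem_iUnion.2 ⟨⟨γ, hγ⟩, (hG γ hγ).mem β (hγ' 0)⟩
  · have hcf' := hcf
    push Not at hcf
    obtain ⟨u, hu, hcof⟩ := hcf
    -- make the sequence monotone
    obtain ⟨v, hv, hvs, huv⟩ : ∃ v : ℕ → W, (∀ n, v n < α) ∧ (∀ n, v n ≤ v (n + 1)) ∧
        ∀ n, u n ≤ v n := by
      let v : ℕ → W := fun n => Nat.rec (u 0) (fun n x => max x (u (n + 1))) n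
      have hv0 : v 0 = u 0 := rfl
      have hvS : ∀ n, v (n + 1) = max (v n) (u (n + 1)) := fun n => rfl
      refine ⟨v, ?_, ?_, ?_⟩
      · intro n
        induction n with
        | zero => rw [hv0]; exact hu 0
        | succ n ih => rw [hvS]; exact max_lt ih (hu _)
      · intro n
        rw [hvS]
        exact le_max_left _ _
      · intro n
        cases n with
        | zero => exact hv0.ge
        | succ n => rw [hvS]; exact le_max_right _ _
    have hle : ∀ β γ, β ≤ γ → γ < α → Ext K (G β).1 (G β).2 (G γ).1 (G γ).2 := by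
      intro β γ hβγ hγ
      rcases hβγ.eq_or_lt with rfl | hlt
      · exact Ext.refl K hκ (hG β hγ).lev
      · exact (hG γ hγ).ext β hlt
    obtain ⟨A', Φ', hA', hT, hlev, hext⟩ := step K hκ h0 hω (A := fun n => (G (v n)).1)
      (F := fun n => (G (v n)).2) (fun n => (hG _ (hv n)).lev) (fun n => (hG _ (hv n)).card)
      (fun n => hle _ _ (hvs n) (hv (n + 1))) (T := e '' Iio α) (mk_image_le.trans (hW α))
    refine ⟨(A', Φ'), hA', hlev, fun β hβ => ?_, fun β hβ => hT ⟨β, hβ, rfl⟩,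
      fun h => absurd h hcf'⟩
    obtain ⟨n, hn⟩ := hcof β hβ
    exact Ext.trans K hκ (hG β hβ).lev (hG _ (hv n)).lev hlev
      (hle β (v n) (hn.trans (huv n)) (hv n)) (hext n)

theorem exists_tower (K : Coh κ Λ B) (hκ : κ.IsRegular) (h0 : ℵ₀ < κ) (hω : κ ^ ℵ₀ = κ) :
    Nonempty (Tower K (Order.succ κ).ord.ToType) := by
  classical
  have hinf : ℵ₀ ≤ Order.succ κ := h0.le.trans (Order.le_succ κ)
  have : NoMaxOrder (Order.succ κ).ord.ToType := Cardinal.noMaxOrder hinf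
  have hW : ∀ α : (Order.succ κ).ord.ToType, #(Iio α) ≤ κ := by
    intro α
    have h1 := mk_Iio_lt α (by simp)
    rw [mk_ord_toType] at h1
    exact Order.lt_succ_iff.1 h1
  obtain ⟨e⟩ : Nonempty ((Order.succ κ).ord.ToType ≃ Λ) := by
    rw [← Cardinal.eq, mk_ord_toType, K.card]
  obtain ⟨Φ0, hΦ0⟩ := exists_base K
  let G : (Order.succ κ).ord.ToType → Set Λ × ((ℕ → B) → B) := WellFounded.fix
    (wellFounded_lt (α := (Order.succ κ).ord.ToType)) (C := fun _ => Set Λ × ((ℕ → B) → B))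
    fun α ih => if h : ∃ x, h55_Good K e α ih x then h.choose else (∅, Φ0)
  have hGeq : ∀ α, G α = if h : ∃ x, h55_Good K e α (fun β _ => G β) x then h.choose
      else (∅, Φ0) := by
    intro α
    exact WellFounded.fix_eq (wellFounded_lt (α := (Order.succ κ).ord.ToType))
      (C := fun _ => Set Λ × ((ℕ → B) → B))
      (fun α ih => if h : ∃ x, h55_Good K e α ih x then h.choose else (∅, Φ0)) α
  have hG : ∀ α, h55_Good K e α (fun β _ => G β) (G α) := by
    intro α
    induction α using WellFoundedLT.induction with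
    | ind α ih =>
      have hex := h55_exists_good K hκ h0 hω hW e α G ih
      rw [hGeq α, dif_pos hex]
      exact hex.choose_spec
  refine ⟨{ A := fun α => (G α).1
            F := fun α => (G α).2
            lev := fun α => (hG α).lev
            card := fun α => (hG α).card
            ext := fun β α hβ => (hG α).ext β hβ
            cover := ?_
            cont := ?_ }⟩
  · intro x
    obtain ⟨α, hα⟩ := exists_gt (e.symm x)
    refine ⟨α, ?_⟩
    have := (hG α).mem _ hα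
    simpa using this
  · intro α hα
    have h1 := (hG α).cont hα
    rw [h1]
    ext x
    simp only [mem_iUnion, Subtype.exists, mem_Iio]


end Tower

end Pool.Agent.Helper95.CU
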